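import Mathlib

/-!
Averages over the unit cube of smooth functions depending on a parameter.
-/

set_option autoImplicit false

open Set MeasureTheory Filter Topology
open scoped ContDiff

noncomputable section

namespace Pool.Agent.Helper224_tor

variable {m : ℕ} {V G : Type} [NormedAddCommGroup V] [NormedSpace ℝ V] [FiniteDimensional ℝ V]
  [NormedAddCommGroup G] [NormedSpace ℝ G] [CompleteSpace G]

/-- the average over the unit cube -/
def avg {H G : Type} [NormedAddCommGroup G] [NormedSpace ℝ G] (F : (Fin m → ℝ) × H → G) (p : H) : G :=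
  ∫ t in Icc (0 : Fin m → ℝ) 1, F (t, p)

/-- the partial derivative with respect to the parameter -/
def par (F : (Fin m → ℝ) × V → G) (q : (Fin m → ℝ) × V) : V →L[ℝ] G :=
  (fderiv ℝ F q).comp (ContinuousLinearMap.inr ℝ (Fin m → ℝ) V)

omit [FiniteDimensional ℝ V] [CompleteSpace G] in
theorem slice_cont {F : (Fin m → ℝ) × V → G} {U : Set V}
    (hF : ContinuousOn F (univ ×ˢ U)) {p : V} (hp : p ∈ U) : Continuous fun t => F (t, p) := by
  rw [← continuousOn_univ]
  exact hF.comp (by fun_prop) (fun t _ => ⟨mem_univ _, hp⟩)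

omit [FiniteDimensional ℝ V] [CompleteSpace G] in
theorem slice_int {F : (Fin m → ℝ) × V → G} {U : Set V}
    (hF : ContinuousOn F (univ ×ˢ U)) {p : V} (hp : p ∈ U) :
    IntegrableOn (fun t => F (t, p)) (Icc (0 : Fin m → ℝ) 1) :=
  (slice_cont hF hp).continuousOn.integrableOn_compact isCompact_Icc

omit [FiniteDimensional ℝ V] [CompleteSpace G] in
theorem par_smooth {F : (Fin m → ℝ) × V → G} {U : Set V} (hU : IsOpen U)
    (hF : ContDiffOn ℝ ∞ F (univ ×ˢ U)) : ContDiffOn ℝ ∞ (par F) (univ ×ˢ U) := by
  have h1 : ContDiffOn ℝ ∞ (fderiv ℝ F) (univ ×ˢ U) :=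
    ((contDiffOn_infty_iff_fderiv_of_isOpen (isOpen_univ.prod hU)).1 hF).2
  exact h1.clm_comp contDiffOn_const

theorem avg_hasFDerivAt {F : (Fin m → ℝ) × V → G} {U : Set V} (hU : IsOpen U)
    (hF : ContDiffOn ℝ ∞ F (univ ×ˢ U)) {p : V} (hp : p ∈ U) :
    HasFDerivAt (avg F) (avg (par F) p) p := by
  have : ProperSpace V := FiniteDimensional.proper_real V
  obtain ⟨r, hr, hrU⟩ := Metric.nhds_basis_closedBall.mem_iff.1 (hU.mem_nhds hp)
  have hcont : ContinuousOn (par F) (univ ×ˢ U) := (par_smooth hU hF).continuousOn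
  have hK : IsCompact (Icc (0 : Fin m → ℝ) 1 ×ˢ Metric.closedBall p r) :=
    isCompact_Icc.prod (isCompact_closedBall p r)
  obtain ⟨C, hC⟩ := hK.exists_bound_of_continuousOn
    (hcont.mono (prod_mono (subset_univ _) hrU))
  have hdiff : ∀ t : Fin m → ℝ, ∀ x ∈ U, HasFDerivAt (fun y => F (t, y)) (par F (t, x)) x := by
    intro t x hx
    have h1 : HasFDerivAt F (fderiv ℝ F (t, x)) (t, x) :=
      ((hF.contDiffAt ((isOpen_univ.prod hU).mem_nhds ⟨mem_univ _, hx⟩)).differentiableAt
        (by simp)).hasFDerivAt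
    exact h1.comp x (hasFDerivAt_prodMk_right t x)
  refine hasFDerivAt_integral_of_dominated_of_fderiv_le (F := fun x t => F (t, x))
    (F' := fun x t => par F (t, x)) (bound := fun _ => C) (s := Metric.ball p r)
    (Metric.ball_mem_nhds p hr) ?_ ?_ ?_ ?_ ?_ ?_
  · filter_upwards [Metric.ball_mem_nhds p hr] with x hx
    exact (slice_int hF.continuousOn (hrU (Metric.ball_subset_closedBall hx))).aestronglyMeasurable
  · exact slice_int hF.continuousOn hp
  · exact (slice_int hcont hp).aestronglyMeasurable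
  · filter_upwards [ae_restrict_mem measurableSet_Icc] with t ht x hx
    exact hC (t, x) ⟨ht, Metric.ball_subset_closedBall hx⟩
  · exact (integrableOn_const (by exact isCompact_Icc.measure_lt_top.ne))
  · filter_upwards with t x hx
    exact hdiff t x (hrU (Metric.ball_subset_closedBall hx))

theorem avg_contDiffOn_nat (n : ℕ) : ∀ (G : Type) [NormedAddCommGroup G] [NormedSpace ℝ G]
    [CompleteSpace G] (F : (Fin m → ℝ) × V → G) (U : Set V), IsOpen U →
    ContDiffOn ℝ ∞ F (univ ×ˢ U) → ContDiffOn ℝ n (avg F) U := by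
  induction n with
  | zero =>
    intro G _ _ _ F U hU hF
    exact contDiffOn_zero.2 fun p hp => (avg_hasFDerivAt hU hF hp).continuousAt.continuousWithinAt
  | succ n ih =>
    intro G _ _ _ F U hU hF
    have h := ih (V →L[ℝ] G) (par F) U hU (par_smooth hU hF)
    rw [show ((n + 1 : ℕ) : WithTop ℕ∞) = (n : WithTop ℕ∞) + 1 by push_cast; rfl,
      contDiffOn_succ_iff_fderiv_of_isOpen hU]
    refine ⟨fun p hp => (avg_hasFDerivAt hU hF hp).differentiableAt.differentiableWithinAt,
      by simp, ?_⟩
    exact h.congr fun p hp => (avg_hasFDerivAt hU hF hp).fderiv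

theorem avg_smooth {F : (Fin m → ℝ) × V → G} {U : Set V} (hU : IsOpen U)
    (hF : ContDiffOn ℝ ∞ F (univ ×ˢ U)) : ContDiffOn ℝ ∞ (avg F) U :=
  contDiffOn_infty.2 fun n => avg_contDiffOn_nat n G F U hU hF

/-- The partial derivatives in the directions of the cube of a periodic function have average
zero. -/
theorem avg_partial {F : (Fin m → ℝ) × V → G} {U : Set V} (hU : IsOpen U)
    (hF : ContDiffOn ℝ ∞ F (univ ×ˢ U)) {p : V} (hp : p ∈ U) (i : Fin m)
    (hper : ∀ t, F (t + Pi.single i 1, p) = F (t, p)) :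
    ∫ t in Icc (0 : Fin m → ℝ) 1, fderiv ℝ F (t, p) (Pi.single i 1, 0) = 0 := by
  obtain _ | n := m
  · exact i.elim0
  have hdiff : ∀ t : Fin (n + 1) → ℝ, HasFDerivAt (fun s => F (s, p))
      ((fderiv ℝ F (t, p)).comp (ContinuousLinearMap.inl ℝ (Fin (n + 1) → ℝ) V)) t := by
    intro t
    have h1 : HasFDerivAt F (fderiv ℝ F (t, p)) (t, p) :=
      ((hF.contDiffAt ((isOpen_univ.prod hU).mem_nhds ⟨mem_univ _, hp⟩)).differentiableAt
        (by simp)).hasFDerivAt
    exact h1.comp t (hasFDerivAt_prodMk_left t p)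
  have hfd : ContinuousOn (fderiv ℝ F) (univ ×ˢ U) :=
    (((contDiffOn_infty_iff_fderiv_of_isOpen (isOpen_univ.prod hU)).1 hF).2).continuousOn
  have hc : Continuous fun t => fderiv ℝ F (t, p) := slice_cont hfd hp
  have key := integral_divergence_of_hasFDerivAt_off_countable' (E := G) (n := n)
    (0 : Fin (n + 1) → ℝ) 1 (fun _ => zero_le_one)
    (fun j t => if j = i then F (t, p) else 0)
    (fun j t => if j = i then
      (fderiv ℝ F (t, p)).comp (ContinuousLinearMap.inl ℝ (Fin (n + 1) → ℝ) V) else 0)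
    ∅ countable_empty ?_ ?_ ?_
  · have e1 : ∀ t : Fin (n + 1) → ℝ, (∑ j, (if j = i then
        (fderiv ℝ F (t, p)).comp (ContinuousLinearMap.inl ℝ (Fin (n + 1) → ℝ) V) else 0)
          (Pi.single j 1)) = fderiv ℝ F (t, p) (Pi.single i 1, 0) := by
      intro t
      rw [Finset.sum_eq_single i]
      · simp
      · intro j _ hj; simp [hj]
      · simp
    simp only [e1] at key
    rw [key]
    refine Finset.sum_eq_zero fun j _ => ?_
    by_cases hj : j = i
    · subst hj
      simp only [if_true]
      rw [sub_eq_zero]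
      refine integral_congr_ae (Filter.Eventually.of_forall fun x => ?_)
      have e2 : (j.insertNth (α := fun _ => ℝ) (1 : ℝ) x : Fin (n + 1) → ℝ) =
          (j.insertNth (α := fun _ => ℝ) (0 : ℝ) x : Fin (n + 1) → ℝ) + Pi.single j 1 := by
        funext l
        refine j.succAboveCases ?_ ?_ l
        · simp
        · intro l'; simp [Fin.succAbove_ne]
      simp only [Pi.one_apply, Pi.zero_apply]
      rw [e2, hper]
    · simp [hj]
  · intro j
    by_cases hj : j = i
    · simp only [hj, if_true]; exact (slice_cont hF.continuousOn hp).continuousOn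
    · simp only [hj, if_false]; exact continuousOn_const
  · intro t _ j
    by_cases hj : j = i
    · simp only [hj, if_true]; exact hdiff t
    · simp only [hj, if_false]; exact hasFDerivAt_const _ _
  · refine Continuous.integrableOn_Icc ?_
    refine continuous_finsetSum _ fun j _ => ?_
    by_cases hj : j = i
    · simp only [hj, if_true]
      simp only [ContinuousLinearMap.comp_apply]
      exact hc.clm_apply continuous_const
    · simp only [hj, if_false]
      simp only [zero_apply]
      exact continuous_const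

end Pool.Agent.Helper224_tor
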