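import Pool.Agent.Helper224_tor.Conv

/-!
The equivalences.
-/

set_option autoImplicit false

open Set MeasureTheory Filter Topology
open scoped Manifold ContDiff

noncomputable section

namespace Pool.Agent.Helper224_tor

open Pool.Agent.Y501.SYP

variable {m : ℕ} {V : Type} [NormedAddCommGroup V] [NormedSpace ℝ V] [FiniteDimensional ℝ V]
  {P : Type} [TopologicalSpace P] [ChartedSpace V P]

/-- the value of an endomorphism field at `(t, x)` -/
def vale (A : EndC V P m) (t : Fin m → ℝ) (x : P) : Cy m V →L[ℝ] Cy m V :=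
  A ((t, x) : Cyl m P)

omit [FiniteDimensional ℝ V] in
theorem vale_shift {A : EndC V P m} {s : Fin m → ℝ} (h : InvEnd s A) (t : Fin m → ℝ) (x : P)
    (v : Cy m V) : vale A (t + s) x v = vale A t x v := by
  have h1 := h ((t, x) : Cyl m P) v
  have e1 := dshift_apply (V := V) s ((t, x) : Cyl m P) v
  have e2 := dshift_apply (V := V) s ((t, x) : Cyl m P) (vale A t x v)
  have e3 : vale A (t + s) x (dshift V s ((t, x) : Cyl m P) v) =
    dshift V s ((t, x) : Cyl m P) (vale A t x v) := h1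
  rw [e2] at e3
  have e4 : ∀ (x₁ x' : Cy m V), x₁ = x' → vale A (t + s) x x₁ = vale A (t + s) x x' := by
    rintro x₁ _ rfl; rfl
  exact (e4 _ _ e1).symm.trans e3

theorem tamed_mean [IsManifold 𝓘(ℝ, V) ∞ P] {σ : FormC V P m} {A : EndC V P m}
    (hs : IsSmooth σ) (hA : ∀ s, InvEnd s A)
    (hpos : ∀ (q : Cyl m P) (v : TangentSpace 𝓘(ℝ, (Fin m → ℝ) × V) q), v ≠ 0 →
      0 < σ q ![v, A q v]) (x : P) : ND (mean σ x) := by
  intro v hv
  by_contra hne
  have h1 : 0 < mean σ x ![v, vale A 0 x v] := by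
    refine mean_pos hs fun t => ?_
    have h2 : 0 < val σ t x ![v, vale A t x v] := hpos ((t, x) : Cyl m P) v hne
    have h3 : vale A t x v = vale A 0 x v := by
      have := vale_shift (hA t) 0 x v
      rwa [zero_add] at this
    rwa [h3] at h2
  exact h1.ne' (hv _)

theorem inv_tamed {m : ℕ} (h : InvSymp V P m) : Tamed V P m := by
  obtain ⟨σ, hσ, hinv⟩ := h
  have hnd : ∀ x, ND (val σ 0 x) := fun x => hσ.nondeg ((0, x) : Cyl m P)
  choose A hA using fun x => exists_pos (hnd x)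
  let A' : EndC V P m := fun q => A q.2
  refine ⟨σ, A', hσ.smooth, hσ.closed, fun i => hinv _, ?_, ?_⟩
  · intro s q v
    have e1 := dshift_apply (V := V) s q v
    have e2 := dshift_apply (V := V) s q (A q.2 v)
    have e4 : ∀ (x₁ x' : Cy m V), x₁ = x' → A q.2 x₁ = A q.2 x' := by
      rintro x₁ _ rfl; rfl
    exact (e4 _ _ e1).trans e2.symm
  · intro q v hv
    have h1 : 0 < val σ 0 q.2 ![v, A q.2 v] := hA q.2 v hv
    rw [← val_inv hinv q.1 q.2] at h1
    exact h1

theorem tfae0 [IsManifold 𝓘(ℝ, V) ∞ P] [CompactSpace P] (k : ℕ) :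
    List.TFAE [Tamed V P (2 * k), InvSymp V P (2 * k), Symp V P] := by
  obtain ⟨g, hg, hg0⟩ := exists_skew k
  tfae_have 1 → 3
  | ⟨σ, A, hs, hc, hper, hA, hpos⟩ => main hs hc hper (tamed_mean hs hA hpos) hg hg0
  tfae_have 3 → 2
  | ⟨β, hβ⟩ => backward0 hβ hg hg0
  tfae_have 2 → 1
  | h => inv_tamed h
  tfae_finish

theorem tfaer [IsManifold 𝓘(ℝ, V) ∞ P] [CompactSpace P] (k r : ℕ) :
    List.TFAE [Tamed V P (2 * k + r), InvSymp V P (2 * k + r), InvSymp V P r] := by
  obtain ⟨g, hg, hg0⟩ := exists_skew k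
  tfae_have 1 → 3
  | ⟨σ, A, hs, hc, hper, hA, hpos⟩ => forward hs hc hper (tamed_mean hs hA hpos) hg hg0
  tfae_have 3 → 2
  | ⟨τ, hτ, hinv⟩ => backward hτ hinv hg hg0
  tfae_have 2 → 1
  | h => inv_tamed h
  tfae_finish

end Pool.Agent.Helper224_tor
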