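import Pool.Agent.Helper224_tor.Pub
import Pool.Agent.Helper224_tor.Tfae

/-!
The public definitions agree with the internal ones.
-/

set_option autoImplicit false

open Set
open scoped Manifold ContDiff

noncomputable section

namespace Pool.Agent.Helper224_tor

open Pool.Agent.Y501.SYP

variable (V : Type) [NormedAddCommGroup V] [NormedSpace ℝ V]
  (P : Type) [TopologicalSpace P] [ChartedSpace V P]

theorem sympl_iff {W X : Type} [NormedAddCommGroup W] [NormedSpace ℝ W] [TopologicalSpace X]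
    [ChartedSpace W X] (σ : Form W X 2) :
    Pool.Agent.Helper224_torP.IsSymplectic σ ↔ IsSymplectic σ :=
  ⟨fun h => ⟨h.1, h.2, h.3⟩, fun h => ⟨h.1, h.2, h.3⟩⟩

theorem symp_iff : Pool.Agent.Helper224_torP.Symp V P ↔ Symp V P :=
  exists_congr fun β => sympl_iff β

theorem inv_iff (m : ℕ) : Pool.Agent.Helper224_torP.InvSymp V P m ↔ InvSymp V P m := by
  constructor
  · rintro ⟨σ, h1, h2⟩
    have h3 := (sympl_iff σ).1 h1
    exact ⟨σ, ⟨h3.1, h3.2, h3.3⟩, h2⟩
  · rintro ⟨σ, h1, h2⟩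
    exact ⟨σ, ⟨h1.1, h1.2, h1.3⟩, h2⟩

theorem tamed_iff (m : ℕ) : Pool.Agent.Helper224_torP.Tamed V P m ↔ Tamed V P m := by
  constructor
  · rintro ⟨σ, A, h1, h2, h3, h4, h5⟩
    exact ⟨σ, A, h1, h2, h3, h4, h5⟩
  · rintro ⟨σ, A, h1, h2, h3, h4, h5⟩
    exact ⟨σ, A, h1, h2, h3, h4, h5⟩

end Pool.Agent.Helper224_tor
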