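import Pool.Agent.Helper224_tor.ClsBwd

/-!
Class version: the equivalences.
-/

set_option autoImplicit false

open Set MeasureTheory Filter Topology
open scoped Manifold ContDiff

noncomputable section

namespace Pool.Agent.Helper224_tor

open Pool.Agent.Y501.SYP

section gen

variable {W : Type} [NormedAddCommGroup W] [NormedSpace ℝ W]
  {X : Type} [TopologicalSpace X] [ChartedSpace W X]

theorem smooth_of_add {σ η : Form W X 2} (h1 : IsSmooth σ) (h2 : IsSmooth (addF σ η)) :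
    IsSmooth η := by
  intro U Φ hΦ
  have h3 := (h2 U Φ hΦ).sub (h1 U Φ hΦ)
  refine h3.congr fun y _ => ?_
  have : ∀ a b : W [⋀^Fin 2]→L[ℝ] ℝ, b = (a + b) - a := fun a b => by abel
  exact this (pb Φ σ y) (pb Φ η y)

/-- `σ' - σ` is exact. -/
def Coh' (σ σ' : Form W X 2) : Prop :=
  ∃ (γ : Form W X 1) (η : Form W X 2), IsSmooth γ ∧ IsD γ η ∧ σ' = addF σ η

end gen

variable {m : ℕ} {V : Type} [NormedAddCommGroup V] [NormedSpace ℝ V]
  {P : Type} [TopologicalSpace P] [ChartedSpace V P]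

/-- invariance of one-forms -/
def Inv1 (s : Fin m → ℝ) (γ : FormK V P m 1) : Prop :=
  ∀ (q : Cyl m P) (v : TangentSpace 𝓘(ℝ, (Fin m → ℝ) × V) q),
    γ (shift s q) ![dshift V s q v] = γ q ![v]

theorem invK_one {γ : FormK V P m 1} {s : Fin m → ℝ} : InvK s γ ↔ Inv1 s γ := by
  have key : ∀ (q : Cyl m P) (v : Fin 1 → Cy m V),
      (γ (shift s q) : (Cy m V) [⋀^Fin 1]→L[ℝ] ℝ) (fun i => dshift V s q (v i)) =
      (γ (shift s q) : (Cy m V) [⋀^Fin 1]→L[ℝ] ℝ) ![dshift V s q (v 0)] := by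
    intro q v
    congr 1
    funext i
    fin_cases i; rfl
  have key2 : ∀ (q : Cyl m P) (v : Fin 1 → Cy m V),
      (γ q : (Cy m V) [⋀^Fin 1]→L[ℝ] ℝ) v = (γ q : (Cy m V) [⋀^Fin 1]→L[ℝ] ℝ) ![v 0] := by
    intro q v
    congr 1
    funext i
    fin_cases i; rfl
  constructor
  · intro h q v
    have h1 := h q ![v]
    exact (key q ![v]).symm.trans h1
  · intro h q v
    have h1 := h q (v 0)
    exact (key q v).trans (h1.trans (key2 q v).symm)

theorem inv_of_add {σ η : FormC V P m} {s : Fin m → ℝ} (h1 : InvForm s σ)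
    (h2 : InvForm s (addF σ η)) : InvForm s η := by
  intro q v w
  have a1 := h1 q v w
  have a2 := h2 q v w
  change σ (shift s q) ![dshift V s q v, dshift V s q w] +
    η (shift s q) ![dshift V s q v, dshift V s q w] = σ q ![v, w] + η q ![v, w] at a2
  rw [a1] at a2
  exact add_left_cancel a2

/-- `σ' - σ` is exact on the product of the torus and `P`. -/
def CohT' (σ σ' : FormC V P m) : Prop :=
  ∃ (γ : FormK V P m 1) (η : FormC V P m),
    IsSmooth γ ∧ (∀ i : Fin m, Inv1 (Pi.single i 1) γ) ∧ IsD γ η ∧ σ' = addF σ η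

/-- tamed in the class -/
def TamedIn' (σ : FormC V P m) : Prop :=
  ∃ (σ' : FormC V P m) (A : EndC V P m), IsSmooth σ' ∧
    IsClosedForm σ' ∧ Periodic σ' ∧ CohT' σ σ' ∧
    (∀ s : Fin m → ℝ, InvEnd s A) ∧
    ∀ (q : Cyl m P) (v : TangentSpace 𝓘(ℝ, (Fin m → ℝ) × V) q), v ≠ 0 → 0 < σ' q ![v, A q v]

/-- the positivity criterion -/
def Pos' (σ' : FormC V P m) : Prop :=
  ∀ (x : P) (v : Cy m V), v ≠ 0 → ∃ w : Cy m V, ∀ t : Fin m → ℝ, 0 < val σ' t x ![v, w]

/-- the criterion in the class -/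
def PosIn' (σ : FormC V P m) : Prop :=
  ∃ σ' : FormC V P m, IsSmooth σ' ∧ IsClosedForm σ' ∧ Periodic σ' ∧ CohT' σ σ' ∧ Pos' σ'

/-- invariant symplectic forms in the class -/
def InvSympIn' (σ : FormC V P m) : Prop :=
  ∃ σ' : FormC V P m, IsSymplectic σ' ∧ (∀ s : Fin m → ℝ, InvForm s σ') ∧ CohT' σ σ'

/-- symplectic forms in the class -/
def SympIn' (ρ : Form V P 2) : Prop := ∃ β : Form V P 2, IsSymplectic β ∧ Coh' ρ β

/-- reduced forms -/
def IsRed' (σ : FormC V P m) (ρ : Form V P 2) : Prop :=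
  ∀ (x : P) (u w : V) (c e : Fin m → ℝ),
    (∀ b : Fin m → ℝ, val σ 0 x ![((c, u) : Cy m V), ((b, 0) : Cy m V)] = 0) →
      (ρ x : V [⋀^Fin 2]→L[ℝ] ℝ) ![u, w] = val σ 0 x ![((c, u) : Cy m V), ((e, w) : Cy m V)]

/-- nondegenerate on the tori -/
def NondegT' (σ : FormC V P m) : Prop :=
  ∀ (x : P) (c : Fin m → ℝ),
    (∀ b : Fin m → ℝ, val σ 0 x ![((c, 0) : Cy m V), ((b, 0) : Cy m V)] = 0) → c = 0

theorem det_of_nondeg {σ : FormC V P m} (h : NondegT' σ) (x : P) :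
    IsUnit (fm (val σ 0 x)).det := by
  rw [isUnit_iff_ne_zero]
  intro h0
  obtain ⟨c, hc, hc0⟩ := Matrix.exists_vecMul_eq_zero_iff.2 h0
  apply hc
  refine h x c fun b => ?_
  refine bil_zero_iff (val σ 0 x) _ (fun l => ?_) b
  rw [expand]
  have h2 : val σ 0 x ![((0 : Fin m → ℝ), (0 : V)), bv V l] = 0 := by
    rw [← bil_apply]
    have : (((0 : Fin m → ℝ), (0 : V)) : Cy m V) = 0 := rfl
    rw [this, map_zero]; rfl
  rw [h2, add_zero]
  exact congrFun hc0 l

theorem add_snd (η : (Cy m V) [⋀^Fin 2]→L[ℝ] ℝ) (v : Cy m V) (e : Fin m → ℝ) (w : V)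
    (h : η ![v, ((e, 0) : Cy m V)] = 0) :
    η ![v, ((e, w) : Cy m V)] = η ![v, ((0, w) : Cy m V)] := by
  rw [← bil_apply] at h ⊢
  rw [← bil_apply]
  have e1 : ((e, w) : Cy m V) = (e, 0) + (0, w) := by simp
  rw [e1, map_add, h, zero_add]

theorem red_iff {σ : FormC V P m} (hdet : ∀ x, IsUnit (fm (val σ 0 x)).det) (ρ : Form V P 2) :
    IsRed' σ ρ ↔ ρ = rf σ := by
  constructor
  · intro h
    funext x
    have key : ∀ a b : V [⋀^Fin 2]→L[ℝ] ℝ, (∀ u w : V, a ![u, w] = b ![u, w]) → a = b :=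
      fun a b h => alt_ext h
    refine key (ρ x) (rf σ x) fun u w => ?_
    obtain ⟨s, h1, h2⟩ := schur_red (val σ 0 x) (hdet x) u
    exact (h x u w s 0 h1).trans (h2 w).symm
  · rintro rfl
    intro x u w c e hce
    rw [add_snd _ _ _ _ (hce e)]
    exact schur_char (val σ 0 x) (hdet x) u w c hce

variable [FiniteDimensional ℝ V]

theorem mean_add [IsManifold 𝓘(ℝ, V) ∞ P] {σ η : FormC V P m} (h1 : IsSmooth σ)
    (h2 : IsSmooth η) (x : P) : mean (addF σ η) x = mean σ x + mean η x := by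
  have i1 : IntegrableOn (fun t => val σ t x) (Icc (0 : Fin m → ℝ) 1) :=
    (val_cont h1 x).continuousOn.integrableOn_compact isCompact_Icc
  have i2 : IntegrableOn (fun t => val η t x) (Icc (0 : Fin m → ℝ) 1) :=
    (val_cont h2 x).continuousOn.integrableOn_compact isCompact_Icc
  exact integral_add i1 i2

theorem tfaeCls [IsManifold 𝓘(ℝ, V) ∞ P] {σ : FormC V P m} (hs : IsSmooth σ)
    (hc : IsClosedForm σ) (hinv : ∀ s, InvForm s σ) (hdet : ∀ x, IsUnit (fm (val σ 0 x)).det) :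
    List.TFAE [PosIn' σ, TamedIn' σ, InvSympIn' σ, SympIn' (rf σ)] := by
  tfae_have 2 → 1 := by
    rintro ⟨σ', A, hs', hc', hper', hcoh, hA, hpos⟩
    refine ⟨σ', hs', hc', hper', hcoh, fun x v hv => ⟨vale A 0 x v, fun t => ?_⟩⟩
    have h2 : 0 < val σ' t x ![v, vale A t x v] := hpos ((t, x) : Cyl m P) v hv
    have h3 : vale A t x v = vale A 0 x v := by
      have := vale_shift (hA t) 0 x v
      rwa [zero_add] at this
    rwa [h3] at h2
  tfae_have 1 → 4 := by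
    rintro ⟨σ', hs', hc', hper', ⟨γ, η, hγ, hγi, hD, e⟩, hpos⟩
    subst e
    have hη : IsSmooth η := smooth_of_add hs hs'
    have hperη : Periodic η := fun i => inv_of_add (hinv _) (hper' i)
    have hnd : ∀ x, ND (val σ 0 x + mean η x) := by
      intro x
      have h1 : ND (mean (addF σ η) x) := by
        intro v hv
        by_contra hne
        obtain ⟨w, hw⟩ := hpos x v hne
        exact (mean_pos hs' hw).ne' (hv w)
      rwa [mean_add hs hη, mean_inv hinv] at h1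
    obtain ⟨δ, θ, k1, k2, k3, k4⟩ := fwdCls hs hc hinv hdet hγ hη hD
      (fun i => invK_one.2 (hγi i)) hperη hnd
    exact ⟨_, k4, δ, θ, k1, k3, rfl⟩
  tfae_have 4 → 3 := by
    rintro ⟨β, hβ, δ, θ, hδ, hD, e⟩
    subst e
    have hθ : IsSmooth θ := smooth_of_add (rf_sc hs hc hinv).1 hβ.smooth
    obtain ⟨γ, η, g1, g2, g3, g4, g5, g6⟩ := bwdCls hs hc hinv hdet hδ hθ hD hβ
    exact ⟨_, g5, g6, γ, η, g1, fun i => invK_one.1 (g4 _), g3, rfl⟩
  tfae_have 3 → 2 := by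
    rintro ⟨σ', hσ, hinv', hcoh⟩
    have hnd : ∀ x, ND (val σ' 0 x) := fun x => hσ.nondeg ((0, x) : Cyl m P)
    choose A hA using fun x => exists_pos (hnd x)
    let A' : EndC V P m := fun q => A q.2
    refine ⟨σ', A', hσ.smooth, hσ.closed, fun i => hinv' _, hcoh, ?_, ?_⟩
    · intro s q v
      have e1 := dshift_apply (V := V) s q v
      have e2 := dshift_apply (V := V) s q (A q.2 v)
      have e4 : ∀ (x₁ x' : Cy m V), x₁ = x' → A q.2 x₁ = A q.2 x' := by
        rintro x₁ _ rfl; rfl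
      exact (e4 _ _ e1).trans e2.symm
    · intro q v hv
      have h1 : 0 < val σ' 0 q.2 ![v, A q.2 v] := hA q.2 v hv
      rw [← val_inv hinv' q.1 q.2] at h1
      exact h1
  tfae_finish

end Pool.Agent.Helper224_tor
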