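import Pool.Agent.Helper224_tor.PubCls
import Pool.Agent.Helper224_tor.ClsTfae

/-!
The public definitions agree with the internal ones.
-/

set_option autoImplicit false

open Set
open scoped Manifold ContDiff

noncomputable section

namespace Pool.Agent.Helper224_tor

open Pool.Agent.Y501.SYP

variable {V : Type} [NormedAddCommGroup V] [NormedSpace ℝ V]
  {P : Type} [TopologicalSpace P] [ChartedSpace V P] {m : ℕ}

theorem coh_iff {W X : Type} [NormedAddCommGroup W] [NormedSpace ℝ W] [TopologicalSpace X]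
    [ChartedSpace W X] (σ σ' : Form W X 2) :
    Pool.Agent.Helper224_torP.Coh σ σ' ↔ Coh' σ σ' := Iff.rfl

theorem cohT_iff (σ σ' : Form (Pool.Agent.Helper224_torP.Md m V)
    (Pool.Agent.Helper224_torP.Cyl m P) 2) :
    Pool.Agent.Helper224_torP.CohT σ σ' ↔ CohT' (V := V) (P := P) (m := m) σ σ' := by
  constructor
  · rintro ⟨γ, η, h1, h2, h3, h4⟩
    exact ⟨γ, η, h1, h2, h3, h4⟩
  · rintro ⟨γ, η, h1, h2, h3, h4⟩
    exact ⟨γ, η, h1, h2, h3, h4⟩

theorem sympIn_iff (ρ : Form V P 2) : Pool.Agent.Helper224_torP.SympIn ρ ↔ SympIn' ρ := by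
  constructor
  · rintro ⟨β, h1, h2⟩
    exact ⟨β, (sympl_iff β).1 h1, h2⟩
  · rintro ⟨β, h1, h2⟩
    exact ⟨β, (sympl_iff β).2 h1, h2⟩

theorem invSympIn_iff (σ : Form (Pool.Agent.Helper224_torP.Md m V)
    (Pool.Agent.Helper224_torP.Cyl m P) 2) :
    Pool.Agent.Helper224_torP.InvSympIn σ ↔ InvSympIn' (V := V) (P := P) (m := m) σ := by
  constructor
  · rintro ⟨σ', h1, h2, h3⟩
    exact ⟨σ', ⟨h1.1, h1.2, h1.3⟩, h2, (cohT_iff σ σ').1 h3⟩
  · rintro ⟨σ', h1, h2, h3⟩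
    exact ⟨σ', ⟨h1.1, h1.2, h1.3⟩, h2, (cohT_iff σ σ').2 h3⟩

theorem tamedIn_iff (σ : Form (Pool.Agent.Helper224_torP.Md m V)
    (Pool.Agent.Helper224_torP.Cyl m P) 2) :
    Pool.Agent.Helper224_torP.TamedIn σ ↔ TamedIn' (V := V) (P := P) (m := m) σ := by
  constructor
  · rintro ⟨σ', A, h1, h2, h3, h4, h5, h6⟩
    exact ⟨σ', A, h1, h2, h3, (cohT_iff σ σ').1 h4, h5, h6⟩
  · rintro ⟨σ', A, h1, h2, h3, h4, h5, h6⟩
    exact ⟨σ', A, h1, h2, h3, (cohT_iff σ σ').2 h4, h5, h6⟩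

theorem pos_iff (σ : Form (Pool.Agent.Helper224_torP.Md m V)
    (Pool.Agent.Helper224_torP.Cyl m P) 2) :
    Pool.Agent.Helper224_torP.Pos σ ↔ Pos' (V := V) (P := P) (m := m) σ := by
  have key : ∀ (x : P) (v w : Cy m V) (t : Fin m → ℝ),
      Pool.Agent.Helper224_torP.ev σ
        (Pool.Agent.Helper224_torP.shift t (Pool.Agent.Helper224_torP.pt m x))
        (Pool.Agent.Helper224_torP.push (Pool.Agent.Helper224_torP.shift t)
          (Pool.Agent.Helper224_torP.pt m x) v)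
        (Pool.Agent.Helper224_torP.push (Pool.Agent.Helper224_torP.shift t)
          (Pool.Agent.Helper224_torP.pt m x) w) =
      val (V := V) (P := P) (m := m) σ t x ![v, w] := by
    intro x v w t
    have e1 := dshift_apply (V := V) t ((0, x) : Cyl m P) v
    have e2 := dshift_apply (V := V) t ((0, x) : Cyl m P) w
    have e3 : ∀ (s s' : Fin m → ℝ) (x₁ x' y y' : Cy m V), s = s' → x₁ = x' → y = y' →
        val (V := V) (P := P) (m := m) σ s x ![x₁, y] =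
        val (V := V) (P := P) (m := m) σ s' x ![x', y'] := by
      rintro s _ x₁ _ y _ rfl rfl rfl; rfl
    exact e3 _ _ _ _ _ _ (zero_add t) e1 e2
  constructor
  · intro h x v hv
    obtain ⟨w, hw⟩ := h x v hv
    refine ⟨w, fun t => ?_⟩
    rw [← key]
    exact hw t
  · intro h x v hv
    obtain ⟨w, hw⟩ := h x v hv
    refine ⟨w, fun t => ?_⟩
    have := hw t
    rw [← key] at this
    exact this

theorem posIn_iff (σ : Form (Pool.Agent.Helper224_torP.Md m V)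
    (Pool.Agent.Helper224_torP.Cyl m P) 2) :
    Pool.Agent.Helper224_torP.PosIn σ ↔ PosIn' (V := V) (P := P) (m := m) σ := by
  constructor
  · rintro ⟨σ', h1, h2, h3, h4, h5⟩
    exact ⟨σ', h1, h2, h3, (cohT_iff σ σ').1 h4, (pos_iff σ').1 h5⟩
  · rintro ⟨σ', h1, h2, h3, h4, h5⟩
    exact ⟨σ', h1, h2, h3, (cohT_iff σ σ').2 h4, (pos_iff σ').2 h5⟩

theorem nondegT_iff (σ : Form (Pool.Agent.Helper224_torP.Md m V)
    (Pool.Agent.Helper224_torP.Cyl m P) 2) :
    Pool.Agent.Helper224_torP.NondegT σ ↔ NondegT' (V := V) (P := P) (m := m) σ := Iff.rfl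

theorem isRed_iff (σ : Form (Pool.Agent.Helper224_torP.Md m V)
    (Pool.Agent.Helper224_torP.Cyl m P) 2) (ρ : Form V P 2) :
    Pool.Agent.Helper224_torP.IsRed σ ρ ↔ IsRed' (V := V) (P := P) (m := m) σ ρ := Iff.rfl

theorem mainCls [FiniteDimensional ℝ V] [IsManifold 𝓘(ℝ, V) ∞ P]
    (σ : Form (Pool.Agent.Helper224_torP.Md m V) (Pool.Agent.Helper224_torP.Cyl m P) 2)
    (hs : IsSmooth σ) (hc : IsClosedForm σ)
    (hi : ∀ s : Fin m → ℝ,
      Pool.Agent.Helper224_torP.InvForm (Pool.Agent.Helper224_torP.shift s) σ)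
    (hn : Pool.Agent.Helper224_torP.NondegT σ) :
    ∃ ρ : Form V P 2, IsSmooth ρ ∧ IsClosedForm ρ ∧ Pool.Agent.Helper224_torP.IsRed σ ρ ∧
      (∀ ρ' : Form V P 2, Pool.Agent.Helper224_torP.IsRed σ ρ' → ρ' = ρ) ∧
      List.TFAE [Pool.Agent.Helper224_torP.PosIn σ, Pool.Agent.Helper224_torP.TamedIn σ,
        Pool.Agent.Helper224_torP.InvSympIn σ, Pool.Agent.Helper224_torP.SympIn ρ] := by
  let σ₀ : FormC V P m := σ
  have hs' : IsSmooth σ₀ := hs
  have hc' : IsClosedForm σ₀ := hc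
  have hi' : ∀ s, InvForm s σ₀ := hi
  have hn' : NondegT' σ₀ := (nondegT_iff σ).1 hn
  have hdet := det_of_nondeg hn'
  have h1 := rf_sc hs' hc' hi'
  refine ⟨rf σ₀, h1.1, h1.2, (isRed_iff σ _).2 ((red_iff hdet _).2 rfl),
    fun ρ' h => (red_iff hdet _).1 ((isRed_iff σ _).1 h), ?_⟩
  rw [posIn_iff, tamedIn_iff, invSympIn_iff, sympIn_iff]
  exact tfaeCls hs' hc' hi' hdet

end Pool.Agent.Helper224_tor
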