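import Pool.Agent.Helper224_tor.Mean

/-!
Smoothness and closedness of a two-form can be checked in charts.
-/

set_option autoImplicit false

open Set MeasureTheory Filter Topology
open scoped Manifold ContDiff

noncomputable section

namespace Pool.Agent.Helper224_tor

open Pool.Agent.Y501.SYP

section

variable {E F : Type} [NormedAddCommGroup E] [NormedSpace ℝ E]
  [NormedAddCommGroup F] [NormedSpace ℝ F]

/-- the pull-back of a bilinear form -/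
def bpull (A : F →L[ℝ] F →L[ℝ] ℝ) (L : E →L[ℝ] F) : E →L[ℝ] E →L[ℝ] ℝ :=
  ((ContinuousLinearMap.compL ℝ E F ℝ).flip L).comp (A.comp L)

theorem comp_alt (η : F [⋀^Fin 2]→L[ℝ] ℝ) (L : E →L[ℝ] F) :
    η.compContinuousLinearMap L = (1 / 2 : ℝ) • alt2 E (bpull (bil F η) L) := by
  apply alt_ext
  intro a b
  rw [comp_two]
  change _ = (1 / 2 : ℝ) * alt2 E (bpull (bil F η) L) ![a, b]
  rw [alt2_apply]
  have e : ∀ c d : E, bpull (bil F η) L c d = η ![L c, L d] := by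
    intro c d
    rw [← bil_apply]; rfl
  rw [e, e, anti η (L b) (L a)]; ring

theorem pull_smooth {H : Type} [NormedAddCommGroup H] [NormedSpace ℝ H] {G : H → F [⋀^Fin 2]→L[ℝ] ℝ}
    {L : H → E →L[ℝ] F} {q : H} (hG : ContDiffAt ℝ ∞ G q) (hL : ContDiffAt ℝ ∞ L q) :
    ContDiffAt ℝ ∞ (fun q => (G q).compContinuousLinearMap (L q)) q := by
  simp_rw [comp_alt]
  have h1 : ContDiffAt ℝ ∞ (fun q => bil F (G q)) q := by fun_prop
  have h2 : ContDiffAt ℝ ∞ (fun q => bpull (bil F (G q)) (L q)) q := by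
    unfold bpull
    fun_prop
  have h3 : ContDiffAt ℝ ∞ (fun q => alt2 E (bpull (bil F (G q)) (L q))) q := by fun_prop
  exact h3.const_smul (1 / 2 : ℝ)

end

variable {W : Type} [NormedAddCommGroup W] [NormedSpace ℝ W]
  {X : Type} [TopologicalSpace X] [ChartedSpace W X]

/-- `τ` is smooth and closed if it is so in the charts. -/
theorem of_charts [IsManifold 𝓘(ℝ, W) ∞ X] (τ : Form W X 2)
    (h1 : ∀ x : X, ContDiffOn ℝ ∞ (pb (chartAt W x).symm τ) (chartAt W x).target)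
    (h2 : ∀ (x : X), ∀ p ∈ (chartAt W x).target, extDeriv (pb (chartAt W x).symm τ) p = 0) :
    IsSmooth τ ∧ IsClosedForm τ := by
  have key : ∀ (U : Set W) (Φ : W → X), SmoothParam U Φ → ∀ q ∈ U,
      ∃ κ : W → W, ContDiffAt ℝ ∞ κ q ∧ κ q ∈ (chartAt W (Φ q)).target ∧
        pb Φ τ =ᶠ[𝓝 q] fun y => (pb (chartAt W (Φ q)).symm τ (κ y)).compContinuousLinearMap
          (fderiv ℝ κ y) := by
    intro U Φ hΦ q hq
    set e := chartAt W (Φ q) with he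
    have hqs : Φ q ∈ e.source := mem_chart_source W (Φ q)
    have hUo : IsOpen (U ∩ Φ ⁻¹' e.source) := hΦ.2.continuousOn.isOpen_inter_preimage hΦ.1 e.open_source
    have hchart : ContMDiffOn 𝓘(ℝ, W) 𝓘(ℝ, W) ∞ e e.source := contMDiffOn_chart
    have hκ : ContMDiffOn 𝓘(ℝ, W) 𝓘(ℝ, W) ∞ (fun y => e (Φ y)) (U ∩ Φ ⁻¹' e.source) :=
      hchart.comp (hΦ.2.mono inter_subset_left) (fun y hy => hy.2)
    have hκ' : ContDiffOn ℝ ∞ (fun y => e (Φ y)) (U ∩ Φ ⁻¹' e.source) :=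
      contMDiffOn_iff_contDiffOn.1 hκ
    refine ⟨fun y => e (Φ y), hκ'.contDiffAt (hUo.mem_nhds ⟨hq, hqs⟩), e.map_source hqs, ?_⟩
    filter_upwards [hUo.mem_nhds ⟨hq, hqs⟩] with y hy
    have hd1 : MDifferentiableAt 𝓘(ℝ, W) 𝓘(ℝ, W) (fun y => e (Φ y)) y :=
      (hκ.contMDiffAt (hUo.mem_nhds hy)).mdifferentiableAt (by simp)
    have hd2 : MDifferentiableAt 𝓘(ℝ, W) 𝓘(ℝ, W) e.symm (e (Φ y)) :=
      ((contMDiffOn_chart_symm (I := 𝓘(ℝ, W)) (n := ∞) (x := Φ q)).contMDiffAt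
        (e.open_target.mem_nhds (e.map_source hy.2))).mdifferentiableAt (by simp)
    have heq : Φ =ᶠ[𝓝 y] fun z => e.symm (e (Φ z)) := by
      filter_upwards [hUo.mem_nhds hy] with z hz
      exact (e.left_inv hz.2).symm
    have hder : (mfderiv 𝓘(ℝ, W) 𝓘(ℝ, W) Φ y : W →L[ℝ] W) =
        (mfderiv 𝓘(ℝ, W) 𝓘(ℝ, W) e.symm (e (Φ y)) : W →L[ℝ] W).comp
          (fderiv ℝ (fun y => e (Φ y)) y) := by
      have h3 : mfderiv 𝓘(ℝ, W) 𝓘(ℝ, W) (e.symm ∘ fun y => e (Φ y)) y =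
        (mfderiv 𝓘(ℝ, W) 𝓘(ℝ, W) e.symm (e (Φ y))).comp
          (mfderiv 𝓘(ℝ, W) 𝓘(ℝ, W) (fun y => e (Φ y)) y) := mfderiv_comp y hd2 hd1
      have h4 := heq.mfderiv_eq (I := 𝓘(ℝ, W)) (I' := 𝓘(ℝ, W))
      rw [mfderiv_eq_fderiv] at h3
      exact h4.trans h3
    apply alt_ext
    intro a b
    rw [comp_two]
    have g1 : ∀ (x x' : X) (a a' b b' : W), x = x' → a = a' → b = b' →
        (τ x : W [⋀^Fin 2]→L[ℝ] ℝ) ![a, b] = (τ x' : W [⋀^Fin 2]→L[ℝ] ℝ) ![a', b'] := by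
      rintro x _ a _ b _ rfl rfl rfl; rfl
    have g2 : pb Φ τ y ![a, b] = (τ (Φ y) : W [⋀^Fin 2]→L[ℝ] ℝ)
        ![(mfderiv 𝓘(ℝ, W) 𝓘(ℝ, W) Φ y : W →L[ℝ] W) a,
          (mfderiv 𝓘(ℝ, W) 𝓘(ℝ, W) Φ y : W →L[ℝ] W) b] :=
      comp_two (E := W) (F := W) (τ (Φ y)) (mfderiv 𝓘(ℝ, W) 𝓘(ℝ, W) Φ y) a b
    have g3 : ∀ c d : W, pb e.symm τ (e (Φ y)) ![c, d] =
        (τ (e.symm (e (Φ y))) : W [⋀^Fin 2]→L[ℝ] ℝ)
        ![(mfderiv 𝓘(ℝ, W) 𝓘(ℝ, W) e.symm (e (Φ y)) : W →L[ℝ] W) c,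
          (mfderiv 𝓘(ℝ, W) 𝓘(ℝ, W) e.symm (e (Φ y)) : W →L[ℝ] W) d] := fun c d =>
      comp_two (E := W) (F := W) (τ (e.symm (e (Φ y)))) (mfderiv 𝓘(ℝ, W) 𝓘(ℝ, W) e.symm (e (Φ y))) c d
    rw [g2, g3]
    refine g1 _ _ _ _ _ _ (e.left_inv hy.2).symm ?_ ?_
    · rw [hder]; rfl
    · rw [hder]; rfl
  constructor
  · intro U Φ hΦ q hq
    obtain ⟨κ, hκ, hκt, hev⟩ := key U Φ hΦ q hq
    have h3 : ContDiffAt ℝ ∞ (fun y => pb (chartAt W (Φ q)).symm τ (κ y)) q :=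
      ((h1 (Φ q)).contDiffAt ((chartAt W (Φ q)).open_target.mem_nhds hκt)).comp q hκ
    have h4 : ContDiffAt ℝ ∞ (fderiv ℝ κ) q := hκ.fderiv_right (by simp)
    exact ((pull_smooth h3 h4).congr_of_eventuallyEq hev).contDiffWithinAt
  · intro U Φ hΦ q hq
    obtain ⟨κ, hκ, hκt, hev⟩ := key U Φ hΦ q hq
    rw [hev.extDeriv_eq]
    have h3 : DifferentiableAt ℝ (pb (chartAt W (Φ q)).symm τ) (κ q) :=
      ((h1 (Φ q)).contDiffAt ((chartAt W (Φ q)).open_target.mem_nhds hκt)).differentiableAt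
        (by simp)
    have h5 : minSmoothness ℝ 2 ≤ (∞ : WithTop ℕ∞) := by
      simp only [minSmoothness_of_isRCLikeNormedField]
      exact WithTop.coe_le_coe.2 (le_top (a := (2 : ℕ∞)))
    rw [extDeriv_pullback h3 hκ h5, h2 (Φ q) _ hκt]
    ext v
    rfl

end Pool.Agent.Helper224_tor
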