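import Pool.Agent.Helper224_tor.Bridge
import Pool.Agent.Y604.SY.Pull

/-!
Forms of any degree: smoothness and exterior derivatives can be checked in charts.
-/

set_option autoImplicit false

open Set MeasureTheory Filter Topology
open scoped Manifold ContDiff

noncomputable section

namespace Pool.Agent.Helper224_tor

open Pool.Agent.Y501.SYP

section

variable {W : Type} [NormedAddCommGroup W] [NormedSpace ℝ W]
  {X : Type} [TopologicalSpace X] [ChartedSpace W X]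

theorem pb_apply {k : ℕ} (Φ : W → X) (τ : Form W X k) (y : W) (v : Fin k → W) :
    pb Φ τ y v = (τ (Φ y) : W [⋀^Fin k]→L[ℝ] ℝ)
      (fun i => (mfderiv 𝓘(ℝ, W) 𝓘(ℝ, W) Φ y : W →L[ℝ] W) (v i)) := rfl

theorem exists_coord [IsManifold 𝓘(ℝ, W) ∞ X] {U : Set W} {Φ : W → X} (hΦ : SmoothParam U Φ)
    {q : W} (hq : q ∈ U) : ∃ κ : W → W, ContDiffAt ℝ ∞ κ q ∧ κ q ∈ (chartAt W (Φ q)).target ∧
      ∀ (k : ℕ) (τ : Form W X k), pb Φ τ =ᶠ[𝓝 q] fun y =>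
        (pb (chartAt W (Φ q)).symm τ (κ y)).compContinuousLinearMap (fderiv ℝ κ y) := by
  set e := chartAt W (Φ q) with he
  have hqs : Φ q ∈ e.source := mem_chart_source W (Φ q)
  have hUo : IsOpen (U ∩ Φ ⁻¹' e.source) :=
    hΦ.2.continuousOn.isOpen_inter_preimage hΦ.1 e.open_source
  have hchart : ContMDiffOn 𝓘(ℝ, W) 𝓘(ℝ, W) ∞ e e.source := contMDiffOn_chart
  have hκ : ContMDiffOn 𝓘(ℝ, W) 𝓘(ℝ, W) ∞ (fun y => e (Φ y)) (U ∩ Φ ⁻¹' e.source) :=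
    hchart.comp (hΦ.2.mono inter_subset_left) (fun y hy => hy.2)
  have hκ' : ContDiffOn ℝ ∞ (fun y => e (Φ y)) (U ∩ Φ ⁻¹' e.source) :=
    contMDiffOn_iff_contDiffOn.1 hκ
  refine ⟨fun y => e (Φ y), hκ'.contDiffAt (hUo.mem_nhds ⟨hq, hqs⟩), e.map_source hqs, ?_⟩
  intro k τ
  filter_upwards [hUo.mem_nhds ⟨hq, hqs⟩] with y hy
  have hd1 : MDifferentiableAt 𝓘(ℝ, W) 𝓘(ℝ, W) (fun y => e (Φ y)) y :=
    (hκ.contMDiffAt (hUo.mem_nhds hy)).mdifferentiableAt (by simp)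
  have hd2 : MDifferentiableAt 𝓘(ℝ, W) 𝓘(ℝ, W) e.symm (e (Φ y)) :=
    ((contMDiffOn_chart_symm (I := 𝓘(ℝ, W)) (n := ∞) (x := Φ q)).contMDiffAt
      (e.open_target.mem_nhds (e.map_source hy.2))).mdifferentiableAt (by simp)
  have heq : Φ =ᶠ[𝓝 y] fun z => e.symm (e (Φ z)) := by
    filter_upwards [hUo.mem_nhds hy] with z hz
    exact (e.left_inv hz.2).symm
  have hder : (mfderiv 𝓘(ℝ, W) 𝓘(ℝ, W) Φ y : W →L[ℝ] W) =
      (mfderiv 𝓘(ℝ, W) 𝓘(ℝ, W) e.symm (e (Φ y)) : W →L[ℝ] W).comp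
        (fderiv ℝ (fun y => e (Φ y)) y) := by
    have h3 : mfderiv 𝓘(ℝ, W) 𝓘(ℝ, W) (e.symm ∘ fun y => e (Φ y)) y =
      (mfderiv 𝓘(ℝ, W) 𝓘(ℝ, W) e.symm (e (Φ y))).comp
        (mfderiv 𝓘(ℝ, W) 𝓘(ℝ, W) (fun y => e (Φ y)) y) := mfderiv_comp y hd2 hd1
    have h4 := heq.mfderiv_eq (I := 𝓘(ℝ, W)) (I' := 𝓘(ℝ, W))
    rw [mfderiv_eq_fderiv] at h3
    exact h4.trans h3
  ext v
  have g1 : ∀ (x x' : X) (a a' : Fin k → W), x = x' → a = a' →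
      (τ x : W [⋀^Fin k]→L[ℝ] ℝ) a = (τ x' : W [⋀^Fin k]→L[ℝ] ℝ) a' := by
    rintro x _ a _ rfl rfl; rfl
  change (τ (Φ y) : W [⋀^Fin k]→L[ℝ] ℝ)
      (fun i => (mfderiv 𝓘(ℝ, W) 𝓘(ℝ, W) Φ y : W →L[ℝ] W) (v i)) =
    (τ (e.symm (e (Φ y))) : W [⋀^Fin k]→L[ℝ] ℝ)
      (fun i => (mfderiv 𝓘(ℝ, W) 𝓘(ℝ, W) e.symm (e (Φ y)) : W →L[ℝ] W)
        (fderiv ℝ (fun y => e (Φ y)) y (v i)))
  refine g1 _ _ _ _ (e.left_inv hy.2).symm ?_
  funext i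
  rw [hder]; rfl

theorem two_le_inf : minSmoothness ℝ 2 ≤ (∞ : WithTop ℕ∞) := by
  simp only [minSmoothness_of_isRCLikeNormedField]
  exact WithTop.coe_le_coe.2 (le_top (a := (2 : ℕ∞)))

theorem pull_smoothK {E F H : Type} [NormedAddCommGroup E] [NormedSpace ℝ E]
    [NormedAddCommGroup F] [NormedSpace ℝ F] [NormedAddCommGroup H] [NormedSpace ℝ H] {k : ℕ}
    {G : H → F [⋀^Fin k]→L[ℝ] ℝ} {L : H → E →L[ℝ] F} {q : H} (hG : ContDiffAt ℝ ∞ G q)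
    (hL : ContDiffAt ℝ ∞ L q) :
    ContDiffAt ℝ ∞ (fun q => (G q).compContinuousLinearMap (L q)) q :=
  (Pool.Agent.Y604.SY.contDiff_pull (ι := Fin k) (V := E) (V' := F)).contDiffAt.comp q
    (hG.prodMk hL)

theorem of_chartsD [IsManifold 𝓘(ℝ, W) ∞ X] {k : ℕ} (γ : Form W X k) (η : Form W X (k + 1))
    (h1 : ∀ x : X, ContDiffOn ℝ ∞ (pb (chartAt W x).symm γ) (chartAt W x).target)
    (h2 : ∀ x : X, ContDiffOn ℝ ∞ (pb (chartAt W x).symm η) (chartAt W x).target)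
    (h3 : ∀ (x : X), ∀ p ∈ (chartAt W x).target,
      extDeriv (pb (chartAt W x).symm γ) p = pb (chartAt W x).symm η p) :
    IsSmooth γ ∧ IsSmooth η ∧ IsD γ η := by
  have sm : ∀ {l : ℕ} (τ : Form W X l),
      (∀ x : X, ContDiffOn ℝ ∞ (pb (chartAt W x).symm τ) (chartAt W x).target) → IsSmooth τ := by
    intro l τ hτ U Φ hΦ q hq
    obtain ⟨κ, hκ, hκt, hev⟩ := exists_coord hΦ hq
    have h3 : ContDiffAt ℝ ∞ (fun y => pb (chartAt W (Φ q)).symm τ (κ y)) q :=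
      ((hτ (Φ q)).contDiffAt ((chartAt W (Φ q)).open_target.mem_nhds hκt)).comp q hκ
    have h4 : ContDiffAt ℝ ∞ (fderiv ℝ κ) q := hκ.fderiv_right (by simp)
    exact ((pull_smoothK h3 h4).congr_of_eventuallyEq (hev l τ)).contDiffWithinAt
  refine ⟨sm γ h1, sm η h2, ?_⟩
  intro U Φ hΦ q hq
  obtain ⟨κ, hκ, hκt, hev⟩ := exists_coord hΦ hq
  rw [(hev k γ).extDeriv_eq]
  have h5 : DifferentiableAt ℝ (pb (chartAt W (Φ q)).symm γ) (κ q) :=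
    ((h1 (Φ q)).contDiffAt ((chartAt W (Φ q)).open_target.mem_nhds hκt)).differentiableAt
      (by simp)
  rw [extDeriv_pullback h5 hκ two_le_inf, h3 (Φ q) _ hκt]
  exact ((hev (k + 1) η).eq_of_nhds).symm

theorem closed_of_D {k : ℕ} {γ : Form W X k} {η : Form W X (k + 1)} (h1 : IsSmooth γ)
    (h2 : IsD γ η) : IsClosedForm η := by
  intro U Φ hΦ q hq
  have hev : pb Φ η =ᶠ[𝓝 q] extDeriv (pb Φ γ) := by
    filter_upwards [hΦ.1.mem_nhds hq] with y hy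
    exact (h2 U Φ hΦ y hy).symm
  rw [hev.extDeriv_eq]
  exact extDeriv_extDeriv_apply ((h1 U Φ hΦ).contDiffAt (hΦ.1.mem_nhds hq)) two_le_inf

end

end Pool.Agent.Helper224_tor
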