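import Pool.Agent.Helper224_tor.ClsFwd

/-!
Class version: from `P` to `T^m × P`.
-/

set_option autoImplicit false

open Set MeasureTheory Filter Topology
open scoped Manifold ContDiff

noncomputable section

namespace Pool.Agent.Helper224_tor

open Pool.Agent.Y501.SYP

variable {m : ℕ} {V : Type} [NormedAddCommGroup V] [NormedSpace ℝ V]
  {P : Type} [TopologicalSpace P] [ChartedSpace V P]

/-- the pull-back by the projection to `P` -/
def pj {k : ℕ} (δ : Form V P k) : FormK V P m k := fun q =>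
  ((δ q.2 : V [⋀^Fin k]→L[ℝ] ℝ).compContinuousLinearMap
    (ContinuousLinearMap.snd ℝ (Fin m → ℝ) V) : (Cy m V) [⋀^Fin k]→L[ℝ] ℝ)

theorem pj_inv {k : ℕ} (δ : Form V P k) (s : Fin m → ℝ) : InvK s (pj (m := m) δ) := by
  intro q v
  have e3 : ∀ (a a' : Fin k → Cy m V), a = a' →
      ((δ q.2 : V [⋀^Fin k]→L[ℝ] ℝ).compContinuousLinearMap
        (ContinuousLinearMap.snd ℝ (Fin m → ℝ) V)) a =
      ((δ q.2 : V [⋀^Fin k]→L[ℝ] ℝ).compContinuousLinearMap
        (ContinuousLinearMap.snd ℝ (Fin m → ℝ) V)) a' := by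
    rintro a _ rfl; rfl
  refine e3 _ _ ?_
  funext i
  exact dshift_apply (V := V) s q (v i)

theorem cok_pj {k : ℕ} {U : Set V} {φ : V → P} (hφ : SmoothParam U φ) (δ : Form V P k) {p : V}
    (hp : p ∈ U) (t : Fin m → ℝ) :
    cok φ (pj (m := m) δ) (t, p) = (pb φ δ (ContinuousLinearMap.snd ℝ (Fin m → ℝ) V (t, p))).compContinuousLinearMap
      (ContinuousLinearMap.snd ℝ (Fin m → ℝ) V) := by
  rw [cok_eq hφ _ hp]
  rfl

theorem pj_D [IsManifold 𝓘(ℝ, V) ∞ P] {k : ℕ} {δ : Form V P k} {θ : Form V P (k + 1)}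
    (h1 : IsSmooth δ) (h2 : IsSmooth θ) (h3 : IsD δ θ) :
    IsSmooth (pj (m := m) δ) ∧ IsSmooth (pj (m := m) θ) ∧ IsD (pj (m := m) δ) (pj (m := m) θ) := by
  have ev : ∀ {l : ℕ} (q : Cyl m P) (τ : Form V P l), ∀ z ∈ (chartAt ((Fin m → ℝ) × V) q).target,
      pb (chartAt ((Fin m → ℝ) × V) q).symm (pj (m := m) τ) =ᶠ[𝓝 z] fun y =>
        (pb (chartAt V q.2).symm τ (ContinuousLinearMap.snd ℝ (Fin m → ℝ) V y)).compContinuousLinearMap
          (ContinuousLinearMap.snd ℝ (Fin m → ℝ) V) := by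
    intro l q τ z hz
    have hz2 : z.2 ∈ (chartAt V q.2).target := by
      have : z ∈ (univ : Set (Fin m → ℝ)) ×ˢ (chartAt V q.2).target := hz
      exact this.2
    have : (univ : Set (Fin m → ℝ)) ×ˢ (chartAt V q.2).target ∈ 𝓝 z :=
      (isOpen_univ.prod (chartAt V q.2).open_target).mem_nhds ⟨mem_univ _, hz2⟩
    filter_upwards [this] with y hy
    exact cok_pj (chart_param (V := V) q.2) τ hy.2 y.1
  have sm : ∀ {l : ℕ} (τ : Form V P l), IsSmooth τ → ∀ q : Cyl m P,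
      ContDiffOn ℝ ∞ (pb (chartAt ((Fin m → ℝ) × V) q).symm (pj (m := m) τ))
        (chartAt ((Fin m → ℝ) × V) q).target := by
    intro l τ hτ q z hz
    have hz2 : z.2 ∈ (chartAt V q.2).target := by
      have : z ∈ (univ : Set (Fin m → ℝ)) ×ˢ (chartAt V q.2).target := hz
      exact this.2
    have hφ := chart_param (V := V) q.2
    have h4 : ContDiffAt ℝ ∞ (pb (chartAt V q.2).symm τ)
        (ContinuousLinearMap.snd ℝ (Fin m → ℝ) V z) :=
      (hτ _ _ hφ).contDiffAt (hφ.1.mem_nhds hz2)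
    have h5 : ContDiffAt ℝ ∞ (fun y : Cy m V => pb (chartAt V q.2).symm τ
        (ContinuousLinearMap.snd ℝ (Fin m → ℝ) V y)) z :=
      h4.comp z (ContinuousLinearMap.snd ℝ (Fin m → ℝ) V).contDiff.contDiffAt
    exact ((pull_smoothK h5 contDiffAt_const).congr_of_eventuallyEq (ev q τ z hz)).contDiffWithinAt
  refine of_chartsD _ _ (sm δ h1) (sm θ h2) ?_
  intro q z hz
  have hz2 : z.2 ∈ (chartAt V q.2).target := by
    have : z ∈ (univ : Set (Fin m → ℝ)) ×ˢ (chartAt V q.2).target := hz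
    exact this.2
  have hφ := chart_param (V := V) q.2
  rw [(ev q δ z hz).extDeriv_eq, (ev q θ z hz).eq_of_nhds]
  have h4 : DifferentiableAt ℝ (pb (chartAt V q.2).symm δ)
      (ContinuousLinearMap.snd ℝ (Fin m → ℝ) V z) :=
    ((h1 _ _ hφ).contDiffAt (hφ.1.mem_nhds hz2)).differentiableAt (by simp)
  have h5 := extDeriv_pullback (x := z) h4
    (ContinuousLinearMap.snd ℝ (Fin m → ℝ) V).contDiff.contDiffAt two_le_inf
  simp only [ContinuousLinearMap.fderiv] at h5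
  rw [h5]
  have h6 := h3 _ _ hφ z.2 hz2
  have h7 : extDeriv (pb (chartAt V q.2).symm δ) (ContinuousLinearMap.snd ℝ (Fin m → ℝ) V z) =
    pb (chartAt V q.2).symm θ (ContinuousLinearMap.snd ℝ (Fin m → ℝ) V z) := h6
  rw [h7]

theorem invK_two {σ : FormC V P m} {s : Fin m → ℝ} : InvK s σ ↔ InvForm s σ := by
  have key : ∀ (q : Cyl m P) (v : Fin 2 → Cy m V),
      (σ (shift s q) : (Cy m V) [⋀^Fin 2]→L[ℝ] ℝ) (fun i => dshift V s q (v i)) =
      (σ (shift s q) : (Cy m V) [⋀^Fin 2]→L[ℝ] ℝ) ![dshift V s q (v 0), dshift V s q (v 1)] := by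
    intro q v
    congr 1
    funext i
    fin_cases i <;> rfl
  have key2 : ∀ (q : Cyl m P) (v : Fin 2 → Cy m V),
      (σ q : (Cy m V) [⋀^Fin 2]→L[ℝ] ℝ) v = (σ q : (Cy m V) [⋀^Fin 2]→L[ℝ] ℝ) ![v 0, v 1] := by
    intro q v
    congr 1
    funext i
    fin_cases i <;> rfl
  constructor
  · intro h q v w
    have h1 := h q ![v, w]
    exact (key q ![v, w]).symm.trans h1
  · intro h q v
    have h1 := h q (v 0) (v 1)
    exact (key q v).trans (h1.trans (key2 q v).symm)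

theorem add_inv {σ η : FormC V P m} {s : Fin m → ℝ} (h1 : InvForm s σ) (h2 : InvForm s η) :
    InvForm s (addF σ η) := by
  intro q v w
  have a1 := h1 q v w
  have a2 := h2 q v w
  change σ (shift s q) ![dshift V s q v, dshift V s q w] +
    η (shift s q) ![dshift V s q v, dshift V s q w] = σ q ![v, w] + η q ![v, w]
  rw [a1, a2]

/-- from `P` to `T^m × P` -/
theorem bwdCls [FiniteDimensional ℝ V] [IsManifold 𝓘(ℝ, V) ∞ P] {σ : FormC V P m} (hs : IsSmooth σ) (hc : IsClosedForm σ)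
    (hinv : ∀ s, InvForm s σ) (hdet : ∀ x, IsUnit (fm (val σ 0 x)).det)
    {δ : Form V P 1} {θ : Form V P 2} (h1 : IsSmooth δ) (h2 : IsSmooth θ) (h3 : IsD δ θ)
    (h4 : IsSymplectic (addF (rf σ) θ)) :
    ∃ (γ : FormK V P m 1) (η : FormC V P m), IsSmooth γ ∧ IsSmooth η ∧ IsD γ η ∧
      (∀ s, InvK s γ) ∧ IsSymplectic (addF σ η) ∧ ∀ s, InvForm s (addF σ η) := by
  obtain ⟨g1, g2, g3⟩ := pj_D (m := m) h1 h2 h3
  have g4 : ∀ s, InvForm s (pj (m := m) θ) := fun s => invK_two.1 (pj_inv θ s)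
  have g5 : ∀ s, InvForm s (addF σ (pj (m := m) θ)) := fun s => add_inv (hinv s) (g4 s)
  refine ⟨pj δ, pj θ, g1, g2, g3, pj_inv δ, ⟨smooth_add hs g2,
    closed_add hs g2 hc (closed_of_D g1 g3), ?_⟩, g5⟩
  rintro ⟨t, x⟩
  let th : V [⋀^Fin 2]→L[ℝ] ℝ := θ x
  have e : val (addF σ (pj (m := m) θ)) t x = val σ 0 x +
      th.compContinuousLinearMap (ContinuousLinearMap.snd ℝ (Fin m → ℝ) V) := by
    rw [← val_inv hinv t x]; rfl
  have hN : ND (val (addF σ (pj (m := m) θ)) t x) := by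
    rw [e]
    apply ND_of_schur
    · rw [fm_add_snd]; exact hdet x
    · rw [fm_add_snd, schur_add_snd (hsk' σ x)]
      exact h4.nondeg x
  exact hN

end Pool.Agent.Helper224_tor
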