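import Pool.Agent.Helper224_tor.ClsLin

/-!
Class version: from `T^m × P` to `P`.
-/

set_option autoImplicit false

open Set MeasureTheory Filter Topology
open scoped Manifold ContDiff

noncomputable section

namespace Pool.Agent.Helper224_tor

open Pool.Agent.Y501.SYP

section sum

variable {W : Type} [NormedAddCommGroup W] [NormedSpace ℝ W]
  {X : Type} [TopologicalSpace X] [ChartedSpace W X]

theorem pb_add (Φ : W → X) (σ η : Form W X 2) (y : W) :
    pb Φ (addF σ η) y = pb Φ σ y + pb Φ η y := rfl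

theorem smooth_add {σ η : Form W X 2} (h1 : IsSmooth σ) (h2 : IsSmooth η) :
    IsSmooth (addF σ η) := fun U Φ hΦ => (h1 U Φ hΦ).add (h2 U Φ hΦ)

theorem closed_add {σ η : Form W X 2} (s1 : IsSmooth σ) (s2 : IsSmooth η)
    (h1 : IsClosedForm σ) (h2 : IsClosedForm η) : IsClosedForm (addF σ η) := by
  intro U Φ hΦ p hp
  have d1 : DifferentiableAt ℝ (pb Φ σ) p :=
    ((s1 U Φ hΦ).contDiffAt (hΦ.1.mem_nhds hp)).differentiableAt (by simp)
  have d2 : DifferentiableAt ℝ (pb Φ η) p :=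
    ((s2 U Φ hΦ).contDiffAt (hΦ.1.mem_nhds hp)).differentiableAt (by simp)
  have e : pb Φ (addF σ η) = fun y => pb Φ σ y + pb Φ η y := rfl
  rw [e, extDeriv_fun_add d1 d2, h1 U Φ hΦ p hp, h2 U Φ hΦ p hp, add_zero]

end sum

variable {m : ℕ} {V : Type} [NormedAddCommGroup V] [NormedSpace ℝ V] [FiniteDimensional ℝ V]
  {P : Type} [TopologicalSpace P] [ChartedSpace V P]

omit [FiniteDimensional ℝ V] in
theorem mean_inv {σ : FormC V P m} (h : ∀ s, InvForm s σ) (x : P) : mean σ x = val σ 0 x := by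
  unfold mean
  simp only [val_inv h]
  rw [setIntegral_const]
  have : (volume : Measure (Fin m → ℝ)).real (Icc 0 1) = 1 := by
    rw [Measure.real, Real.volume_Icc_pi]
    simp
  rw [this, one_smul]

/-- the reduced form -/
def rf (σ : FormC V P m) : Form V P 2 :=
  fun x => (schur (V := V) (fm (val σ 0 x))⁻¹ (val σ 0 x) : V [⋀^Fin 2]→L[ℝ] ℝ)

/-- the Schur complement of the mean of `σ + η` -/
def rfm (σ η : FormC V P m) : Form V P 2 :=
  fun x => (schur (V := V) (fm (val σ 0 x))⁻¹ (val σ 0 x + mean η x) : V [⋀^Fin 2]→L[ℝ] ℝ)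

/-- the difference -/
def dth (σ η : FormC V P m) : Form V P 2 :=
  fun x => (schur (V := V) (fm (val σ 0 x))⁻¹ (val σ 0 x + mean η x) -
    schur (V := V) (fm (val σ 0 x))⁻¹ (val σ 0 x) : V [⋀^Fin 2]→L[ℝ] ℝ)

/-- its primitive -/
def ddl (σ : FormC V P m) (γ : FormK V P m 1) (η : FormC V P m) : Form V P 1 :=
  fun x => (eps (V := V) (fm (val σ 0 x))⁻¹ (meank γ x) (val σ 0 x) (mean η x) :
    V [⋀^Fin 1]→L[ℝ] ℝ)

theorem fm_const' [IsManifold 𝓘(ℝ, V) ∞ P] {σ : FormC V P m} (hs : IsSmooth σ)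
    (hc : IsClosedForm σ) (hinv : ∀ s, InvForm s σ) {U : Set V} {φ : V → P}
    (hφ : SmoothParam U φ) {p : V} (hp : p ∈ U) :
    ∀ᶠ y in 𝓝 p, y ∈ U ∧ fm (val σ 0 (φ y)) = fm (val σ 0 (φ p)) := by
  have := fm_const hs hc (fun i => hinv _) hφ hp
  simpa only [mean_inv hinv] using this

theorem avg_co' [IsManifold 𝓘(ℝ, V) ∞ P] {σ : FormC V P m} (hs : IsSmooth σ)
    (hinv : ∀ s, InvForm s σ) {U : Set V} {φ : V → P}
    (hφ : SmoothParam U φ) {p : V} (hp : p ∈ U) :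
    avg (co φ σ) p = (val σ 0 (φ p)).compContinuousLinearMap (pd m φ p) := by
  rw [avg_co hφ hs hp, mean_inv hinv]

omit [FiniteDimensional ℝ V] in
theorem comp_addL {E F : Type} [NormedAddCommGroup E] [NormedSpace ℝ E] [NormedAddCommGroup F]
    [NormedSpace ℝ F] (η θ : F [⋀^Fin 2]→L[ℝ] ℝ) (L : E →L[ℝ] F) :
    (η + θ).compContinuousLinearMap L = η.compContinuousLinearMap L +
      θ.compContinuousLinearMap L := rfl

theorem hsk' (σ : FormC V P m) (x : P) (i j : Fin m) :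
    (fm (val σ 0 x))⁻¹ j i = - (fm (val σ 0 x))⁻¹ i j := inv_skew (fm_skew _) i j

section

variable [IsManifold 𝓘(ℝ, V) ∞ P] {σ η : FormC V P m} {γ : FormK V P m 1}

theorem ev_rf (hs : IsSmooth σ) (hc : IsClosedForm σ) (hinv : ∀ s, InvForm s σ)
    {U : Set V} {φ : V → P} (hφ : SmoothParam U φ) {p : V} (hp : p ∈ U) :
    pb φ (rf σ) =ᶠ[𝓝 p] fun y => schur (fm (val σ 0 (φ p)))⁻¹ (avg (co φ σ) y) := by
  filter_upwards [fm_const' hs hc hinv hφ hp] with y hy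
  rw [avg_co' hs hinv hφ hy.1, schur_comp (hsk' σ (φ p)), ← hy.2]
  rfl

theorem ev_rfm (hs : IsSmooth σ) (hc : IsClosedForm σ) (hinv : ∀ s, InvForm s σ)
    (hη : IsSmooth η)
    {U : Set V} {φ : V → P} (hφ : SmoothParam U φ) {p : V} (hp : p ∈ U) :
    pb φ (rfm σ η) =ᶠ[𝓝 p] fun y => schur (fm (val σ 0 (φ p)))⁻¹
      (avg (co φ σ) y + avg (co φ η) y) := by
  filter_upwards [fm_const' hs hc hinv hφ hp] with y hy
  rw [avg_co' hs hinv hφ hy.1, avg_co hφ hη hy.1, ← comp_addL, schur_comp (hsk' σ (φ p)), ← hy.2]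
  rfl

theorem ev_dth (hs : IsSmooth σ) (hc : IsClosedForm σ) (hinv : ∀ s, InvForm s σ)
    (hη : IsSmooth η)
    {U : Set V} {φ : V → P} (hφ : SmoothParam U φ) {p : V} (hp : p ∈ U) :
    pb φ (dth σ η) =ᶠ[𝓝 p] fun y => schur (fm (val σ 0 (φ p)))⁻¹
      (avg (co φ σ) y + avg (co φ η) y) - schur (fm (val σ 0 (φ p)))⁻¹ (avg (co φ σ) y) := by
  filter_upwards [ev_rf hs hc hinv hφ hp, ev_rfm hs hc hinv hη hφ hp] with y h1 h2
  rw [← h1, ← h2]
  rfl

theorem ev_ddl (hs : IsSmooth σ) (hc : IsClosedForm σ) (hinv : ∀ s, InvForm s σ)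
    (hγ : IsSmooth γ) (hη : IsSmooth η)
    {U : Set V} {φ : V → P} (hφ : SmoothParam U φ) {p : V} (hp : p ∈ U) :
    pb φ (ddl σ γ η) =ᶠ[𝓝 p] fun y => eps (fm (val σ 0 (φ p)))⁻¹ (avg (cok φ γ) y)
      (avg (co φ σ) y) (avg (co φ η) y) := by
  filter_upwards [fm_const' hs hc hinv hφ hp] with y hy
  rw [avg_co' hs hinv hφ hy.1, avg_co hφ hη hy.1, avg_cok hφ hγ hy.1, ← hy.2]
  have := eps_compL (fm (val σ 0 (φ y)))⁻¹ (meank γ (φ y)) (val σ 0 (φ y)) (mean η (φ y))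
    (dm φ y)
  exact this.symm

theorem sm_avg (hs : IsSmooth σ) {U : Set V} {φ : V → P} (hφ : SmoothParam U φ) {p : V}
    (hp : p ∈ U) : ContDiffAt ℝ ∞ (avg (co φ σ)) p :=
  (avg_smooth hφ.1 (co_smooth hφ hs)).contDiffAt (hφ.1.mem_nhds hp)

theorem sm_avgk (hγ : IsSmooth γ) {U : Set V} {φ : V → P} (hφ : SmoothParam U φ) {p : V}
    (hp : p ∈ U) : ContDiffAt ℝ ∞ (avg (cok φ γ)) p :=
  (avg_smooth hφ.1 (cok_smooth hφ hγ)).contDiffAt (hφ.1.mem_nhds hp)

theorem rel_avg (hs : IsSmooth σ) (hc : IsClosedForm σ) (hper : Periodic σ)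
    {U : Set V} {φ : V → P} (hφ : SmoothParam U φ) {p : V}
    (hp : p ∈ U) : Rel (avg (par (co φ σ)) p) :=
  avg_rel hφ.1 (co_smooth hφ hs) hp (fun i t => co_per hφ hper hp i t)
    (fun t => co_closed hφ hc hp t)

theorem rel_add {D D' : V →L[ℝ] ((Cy m V) [⋀^Fin 2]→L[ℝ] ℝ)} (h : Rel D) (h' : Rel D') :
    Rel (D + D') := by
  intro a b c
  have h1 := h a b c
  have h2 := h' a b c
  change ((D a.2) ![b, c] + (D' a.2) ![b, c]) - ((D b.2) ![a, c] + (D' b.2) ![a, c]) +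
    ((D c.2) ![a, b] + (D' c.2) ![a, b]) = 0
  linarith

theorem rf_sc (hs : IsSmooth σ) (hc : IsClosedForm σ) (hinv : ∀ s, InvForm s σ) :
    IsSmooth (rf σ) ∧ IsClosedForm (rf σ) := by
  constructor
  · intro U φ hφ p hp
    have h1 := (schur_smooth (V := V) (fm (val σ 0 (φ p)))⁻¹).contDiffAt.comp p
      (sm_avg hs hφ hp)
    exact (h1.congr_of_eventuallyEq (ev_rf hs hc hinv hφ hp)).contDiffWithinAt
  · intro U φ hφ p hp
    rw [(ev_rf hs hc hinv hφ hp).extDeriv_eq]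
    exact schur_closed (hsk' σ (φ p)) (avg_hasFDerivAt hφ.1 (co_smooth hφ hs) hp)
      (rel_avg hs hc (fun i => hinv _) hφ hp)

theorem rfm_sc (hs : IsSmooth σ) (hc : IsClosedForm σ) (hinv : ∀ s, InvForm s σ)
    (hη : IsSmooth η) (hηc : IsClosedForm η) (hper : Periodic η) :
    IsSmooth (rfm σ η) ∧ IsClosedForm (rfm σ η) := by
  constructor
  · intro U φ hφ p hp
    have h1 := (schur_smooth (V := V) (fm (val σ 0 (φ p)))⁻¹).contDiffAt.comp p
      ((sm_avg hs hφ hp).add (sm_avg hη hφ hp))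
    exact (h1.congr_of_eventuallyEq (ev_rfm hs hc hinv hη hφ hp)).contDiffWithinAt
  · intro U φ hφ p hp
    rw [(ev_rfm hs hc hinv hη hφ hp).extDeriv_eq]
    exact schur_closed (hsk' σ (φ p)) ((avg_hasFDerivAt hφ.1 (co_smooth hφ hs) hp).add
      (avg_hasFDerivAt hφ.1 (co_smooth hφ hη) hp))
      (rel_add (rel_avg hs hc (fun i => hinv _) hφ hp) (rel_avg hη hηc hper hφ hp))

theorem dth_sm (hs : IsSmooth σ) (hc : IsClosedForm σ) (hinv : ∀ s, InvForm s σ)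
    (hη : IsSmooth η) : IsSmooth (dth σ η) := by
  intro U φ hφ p hp
  have h1 := (schur_smooth (V := V) (fm (val σ 0 (φ p)))⁻¹).contDiffAt.comp p
    ((sm_avg hs hφ hp).add (sm_avg hη hφ hp))
  have h2 := (schur_smooth (V := V) (fm (val σ 0 (φ p)))⁻¹).contDiffAt.comp p
    (sm_avg hs hφ hp)
  exact ((h1.sub h2).congr_of_eventuallyEq (ev_dth hs hc hinv hη hφ hp)).contDiffWithinAt

theorem ddl_sm (hs : IsSmooth σ) (hc : IsClosedForm σ) (hinv : ∀ s, InvForm s σ)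
    (hγ : IsSmooth γ) (hη : IsSmooth η) : IsSmooth (ddl σ γ η) := by
  intro U φ hφ p hp
  have h1 := eps_smooth (fm (val σ 0 (φ p)))⁻¹ (sm_avgk hγ hφ hp) (sm_avg hs hφ hp)
    (sm_avg hη hφ hp)
  exact (h1.congr_of_eventuallyEq (ev_ddl hs hc hinv hγ hη hφ hp)).contDiffWithinAt

theorem ddl_D (hs : IsSmooth σ) (hc : IsClosedForm σ) (hinv : ∀ s, InvForm s σ)
    (hγ : IsSmooth γ) (hη : IsSmooth η) (hD : IsD γ η)
    (hper : ∀ i : Fin m, InvK (Pi.single i 1) γ) (hperη : Periodic η) :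
    IsD (ddl σ γ η) (dth σ η) := by
  intro U φ hφ p hp
  rw [(ev_ddl hs hc hinv hγ hη hφ hp).extDeriv_eq, (ev_dth hs hc hinv hη hφ hp).eq_of_nhds]
  have hηc : IsClosedForm η := closed_of_D hγ hD
  refine eps_D (hsk' σ (φ p)) (avg_hasFDerivAt hφ.1 (cok_smooth hφ hγ) hp)
    (avg_hasFDerivAt hφ.1 (co_smooth hφ hs) hp) (avg_hasFDerivAt hφ.1 (co_smooth hφ hη) hp)
    ?_ (rel_avg hs hc (fun i => hinv _) hφ hp) (rel_avg hη hηc hperη hφ hp) ?_
  · exact (eps_smooth (fm (val σ 0 (φ p)))⁻¹ (sm_avgk hγ hφ hp) (sm_avg hs hφ hp)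
      (sm_avg hη hφ hp)).differentiableAt (by simp)
  · intro a b
    exact avg_d hγ hη hD hper hφ hp a b

theorem fm_mean_zero (hγ : IsSmooth γ) (hη : IsSmooth η) (hD : IsD γ η)
    (hper : ∀ i : Fin m, InvK (Pi.single i 1) γ) (x : P) : fm (mean η x) = 0 := by
  have hφ := chart_param (V := V) x
  have hp := mem_chart_target V x
  have h1 : (chartAt V x).symm (chartAt V x x) = x := (chartAt V x).left_inv (mem_chart_source V x)
  ext i j
  have h2 := avg_d hγ hη hD hper hφ hp (bv V i) (bv V j)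
  have e0 : ∀ l : Fin m, (bv V l : Cy m V).2 = 0 := fun l => rfl
  rw [e0, e0, map_zero] at h2
  have h3 : avg (co (chartAt V x).symm η) (chartAt V x x) =
    (mean η ((chartAt V x).symm (chartAt V x x))).compContinuousLinearMap
      (pd m (chartAt V x).symm (chartAt V x x)) := avg_co hφ hη hp
  have h4 : avg (co (chartAt V x).symm η) (chartAt V x x) ![bv V i, bv V j] = 0 := by
    refine Eq.trans h2 ?_
    change (0 : ℝ) - 0 = 0
    ring
  rw [h3, h1] at h4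
  have h5 := congrFun (congrFun (fm_comp (mean η x) (chartAt V x).symm (chartAt V x x)) i) j
  rw [← h5]
  exact h4

/-- from `T^m × P` to `P` -/
theorem fwdCls (hs : IsSmooth σ) (hc : IsClosedForm σ)
    (hinv : ∀ s, InvForm s σ) (hdet : ∀ x, IsUnit (fm (val σ 0 x)).det) (hγ : IsSmooth γ)
    (hη : IsSmooth η) (hD : IsD γ η) (hper : ∀ i : Fin m, InvK (Pi.single i 1) γ)
    (hperη : Periodic η) (hnd : ∀ x, ND (val σ 0 x + mean η x)) :
    ∃ (δ : Form V P 1) (θ : Form V P 2), IsSmooth δ ∧ IsSmooth θ ∧ IsD δ θ ∧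
      IsSymplectic (addF (rf σ) θ) := by
  refine ⟨ddl σ γ η, dth σ η, ddl_sm hs hc hinv hγ hη, dth_sm hs hc hinv hη,
    ddl_D hs hc hinv hγ hη hD hper hperη, ?_⟩
  have hηc : IsClosedForm η := closed_of_D hγ hD
  have hr := rfm_sc hs hc hinv hη hηc hperη
  have e : addF (rf σ) (dth σ η) = rfm σ η := by
    funext x
    have : ∀ a b : V [⋀^Fin 2]→L[ℝ] ℝ, a + (b - a) = b := fun a b => by abel
    exact this _ _
  rw [e]
  refine ⟨hr.1, hr.2, ?_⟩
  intro x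
  have hfm : fm (val σ 0 x + mean η x) = fm (val σ 0 x) := by
    have h0 := fm_mean_zero hγ hη hD hper x
    ext i j
    change fm (val σ 0 x) i j + fm (mean η x) i j = _
    rw [h0]; simp
  have := ND_schur (val σ 0 x + mean η x) (by rw [hfm]; exact hdet x) (hnd x)
  rw [hfm] at this
  exact this

end

end Pool.Agent.Helper224_tor
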