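import Pool.Agent.Helper224_tor.Eps

/-!
Linear algebra for the class version.
-/

set_option autoImplicit false

open Set MeasureTheory Filter Topology
open scoped Manifold ContDiff

noncomputable section

namespace Pool.Agent.Helper224_tor

open Pool.Agent.Y501.SYP

section

variable {m : ℕ} {V : Type} [NormedAddCommGroup V] [NormedSpace ℝ V]

theorem comp_one {E F : Type} [NormedAddCommGroup E] [NormedSpace ℝ E] [NormedAddCommGroup F]
    [NormedSpace ℝ F] (η : F [⋀^Fin 1]→L[ℝ] ℝ) (L : E →L[ℝ] F) (a : E) :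
    η.compContinuousLinearMap L ![a] = η ![L a] := by
  rw [ContinuousAlternatingMap.compContinuousLinearMap_apply]
  congr 1
  funext i
  fin_cases i; rfl

theorem eps_compL (h : Matrix (Fin m) (Fin m) ℝ) (μ : (Cy m V) [⋀^Fin 1]→L[ℝ] ℝ)
    (s e : (Cy m V) [⋀^Fin 2]→L[ℝ] ℝ) (L : V →L[ℝ] V) :
    eps h (μ.compContinuousLinearMap (pr (ContinuousLinearMap.id ℝ (Fin m → ℝ)) L))
      (s.compContinuousLinearMap (pr (ContinuousLinearMap.id ℝ (Fin m → ℝ)) L))
      (e.compContinuousLinearMap (pr (ContinuousLinearMap.id ℝ (Fin m → ℝ)) L)) =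
      (eps h μ s e).compContinuousLinearMap L := by
  have e1 : ∀ i : Fin m, pr (ContinuousLinearMap.id ℝ (Fin m → ℝ)) L (bv V i) = bv V i := by
    intro i
    exact Prod.ext rfl (map_zero L)
  have e' : ∀ u : V, pr (ContinuousLinearMap.id ℝ (Fin m → ℝ)) L ((0 : Fin m → ℝ), u) =
    (0, L u) := fun u => rfl
  apply alt1_ext
  intro u
  rw [comp_one, eps_apply, eps_apply]
  simp only [comp_one, comp_two, e1, e']

theorem bil_zero_iff (η : (Cy m V) [⋀^Fin 2]→L[ℝ] ℝ) (v : Cy m V)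
    (h : ∀ l, η ![v, bv V l] = 0) (t : Fin m → ℝ) : η ![v, ((t, 0) : Cy m V)] = 0 := by
  rw [anti, expand]
  have h1 : ∀ i, η ![bv V i, v] = 0 := fun i => by rw [anti, h, neg_zero]
  have h2 : η ![((0 : Fin m → ℝ), (0 : V)), v] = 0 := by
    rw [← bil_apply]
    have : (((0 : Fin m → ℝ), (0 : V)) : Cy m V) = 0 := rfl
    rw [this, map_zero]; rfl
  rw [h2]
  simp [h1]

/-- the lift which is orthogonal to the torus -/
theorem schur_red (η : (Cy m V) [⋀^Fin 2]→L[ℝ] ℝ) (hdet : IsUnit (fm η).det) (u : V) :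
    ∃ s : Fin m → ℝ, (∀ t : Fin m → ℝ, η ![((s, u) : Cy m V), ((t, 0) : Cy m V)] = 0) ∧
      ∀ w, schur (fm η)⁻¹ η ![u, w] = η ![((s, u) : Cy m V), (0, w)] := by
  set h := (fm η)⁻¹ with hh
  have hsk : ∀ i j, h j i = - h i j := inv_skew (fm_skew η)
  let s : Fin m → ℝ := fun j => ∑ i, h i j * am η i u
  refine ⟨s, ?_, ?_⟩
  · refine bil_zero_iff η _ ?_
    intro l
    rw [expand]
    have e1 : η ![((0 : Fin m → ℝ), u), bv V l] = - am η l u := by rw [am_apply, anti]
    have e2 : ∀ j, η ![bv V j, bv V l] = fm η j l := fun j => rfl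
    simp only [e2, e1, s]
    have e3 : ∑ j, (∑ i, h i j * am η i u) * fm η j l = ∑ i, (h * fm η) i l * am η i u := by
      simp only [Matrix.mul_apply, Finset.sum_mul]
      rw [Finset.sum_comm]
      refine Finset.sum_congr rfl fun i _ => Finset.sum_congr rfl fun j _ => ?_
      ring
    rw [e3, hh, Matrix.nonsing_inv_mul _ hdet]
    simp [Matrix.one_apply]
  · intro w
    have e4 : ∑ i, ∑ j, h i j * (am η i u * am η j w) = ∑ j, s j * η ![bv V j, (0, w)] := by
      rw [Finset.sum_comm]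
      refine Finset.sum_congr rfl fun j _ => ?_
      simp only [s, ← am_apply, Finset.sum_mul]
      refine Finset.sum_congr rfl fun i _ => ?_
      ring
    rw [schur_apply hsk, e4, expand η s u]
    ring

theorem red_zero (η : (Cy m V) [⋀^Fin 2]→L[ℝ] ℝ) (hdet : IsUnit (fm η).det) (s : Fin m → ℝ)
    (h : ∀ t : Fin m → ℝ, η ![((s, 0) : Cy m V), ((t, 0) : Cy m V)] = 0) : s = 0 := by
  have h3 : Matrix.vecMul s (fm η) = 0 := by
    funext j
    have := h (Pi.single j 1)
    rw [expand] at this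
    have h2 : η ![((0 : Fin m → ℝ), (0 : V)), ((Pi.single j 1, 0) : Cy m V)] = 0 := by
      rw [← bil_apply]
      have : (((0 : Fin m → ℝ), (0 : V)) : Cy m V) = 0 := rfl
      rw [this, map_zero]; rfl
    rw [h2, add_zero] at this
    exact this
  have h4 : s = Matrix.vecMul (Matrix.vecMul s (fm η)) (fm η)⁻¹ := by
    rw [Matrix.vecMul_vecMul, Matrix.mul_nonsing_inv _ hdet, Matrix.vecMul_one]
  rw [h4, h3, Matrix.zero_vecMul]

theorem red_unique (η : (Cy m V) [⋀^Fin 2]→L[ℝ] ℝ) (hdet : IsUnit (fm η).det) (u : V)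
    {s s' : Fin m → ℝ} (h : ∀ t : Fin m → ℝ, η ![((s, u) : Cy m V), ((t, 0) : Cy m V)] = 0)
    (h' : ∀ t : Fin m → ℝ, η ![((s', u) : Cy m V), ((t, 0) : Cy m V)] = 0) : s = s' := by
  have : s - s' = 0 := by
    refine red_zero η hdet _ fun t => ?_
    have e : (((s - s' : Fin m → ℝ), (0 : V)) : Cy m V) = (s, u) - (s', u) := by
      ext1
      · rfl
      · simp
    have h1 := h t
    have h2 := h' t
    rw [← bil_apply] at h1 h2 ⊢
    rw [e, map_sub]
    change bil (Cy m V) η (s, u) (t, 0) - bil (Cy m V) η (s', u) (t, 0) = 0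
    rw [h1, h2, sub_zero]
  exact sub_eq_zero.1 this

/-- characterization of the Schur complement -/
theorem schur_char (η : (Cy m V) [⋀^Fin 2]→L[ℝ] ℝ) (hdet : IsUnit (fm η).det) (u w : V)
    (s : Fin m → ℝ) (h : ∀ t : Fin m → ℝ, η ![((s, u) : Cy m V), ((t, 0) : Cy m V)] = 0) :
    schur (fm η)⁻¹ η ![u, w] = η ![((s, u) : Cy m V), (0, w)] := by
  obtain ⟨s', h1, h2⟩ := schur_red η hdet u
  rw [red_unique η hdet u h h1]
  exact h2 w

theorem ND_of_schur (η : (Cy m V) [⋀^Fin 2]→L[ℝ] ℝ) (hdet : IsUnit (fm η).det)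
    (h : ND (schur (fm η)⁻¹ η)) : ND η := by
  rintro ⟨s, u⟩ hv
  have hu : u = 0 := by
    refine h u fun w => ?_
    rw [schur_char η hdet u w s (fun t => hv _)]
    exact hv _
  subst hu
  have hs : s = 0 := red_zero η hdet s fun t => hv _
  rw [hs]; rfl

theorem ND_schur (η : (Cy m V) [⋀^Fin 2]→L[ℝ] ℝ) (hdet : IsUnit (fm η).det)
    (h : ND η) : ND (schur (fm η)⁻¹ η) := fun u hu => schur_nondeg η hdet h u hu

/-- adding a form pulled back from the second factor -/
theorem schur_add_snd {h : Matrix (Fin m) (Fin m) ℝ} (hh : ∀ i j, h j i = - h i j)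
    (η : (Cy m V) [⋀^Fin 2]→L[ℝ] ℝ) (θ : V [⋀^Fin 2]→L[ℝ] ℝ) :
    schur h (η + θ.compContinuousLinearMap (ContinuousLinearMap.snd ℝ (Fin m → ℝ) V)) =
      schur h η + θ := by
  have e : ∀ a b : Cy m V,
      (η + θ.compContinuousLinearMap (ContinuousLinearMap.snd ℝ (Fin m → ℝ) V)) ![a, b] =
      η ![a, b] + θ ![a.2, b.2] := by
    intro a b
    change η ![a, b] +
      (θ.compContinuousLinearMap (ContinuousLinearMap.snd ℝ (Fin m → ℝ) V)) ![a, b] = _
    rw [comp_two]; rfl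
  have z : ∀ u : V, θ ![0, u] = 0 := by
    intro u
    rw [← bil_apply, map_zero]; rfl
  have e2 : ∀ (i : Fin m) (u : V),
      am (η + θ.compContinuousLinearMap (ContinuousLinearMap.snd ℝ (Fin m → ℝ) V)) i u =
      am η i u := by
    intro i u
    rw [am_apply, am_apply, e]
    have : (bv V i : Cy m V).2 = 0 := rfl
    rw [this, z, add_zero]
  apply alt_ext
  intro u w
  change _ = schur h η ![u, w] + θ ![u, w]
  rw [schur_apply hh, schur_apply hh, e]
  simp only [e2]
  ring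

theorem fm_add_snd (η : (Cy m V) [⋀^Fin 2]→L[ℝ] ℝ) (θ : V [⋀^Fin 2]→L[ℝ] ℝ) :
    fm (η + θ.compContinuousLinearMap (ContinuousLinearMap.snd ℝ (Fin m → ℝ) V)) = fm η := by
  ext i j
  change η ![bv V i, bv V j] +
    (θ.compContinuousLinearMap (ContinuousLinearMap.snd ℝ (Fin m → ℝ) V)) ![bv V i, bv V j] =
    η ![bv V i, bv V j]
  rw [comp_two]
  have z : ∀ u : V, θ ![0, u] = 0 := by
    intro u
    rw [← bil_apply, map_zero]; rfl
  have : θ ![(ContinuousLinearMap.snd ℝ (Fin m → ℝ) V) (bv V i),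
      (ContinuousLinearMap.snd ℝ (Fin m → ℝ) V) (bv V j)] = 0 := z _
  rw [this, add_zero]

end

end Pool.Agent.Helper224_tor
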