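import Pool.Agent.Helper224_tor.Fwd

/-!
The converse: from an invariant symplectic form on `T^r × P` to `T^(n + r) × P`; endomorphisms
tamed by a nondegenerate form.
-/

set_option autoImplicit false

open Set MeasureTheory Filter Topology
open scoped Manifold ContDiff

noncomputable section

namespace Pool.Agent.Helper224_tor

open Pool.Agent.Y501.SYP

/-- A nondegenerate form is positive on `(v, A v)` for some linear `A`. -/
theorem exists_pos {W : Type} [NormedAddCommGroup W] [NormedSpace ℝ W] [FiniteDimensional ℝ W]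
    {η : W [⋀^Fin 2]→L[ℝ] ℝ} (h : ND η) : ∃ A : W →L[ℝ] W, ∀ v, v ≠ 0 → 0 < η ![v, A v] := by
  let N := Module.finrank ℝ W
  let e : W ≃ₗ[ℝ] EuclideanSpace ℝ (Fin N) :=
    LinearEquiv.ofFinrankEq _ _ (by simp [N])
  let B : W →ₗ[ℝ] Module.Dual ℝ W :=
    { toFun := fun v => (bil W η v : W →ₗ[ℝ] ℝ)
      map_add' := fun v w => by rw [map_add]; rfl
      map_smul' := fun c v => by rw [map_smul]; rfl }
  have hB : Function.Injective B := by
    intro v w hvw
    apply (ND_iff η).1 h
    ext u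
    exact congrArg (fun L : Module.Dual ℝ W => L u) hvw
  let B' : W ≃ₗ[ℝ] Module.Dual ℝ W :=
    LinearMap.linearEquivOfInjective B hB (Subspace.dual_finrank_eq).symm
  let Q : W →ₗ[ℝ] Module.Dual ℝ W :=
    { toFun := fun w => ((innerSL ℝ (e w) : EuclideanSpace ℝ (Fin N) →ₗ[ℝ] ℝ)).comp
        (e : W →ₗ[ℝ] EuclideanSpace ℝ (Fin N))
      map_add' := fun v w => by ext u; simp
      map_smul' := fun c v => by ext u; simp }
  refine ⟨LinearMap.toContinuousLinearMap ((B'.symm : Module.Dual ℝ W →ₗ[ℝ] W).comp (-Q)),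
    fun v hv => ?_⟩
  have h1 : B (B'.symm ((-Q) v)) = (-Q) v := B'.apply_symm_apply _
  have h2 : η ![B'.symm ((-Q) v), v] = - (Q v) v := by
    rw [← bil_apply]
    exact congrArg (fun L : Module.Dual ℝ W => L v) h1
  have h3 : (Q v) v = ‖e v‖ ^ 2 := by
    change innerSL ℝ (e v) (e v) = _
    rw [innerSL_apply_apply, real_inner_self_eq_norm_sq]
  change 0 < η ![v, B'.symm ((-Q) v)]
  rw [anti, h2, neg_neg, h3]
  have : e v ≠ 0 := by simpa using hv
  positivity

theorem ND_sum {n : ℕ} {V : Type} [NormedAddCommGroup V] [NormedSpace ℝ V]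
    {g : Matrix (Fin n) (Fin n) ℝ} (hg : ∀ i j, g j i = - g i j) (hg0 : g.det ≠ 0)
    {θ : V [⋀^Fin 2]→L[ℝ] ℝ} (hθ : ND θ) :
    ND (cf V g + θ.compContinuousLinearMap (ContinuousLinearMap.snd ℝ (Fin n → ℝ) V)) := by
  intro v hv
  have hv' : ∀ w : Cy n V, cf V g ![v, w] + θ ![v.2, w.2] = 0 := by
    intro w
    have := hv w
    change cf V g ![v, w] +
      (θ.compContinuousLinearMap (ContinuousLinearMap.snd ℝ (Fin n → ℝ) V)) ![v, w] = 0 at this
    rwa [comp_two] at this
  have h2 : v.2 = 0 := by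
    refine hθ _ fun b => ?_
    have := hv' (0, b)
    rw [cf_apply hg] at this
    simpa using this
  have h1 : v.1 = 0 := by
    have h3 : Matrix.vecMul v.1 g = 0 := by
      funext j
      have := hv' (bv V j)
      rw [cf_apply hg] at this
      have e0 : θ ![v.2, (bv V j : Cy n V).2] = 0 := by
        rw [h2, anti]
        have : (bv V j : Cy n V).2 = 0 := rfl
        rw [this, alt_self, neg_zero]
      rw [e0, add_zero] at this
      simp only [Matrix.vecMul, dotProduct, Pi.zero_apply]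
      rw [← this]
      refine Finset.sum_congr rfl fun i _ => ?_
      simp [bv, Pi.single_apply, mul_comm]
    have h4 : v.1 = Matrix.vecMul (Matrix.vecMul v.1 g) g⁻¹ := by
      rw [Matrix.vecMul_vecMul, Matrix.mul_nonsing_inv _ (isUnit_iff_ne_zero.2 hg0),
        Matrix.vecMul_one]
    rw [h4, h3, Matrix.zero_vecMul]
  exact Prod.ext h1 h2

variable {n r : ℕ} {V : Type} [NormedAddCommGroup V] [NormedSpace ℝ V] [FiniteDimensional ℝ V]
  {P : Type} [TopologicalSpace P] [ChartedSpace V P]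

/-- forms depending only on the point of `P` -/
def fo {m : ℕ} (θ : P → (Cy m V) [⋀^Fin 2]→L[ℝ] ℝ) : FormC V P m := fun q => θ q.2

omit [FiniteDimensional ℝ V] in
theorem fo_inv {m : ℕ} (θ : P → (Cy m V) [⋀^Fin 2]→L[ℝ] ℝ) (s : Fin m → ℝ) :
    InvForm s (fo θ) := by
  intro q v w
  have e1 := dshift_apply (V := V) s q v
  have e2 := dshift_apply (V := V) s q w
  have e3 : ∀ (x₁ x' y y' : Cy m V), x₁ = x' → y = y' →
      (θ q.2) ![x₁, y] = (θ q.2) ![x', y'] := by
    rintro x₁ _ y _ rfl rfl; rfl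
  exact e3 _ _ _ _ e1 e2

omit [FiniteDimensional ℝ V] in
theorem val_inv {m : ℕ} {σ : FormC V P m} (h : ∀ s, InvForm s σ) (t : Fin m → ℝ) (x : P) :
    val σ t x = val σ 0 x := by
  have := val_shift (h t) 0 x
  rwa [zero_add] at this

/-- The product with a standard torus. -/
theorem backward [IsManifold 𝓘(ℝ, V) ∞ P] {τ : FormC V P r} (hτ : IsSymplectic τ)
    (hinv : ∀ s, InvForm s τ)
    {g : Matrix (Fin n) (Fin n) ℝ} (hg : ∀ i j, g j i = - g i j) (hg0 : g.det ≠ 0) :
    ∃ σ : FormC V P (n + r), IsSymplectic σ ∧ ∀ s, InvForm s σ := by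
  set C0 : (Cy (n + r) V) [⋀^Fin 2]→L[ℝ] ℝ :=
    (cf (Cy r V) g).compContinuousLinearMap (pa n r V) with hC0
  have hC : ∀ (φ : V → P) (p : V), C0.compContinuousLinearMap (pd (n + r) φ p) = C0 := by
    intro φ p
    apply alt_ext
    intro a b
    rw [comp_two, hC0, comp_two, comp_two, cf_apply hg, cf_apply hg]
    rfl
  let θ : P → (Cy (n + r) V) [⋀^Fin 2]→L[ℝ] ℝ := fun x =>
    C0 + (val τ 0 x).compContinuousLinearMap (lp n r V)
  have hsc : IsSmooth (fo θ) ∧ IsClosedForm (fo θ) := by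
    refine of_pull (fo θ) C0 (lp n r V) fun x => ?_
    have hφ := chart_param (V := V) x
    refine ⟨univ ×ˢ (chartAt V x).target, co (chartAt V x).symm τ,
      isOpen_univ.prod (chartAt V x).open_target, co_smooth hφ hτ.smooth,
      fun z hz => co_closed hφ hτ.closed hz.2 z.1, fun t p hp => ⟨⟨mem_univ _, hp⟩, ?_⟩⟩
    have e1 := co_eq hφ (fo θ) hp t
    have e2 := co_eq hφ τ hp (lp n r V (t, p)).1
    rw [val_inv hinv] at e2
    rw [e1]
    have e3 : co (chartAt V x).symm τ (lp n r V (t, p)) =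
      (val τ 0 ((chartAt V x).symm p)).compContinuousLinearMap
        (pd r (chartAt V x).symm p) := e2
    rw [e3]
    apply alt_ext
    intro a b
    rw [comp_two]
    change C0 ![pd (n + r) (chartAt V x).symm p a, pd (n + r) (chartAt V x).symm p b] +
      ((val τ 0 ((chartAt V x).symm p)).compContinuousLinearMap (lp n r V))
        ![pd (n + r) (chartAt V x).symm p a, pd (n + r) (chartAt V x).symm p b] =
      C0 ![a, b] + (((val τ 0 ((chartAt V x).symm p)).compContinuousLinearMap
        (pd r (chartAt V x).symm p)).compContinuousLinearMap (lp n r V)) ![a, b]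
    rw [← comp_two C0, hC, comp_two, comp_two, comp_two, comp_two]
    rfl
  refine ⟨fo θ, ⟨hsc.1, hsc.2, ?_⟩, fo_inv θ⟩
  intro q
  have h0 : ND (val τ 0 q.2) := hτ.nondeg ((0, q.2) : Cyl r P)
  have h1 : ND (θ q.2) := by
    have h2 := (ND_comp (pa_bij (n := n) (r := r) (V := V)) _).2 (ND_sum hg hg0 h0)
    have h3 : (cf (Cy r V) g + (val τ 0 q.2).compContinuousLinearMap
        (ContinuousLinearMap.snd ℝ (Fin n → ℝ) (Cy r V))).compContinuousLinearMap (pa n r V) =
          θ q.2 := by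
      apply alt_ext
      intro a b
      rw [comp_two]
      change cf (Cy r V) g ![pa n r V a, pa n r V b] +
        ((val τ 0 q.2).compContinuousLinearMap
          (ContinuousLinearMap.snd ℝ (Fin n → ℝ) (Cy r V))) ![pa n r V a, pa n r V b] =
        C0 ![a, b] + ((val τ 0 q.2).compContinuousLinearMap (lp n r V)) ![a, b]
      rw [comp_two, comp_two, comp_two]
      rfl
    rwa [h3] at h2
  exact h1

/-- The product with a standard torus, when the form is given on `P`. -/
theorem backward0 [IsManifold 𝓘(ℝ, V) ∞ P] {β : Form V P 2} (hβ : IsSymplectic β)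
    {g : Matrix (Fin n) (Fin n) ℝ} (hg : ∀ i j, g j i = - g i j) (hg0 : g.det ≠ 0) :
    ∃ σ : FormC V P n, IsSymplectic σ ∧ ∀ s, InvForm s σ := by
  let vb : P → V [⋀^Fin 2]→L[ℝ] ℝ := fun x => β x
  let θ : P → (Cy n V) [⋀^Fin 2]→L[ℝ] ℝ := fun x =>
    cf V g + (vb x).compContinuousLinearMap (ContinuousLinearMap.snd ℝ (Fin n → ℝ) V)
  have hsc : IsSmooth (fo θ) ∧ IsClosedForm (fo θ) := by
    refine of_pull (fo θ) (cf V g) (ContinuousLinearMap.snd ℝ (Fin n → ℝ) V) fun x => ?_
    have hφ := chart_param (V := V) x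
    refine ⟨(chartAt V x).target, pb (chartAt V x).symm β,
      (chartAt V x).open_target, hβ.smooth _ _ hφ,
      fun z hz => hβ.closed _ _ hφ z hz, fun t p hp => ⟨hp, ?_⟩⟩
    rw [co_eq hφ (fo θ) hp t]
    have e3 : pb (chartAt V x).symm β (ContinuousLinearMap.snd ℝ (Fin n → ℝ) V (t, p)) =
      (vb ((chartAt V x).symm p)).compContinuousLinearMap (dm (chartAt V x).symm p) := rfl
    rw [e3]
    apply alt_ext
    intro a b
    rw [comp_two]
    change cf V g ![pd n (chartAt V x).symm p a, pd n (chartAt V x).symm p b] +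
      ((vb ((chartAt V x).symm p)).compContinuousLinearMap
        (ContinuousLinearMap.snd ℝ (Fin n → ℝ) V))
        ![pd n (chartAt V x).symm p a, pd n (chartAt V x).symm p b] =
      cf V g ![a, b] + (((vb ((chartAt V x).symm p)).compContinuousLinearMap
        (dm (chartAt V x).symm p)).compContinuousLinearMap
        (ContinuousLinearMap.snd ℝ (Fin n → ℝ) V)) ![a, b]
    rw [← comp_two (cf V g), cf_comp hg, comp_two, comp_two, comp_two]
    rfl
  refine ⟨fo θ, ⟨hsc.1, hsc.2, ?_⟩, fo_inv θ⟩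
  intro q
  have h0 : ND (vb q.2) := hβ.nondeg q.2
  exact ND_sum hg hg0 h0

end Pool.Agent.Helper224_tor
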