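import Pool.Agent.Y501.SY.Pub

/-!
The product of `ℝ^m` with a manifold `P`, translations, and invariant forms: the definitions used
in the statement of the result.
-/

set_option autoImplicit false

open Set
open scoped Manifold ContDiff

noncomputable section

namespace Pool.Agent.Helper224_tor

open Pool.Agent.Y501.SYP

/-- The product `ℝ^m × P`. -/
def Cyl (m : ℕ) (P : Type) : Type := (Fin m → ℝ) × P

section

variable {m : ℕ} {V : Type} [NormedAddCommGroup V] [NormedSpace ℝ V]
  {P : Type} [TopologicalSpace P] [ChartedSpace V P]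

instance instTopCyl (m : ℕ) (P : Type) [TopologicalSpace P] : TopologicalSpace (Cyl m P) :=
  (inferInstance : TopologicalSpace ((Fin m → ℝ) × P))

/-- The product of the identity chart of `ℝ^m` with the charts of `P`; `Cyl m P` is a manifold
modelled on `ℝ^m × V` when `P` is a manifold modelled on `V`. -/
instance instChartedCyl (m : ℕ) (V : Type) [NormedAddCommGroup V] [NormedSpace ℝ V] (P : Type)
    [TopologicalSpace P] [ChartedSpace V P] : ChartedSpace ((Fin m → ℝ) × V) (Cyl m P) :=
  (prodChartedSpace (Fin m → ℝ) (Fin m → ℝ) V P :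
    ChartedSpace (ModelProd (Fin m → ℝ) V) ((Fin m → ℝ) × P))

variable (V P) in
/-- a two-form on `ℝ^m × P` -/
abbrev FormC (m : ℕ) : Type := Form ((Fin m → ℝ) × V) (Cyl m P) 2

variable (V P) in
/-- an endomorphism of the tangent bundle of `ℝ^m × P` -/
abbrev EndC (m : ℕ) : Type := End ((Fin m → ℝ) × V) (Cyl m P)

/-- the translation of `ℝ^m × P` by `s` -/
def shift (s : Fin m → ℝ) (q : Cyl m P) : Cyl m P := (q.1 + s, q.2)

variable (V) in
/-- the differential of the translation by `s` -/
def dshift (s : Fin m → ℝ) (q : Cyl m P) :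
    TangentSpace 𝓘(ℝ, (Fin m → ℝ) × V) q →L[ℝ] TangentSpace 𝓘(ℝ, (Fin m → ℝ) × V) (shift s q) :=
  mfderiv 𝓘(ℝ, (Fin m → ℝ) × V) 𝓘(ℝ, (Fin m → ℝ) × V) (shift s) q

/-- The form `σ` is invariant under the translation by `s`. -/
def InvForm (s : Fin m → ℝ) (σ : FormC V P m) : Prop :=
  ∀ (q : Cyl m P) (v w : TangentSpace 𝓘(ℝ, (Fin m → ℝ) × V) q),
    σ (shift s q) ![dshift V s q v, dshift V s q w] = σ q ![v, w]

/-- The endomorphism `J` of the tangent bundle is invariant under the translation by `s`. -/
def InvEnd (s : Fin m → ℝ) (J : EndC V P m) : Prop :=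
  ∀ (q : Cyl m P) (v : TangentSpace 𝓘(ℝ, (Fin m → ℝ) × V) q),
    J (shift s q) (dshift V s q v) = dshift V s q (J q v)

/-- A form on `ℝ^m × P` is periodic if it is invariant under the translations by `ℤ^m`, that is,
it comes from a form on the product of the torus `ℝ^m / ℤ^m` and `P`. -/
def Periodic (σ : FormC V P m) : Prop := ∀ i : Fin m, InvForm (Pi.single i 1) σ

/-- Symplectic forms: smooth, closed and nondegenerate. -/
structure IsSymplectic {W X : Type} [NormedAddCommGroup W] [NormedSpace ℝ W] [TopologicalSpace X]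
    [ChartedSpace W X] (σ : Form W X 2) : Prop where
  smooth : IsSmooth σ
  closed : IsClosedForm σ
  nondeg : ∀ (x : X) (v : TangentSpace 𝓘(ℝ, W) x), (∀ w, σ x ![v, w] = 0) → v = 0

variable (V P) in
/-- There are a smooth closed two-form `σ` on the product of the torus `ℝ^m / ℤ^m` and `P` and a
field `A` of endomorphisms of the tangent spaces, invariant under the torus, such that
`σ (v, A v) > 0` for all nonzero tangent vectors `v`. -/
def Tamed (m : ℕ) : Prop :=
  ∃ (σ : FormC V P m) (A : EndC V P m), IsSmooth σ ∧ IsClosedForm σ ∧ Periodic σ ∧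
    (∀ s, InvEnd s A) ∧
    ∀ (q : Cyl m P) (v : TangentSpace 𝓘(ℝ, (Fin m → ℝ) × V) q), v ≠ 0 → 0 < σ q ![v, A q v]

variable (V P) in
/-- There is a symplectic form on `ℝ^m × P` which is invariant under all translations, that is, a
symplectic form on the product of the torus and `P` which is invariant under the torus. -/
def InvSymp (m : ℕ) : Prop := ∃ σ : FormC V P m, IsSymplectic σ ∧ ∀ s, InvForm s σ

variable (V P) in
/-- `P` has a symplectic form. -/
def Symp : Prop := ∃ β : Form V P 2, IsSymplectic β

end

end Pool.Agent.Helper224_tor
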