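import Pool.Agent.Helper224_tor.Mean1

/-!
The one-form by which the Schur complements of cohomologous forms differ.
-/

set_option autoImplicit false

open Set MeasureTheory Filter Topology
open scoped Manifold ContDiff

noncomputable section

namespace Pool.Agent.Helper224_tor

open Pool.Agent.Y501.SYP

variable {m : ℕ} {V : Type} [NormedAddCommGroup V] [NormedSpace ℝ V]

/-- a linear form as an alternating form -/
def one1 (E : Type) [NormedAddCommGroup E] [NormedSpace ℝ E] :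
    (E →L[ℝ] ℝ) →L[ℝ] (E [⋀^Fin 1]→L[ℝ] ℝ) :=
  ((ContinuousAlternatingMap.ofSubsingletonLIE (𝕜 := ℝ) (E := E) (F := ℝ)
    (0 : Fin 1)).toContinuousLinearEquiv : (E →L[ℝ] ℝ) ≃L[ℝ] (E [⋀^Fin 1]→L[ℝ] ℝ))

/-- an alternating form of degree one as a linear form -/
def lin1 (E : Type) [NormedAddCommGroup E] [NormedSpace ℝ E] :
    (E [⋀^Fin 1]→L[ℝ] ℝ) →L[ℝ] (E →L[ℝ] ℝ) :=
  ((ContinuousAlternatingMap.ofSubsingletonLIE (𝕜 := ℝ) (E := E) (F := ℝ)
    (0 : Fin 1)).toContinuousLinearEquiv.symm : (E [⋀^Fin 1]→L[ℝ] ℝ) ≃L[ℝ] (E →L[ℝ] ℝ))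

theorem one1_apply {E : Type} [NormedAddCommGroup E] [NormedSpace ℝ E] (a : E →L[ℝ] ℝ) (u : E) :
    one1 E a ![u] = a u := rfl

theorem lin1_apply {E : Type} [NormedAddCommGroup E] [NormedSpace ℝ E] (a : E [⋀^Fin 1]→L[ℝ] ℝ)
    (u : E) : lin1 E a u = a ![u] := by
  change a (fun _ => u) = a ![u]
  congr 1
  funext i; fin_cases i; rfl

theorem alt1_ext {E : Type} [NormedAddCommGroup E] [NormedSpace ℝ E] {a b : E [⋀^Fin 1]→L[ℝ] ℝ}
    (h : ∀ u, a ![u] = b ![u]) : a = b := by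
  ext v
  have : v = ![v 0] := by funext i; fin_cases i; rfl
  rw [this]; exact h _

/-- the one-form -/
def eps (h : Matrix (Fin m) (Fin m) ℝ) (μ : (Cy m V) [⋀^Fin 1]→L[ℝ] ℝ)
    (s e : (Cy m V) [⋀^Fin 2]→L[ℝ] ℝ) : V [⋀^Fin 1]→L[ℝ] ℝ :=
  one1 V ((lin1 (Cy m V) μ).comp (ContinuousLinearMap.inr ℝ (Fin m → ℝ) V) -
    ∑ i, ∑ j, (h i j * μ ![bv V i]) • (am s j + (1 / 2 : ℝ) • am e j))

theorem eps_apply (h : Matrix (Fin m) (Fin m) ℝ) (μ : (Cy m V) [⋀^Fin 1]→L[ℝ] ℝ)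
    (s e : (Cy m V) [⋀^Fin 2]→L[ℝ] ℝ) (u : V) :
    eps h μ s e ![u] = μ ![((0 : Fin m → ℝ), u)] -
      ∑ i, ∑ j, h i j * (μ ![bv V i] * (s ![bv V j, (0, u)] + 1 / 2 * e ![bv V j, (0, u)])) := by
  unfold eps
  rw [one1_apply]
  simp only [sub_apply, sum_apply, smul_apply, add_apply, ContinuousLinearMap.comp_apply,
    smul_eq_mul, am_apply, lin1_apply]
  congr 1
  refine Finset.sum_congr rfl fun i _ => Finset.sum_congr rfl fun j _ => ?_
  ring

theorem eps_smooth (h : Matrix (Fin m) (Fin m) ℝ) {M : V → (Cy m V) [⋀^Fin 1]→L[ℝ] ℝ}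
    {S E : V → (Cy m V) [⋀^Fin 2]→L[ℝ] ℝ} {p : V} (hM : ContDiffAt ℝ ∞ M p)
    (hS : ContDiffAt ℝ ∞ S p) (hE : ContDiffAt ℝ ∞ E p) :
    ContDiffAt ℝ ∞ (fun y => eps h (M y) (S y) (E y)) p := by
  unfold eps
  have h1 : ContDiffAt ℝ ∞ (fun y => lin1 (Cy m V) (M y)) p := by fun_prop
  have h2 : ContDiffAt ℝ ∞ (fun y => (lin1 (Cy m V) (M y)).comp
      (ContinuousLinearMap.inr ℝ (Fin m → ℝ) V)) p := h1.clm_comp contDiffAt_const
  have h3 : ∀ i : Fin m, ContDiffAt ℝ ∞ (fun y => M y ![bv V i]) p := by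
    intro i
    exact (ContinuousAlternatingMap.apply ℝ (Cy m V) ℝ ![bv V i]).contDiff.contDiffAt.comp p hM
  have h4 : ∀ j : Fin m, ContDiffAt ℝ ∞ (fun y => am (S y) j) p := fun j =>
    (am_smooth (V := V) j).contDiffAt.comp p hS
  have h5 : ∀ j : Fin m, ContDiffAt ℝ ∞ (fun y => am (E y) j) p := fun j =>
    (am_smooth (V := V) j).contDiffAt.comp p hE
  have h8 : ∀ j : Fin m, ContDiffAt ℝ ∞ (fun y => (1 / 2 : ℝ) • am (E y) j) p := fun j =>
    (h5 j).const_smul (1 / 2 : ℝ)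
  have h6 : ContDiffAt ℝ ∞ (fun y => (lin1 (Cy m V) (M y)).comp
      (ContinuousLinearMap.inr ℝ (Fin m → ℝ) V) - ∑ i, ∑ j, (h i j * M y ![bv V i]) •
        (am (S y) j + (1 / 2 : ℝ) • am (E y) j)) p := by
    refine h2.sub (ContDiffAt.sum fun i _ => ContDiffAt.sum fun j _ => ?_)
    exact (contDiffAt_const.mul (h3 i)).smul ((h4 j).add (h8 j))
  have h7 : ContDiff ℝ ∞ (fun a : V →L[ℝ] ℝ => one1 V a) := by fun_prop
  exact h7.contDiffAt.comp p h6

theorem eps_D {h : Matrix (Fin m) (Fin m) ℝ} (hh : ∀ i j, h j i = - h i j)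
    {M : V → (Cy m V) [⋀^Fin 1]→L[ℝ] ℝ} {S E : V → (Cy m V) [⋀^Fin 2]→L[ℝ] ℝ} {p : V}
    {D1 : V →L[ℝ] ((Cy m V) [⋀^Fin 1]→L[ℝ] ℝ)} {DS DE : V →L[ℝ] ((Cy m V) [⋀^Fin 2]→L[ℝ] ℝ)}
    (hM : HasFDerivAt M D1 p) (hS : HasFDerivAt S DS p) (hE : HasFDerivAt E DE p)
    (hdiff : DifferentiableAt ℝ (fun y => eps h (M y) (S y) (E y)) p)
    (rS : Rel DS) (rE : Rel DE)
    (hrel : ∀ a b : Cy m V, E p ![a, b] = (D1 a.2) ![b] - (D1 b.2) ![a]) :
    extDeriv (fun y => eps h (M y) (S y) (E y)) p = schur h (S p + E p) - schur h (S p) := by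
  have hev2 : ∀ {G : V → (Cy m V) [⋀^Fin 2]→L[ℝ] ℝ} {DG : V →L[ℝ] ((Cy m V) [⋀^Fin 2]→L[ℝ] ℝ)},
      HasFDerivAt G DG p → ∀ x z : Cy m V, HasFDerivAt (fun y => G y ![x, z])
      ((ContinuousAlternatingMap.apply ℝ (Cy m V) ℝ ![x, z]).comp DG) p := fun hG x z =>
    (ContinuousAlternatingMap.apply ℝ (Cy m V) ℝ ![x, z]).hasFDerivAt.comp p hG
  have hev1 : ∀ x : Cy m V, HasFDerivAt (fun y => M y ![x])
      ((ContinuousAlternatingMap.apply ℝ (Cy m V) ℝ ![x]).comp D1) p := fun x =>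
    (ContinuousAlternatingMap.apply ℝ (Cy m V) ℝ ![x]).hasFDerivAt.comp p hM
  have key : ∀ v w : V, (fderiv ℝ (fun y => eps h (M y) (S y) (E y)) p v) ![w] =
      (D1 v) ![((0 : Fin m → ℝ), w)] - ∑ i, ∑ j, h i j *
        ((D1 v) ![bv V i] * (am (S p) j w + 1 / 2 * am (E p) j w) +
          M p ![bv V i] * (am (DS v) j w + 1 / 2 * am (DE v) j w)) := by
    intro v w
    have h1 : HasFDerivAt (fun y => eps h (M y) (S y) (E y) ![w])
        ((ContinuousAlternatingMap.apply ℝ V ℝ ![w]).comp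
          (fderiv ℝ (fun y => eps h (M y) (S y) (E y)) p)) p :=
      (ContinuousAlternatingMap.apply ℝ V ℝ ![w]).hasFDerivAt.comp p hdiff.hasFDerivAt
    have h2 : HasFDerivAt (fun y => eps h (M y) (S y) (E y) ![w])
        ((ContinuousAlternatingMap.apply ℝ (Cy m V) ℝ ![((0 : Fin m → ℝ), w)]).comp D1 -
          ∑ i, ∑ j, h i j • ((M p ![bv V i]) •
            ((ContinuousAlternatingMap.apply ℝ (Cy m V) ℝ ![bv V j, (0, w)]).comp DS +
              (1 / 2 : ℝ) •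
                (ContinuousAlternatingMap.apply ℝ (Cy m V) ℝ ![bv V j, (0, w)]).comp DE) +
            (S p ![bv V j, (0, w)] + 1 / 2 * E p ![bv V j, (0, w)]) •
            (ContinuousAlternatingMap.apply ℝ (Cy m V) ℝ ![bv V i]).comp D1)) p := by
      have e : (fun y => eps h (M y) (S y) (E y) ![w]) = fun y => M y ![((0 : Fin m → ℝ), w)] -
          ∑ i, ∑ j, h i j * (M y ![bv V i] *
            (S y ![bv V j, (0, w)] + 1 / 2 * E y ![bv V j, (0, w)])) := by
        funext y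
        rw [eps_apply]
      rw [e]
      refine (hev1 _).sub ?_
      refine HasFDerivAt.fun_sum fun i _ => HasFDerivAt.fun_sum fun j _ => ?_
      exact ((hev1 _).mul ((hev2 hS _ _).add ((hev2 hE _ _).const_mul _))).const_mul _
    have h3 := congrArg (fun L : V →L[ℝ] ℝ => L v) (h1.unique h2)
    simp only [ContinuousLinearMap.comp_apply, ContinuousAlternatingMap.apply_apply,
      add_apply, sub_apply, sum_apply, smul_apply, smul_eq_mul] at h3
    rw [h3]
    congr 1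
    refine Finset.sum_congr rfl fun i _ => Finset.sum_congr rfl fun j _ => ?_
    simp only [am_apply]
    ring
  apply alt_ext
  intro u w
  rw [ext_one, key, key]
  change _ = schur h (S p + E p) ![u, w] - schur h (S p) ![u, w]
  rw [schur_apply hh, schur_apply hh]
  have hB : ∀ (i : Fin m) (v : V), (D1 v) ![bv V i] = - am (E p) i v := by
    intro i v
    rw [am_apply, hrel]
    have : (D1 (bv V i : Cy m V).2) = 0 := by simp [bv]
    rw [this]
    change _ = -((0 : ℝ) - _)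
    ring
  have hZ : (E p) ![((0 : Fin m → ℝ), u), (0, w)] =
      (D1 u) ![((0 : Fin m → ℝ), w)] - (D1 w) ![((0 : Fin m → ℝ), u)] := hrel _ _
  have hadd : ∀ (i : Fin m) (v : V), am (S p + E p) i v = am (S p) i v + am (E p) i v := by
    intro i v
    simp only [am_apply]; rfl
  have h00 : (S p + E p) ![((0 : Fin m → ℝ), u), (0, w)] =
    (S p) ![((0 : Fin m → ℝ), u), (0, w)] + (E p) ![((0 : Fin m → ℝ), u), (0, w)] := rfl
  rw [h00, hZ]
  simp only [hadd, hB]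
  -- skewness
  have sk : ∀ f g : Fin m → ℝ, ∑ i, ∑ j, h i j * (f i * g j) = - ∑ i, ∑ j, h i j * (g i * f j) := by
    intro f g
    rw [Finset.sum_comm, ← Finset.sum_neg_distrib]
    refine Finset.sum_congr rfl fun j _ => ?_
    rw [← Finset.sum_neg_distrib]
    refine Finset.sum_congr rfl fun i _ => ?_
    rw [hh j i]; ring
  have eL : (∑ i, ∑ j, h i j * (-am (E p) i u * (am (S p) j w + 1 / 2 * am (E p) j w) +
        M p ![bv V i] * (am (DS u) j w + 1 / 2 * am (DE u) j w))) -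
      (∑ i, ∑ j, h i j * (-am (E p) i w * (am (S p) j u + 1 / 2 * am (E p) j u) +
        M p ![bv V i] * (am (DS w) j u + 1 / 2 * am (DE w) j u))) =
      - (∑ i, ∑ j, h i j * (am (E p) i u * am (S p) j w)) -
        1 / 2 * (∑ i, ∑ j, h i j * (am (E p) i u * am (E p) j w)) +
        (∑ i, ∑ j, h i j * (am (E p) i w * am (S p) j u)) +
        1 / 2 * (∑ i, ∑ j, h i j * (am (E p) i w * am (E p) j u)) := by
    simp only [Finset.mul_sum, ← Finset.sum_neg_distrib, ← Finset.sum_sub_distrib,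
      ← Finset.sum_add_distrib]
    refine Finset.sum_congr rfl fun i _ => Finset.sum_congr rfl fun j _ => ?_
    rw [rel_am rS w u j, rel_am rE w u j]
    ring
  have eR : (∑ i, ∑ j, h i j * ((am (S p) i u + am (E p) i u) *
        (am (S p) j w + am (E p) j w))) - (∑ i, ∑ j, h i j * (am (S p) i u * am (S p) j w)) =
      (∑ i, ∑ j, h i j * (am (S p) i u * am (E p) j w)) +
        (∑ i, ∑ j, h i j * (am (E p) i u * am (S p) j w)) +
        (∑ i, ∑ j, h i j * (am (E p) i u * am (E p) j w)) := by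
    simp only [← Finset.sum_sub_distrib, ← Finset.sum_add_distrib]
    refine Finset.sum_congr rfl fun i _ => Finset.sum_congr rfl fun j _ => ?_
    ring
  have s1 := sk (fun i => am (E p) i w) (fun j => am (S p) j u)
  have s2 := sk (fun i => am (E p) i w) (fun j => am (E p) j u)
  linarith

end Pool.Agent.Helper224_tor
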