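import Mathlib

/-!
Linear algebra of alternating two-forms on `ℝ^m × V`: the Schur complement.
-/

set_option autoImplicit false

open Set Filter Topology

noncomputable section

namespace Pool.Agent.Helper224_tor

section bil

variable {E : Type} [NormedAddCommGroup E] [NormedSpace ℝ E]

/-- the bilinear form of an alternating form -/
def bil (E : Type) [NormedAddCommGroup E] [NormedSpace ℝ E] :
    (E [⋀^Fin 2]→L[ℝ] ℝ) →L[ℝ] (E →L[ℝ] E →L[ℝ] ℝ) :=
  ((ContinuousLinearMap.compL ℝ E (ContinuousMultilinearMap ℝ (fun _ : Fin 1 => E) ℝ)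
      (E →L[ℝ] ℝ)
      ((continuousMultilinearCurryFin1 ℝ E ℝ).toContinuousLinearEquiv :
        ContinuousMultilinearMap ℝ (fun _ : Fin 1 => E) ℝ →L[ℝ] (E →L[ℝ] ℝ))).comp
    ((continuousMultilinearCurryLeftEquiv ℝ (fun _ : Fin 2 => E) ℝ).toContinuousLinearEquiv :
      ContinuousMultilinearMap ℝ (fun _ : Fin 2 => E) ℝ →L[ℝ]
        (E →L[ℝ] ContinuousMultilinearMap ℝ (fun _ : Fin 1 => E) ℝ))).comp
    (ContinuousAlternatingMap.toContinuousMultilinearMapCLM ℝ)

theorem bil_apply (η : E [⋀^Fin 2]→L[ℝ] ℝ) (v w : E) : bil E η v w = η ![v, w] := by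
  unfold bil
  simp only [ContinuousLinearMap.comp_apply, ContinuousLinearMap.compL_apply]
  change η (Fin.cons v (Fin.snoc 0 w)) = η ![v, w]
  congr 1
  funext i
  fin_cases i <;> rfl

/-- the alternating form `A(u, w) - A(w, u)` -/
def alt2 (E : Type) [NormedAddCommGroup E] [NormedSpace ℝ E] :
    (E →L[ℝ] E →L[ℝ] ℝ) →L[ℝ] (E [⋀^Fin 2]→L[ℝ] ℝ) :=
  (ContinuousAlternatingMap.alternatizeUncurryFinCLM ℝ E ℝ).comp
    (ContinuousLinearMap.compL ℝ E (E →L[ℝ] ℝ) (E [⋀^Fin 1]→L[ℝ] ℝ)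
      (((ContinuousAlternatingMap.ofSubsingletonLIE (𝕜 := ℝ) (E := E) (F := ℝ)
        (0 : Fin 1)).toContinuousLinearEquiv : (E →L[ℝ] ℝ) ≃L[ℝ] (E [⋀^Fin 1]→L[ℝ] ℝ)) :
        (E →L[ℝ] ℝ) →L[ℝ] (E [⋀^Fin 1]→L[ℝ] ℝ)))

theorem alt2_apply (A : E →L[ℝ] E →L[ℝ] ℝ) (v w : E) : alt2 E A ![v, w] = A v w - A w v := by
  unfold alt2
  simp only [ContinuousLinearMap.comp_apply, ContinuousLinearMap.compL_apply]
  rw [ContinuousAlternatingMap.alternatizeUncurryFinCLM_apply,
    ContinuousAlternatingMap.alternatizeUncurryFin_apply]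
  simp [Fin.sum_univ_two, Fin.removeNth, Fin.succAbove]
  ring

theorem anti (η : E [⋀^Fin 2]→L[ℝ] ℝ) (v w : E) : η ![v, w] = - η ![w, v] := by
  have h : η (![w, v] ∘ Equiv.swap 0 1) = - η ![w, v] :=
    η.map_swap ![w, v] (i := 0) (j := 1) (by decide)
  rw [← h]
  congr 1
  funext i
  fin_cases i <;> simp

theorem alt_self (η : E [⋀^Fin 2]→L[ℝ] ℝ) (v : E) : η ![v, v] = 0 := by
  have := anti η v v
  linarith

theorem alt_ext {η θ : E [⋀^Fin 2]→L[ℝ] ℝ} (h : ∀ v w, η ![v, w] = θ ![v, w]) : η = θ := by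
  ext v
  have : v = ![v 0, v 1] := by
    funext i; fin_cases i <;> rfl
  rw [this]; exact h _ _

end bil

variable {m : ℕ} {V : Type} [NormedAddCommGroup V] [NormedSpace ℝ V]

variable (m V) in
/-- `ℝ^m × V` -/
abbrev Cy : Type := (Fin m → ℝ) × V

/-- the basis vectors of `ℝ^m` -/
def bv (V : Type) [NormedAddCommGroup V] [NormedSpace ℝ V] (i : Fin m) : Cy m V :=
  (Pi.single i 1, 0)

/-- the coefficients in the torus directions -/
def fm (η : (Cy m V) [⋀^Fin 2]→L[ℝ] ℝ) : Matrix (Fin m) (Fin m) ℝ :=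
  fun i j => η ![bv V i, bv V j]

/-- the mixed coefficients -/
def am (η : (Cy m V) [⋀^Fin 2]→L[ℝ] ℝ) (i : Fin m) : V →L[ℝ] ℝ :=
  (bil (Cy m V) η (bv V i)).comp (ContinuousLinearMap.inr ℝ (Fin m → ℝ) V)

theorem am_apply (η : (Cy m V) [⋀^Fin 2]→L[ℝ] ℝ) (i : Fin m) (u : V) :
    am η i u = η ![bv V i, (0, u)] := by
  simp [am, bil_apply]

/-- The Schur complement, for a matrix `h` in place of the inverse of `fm η`. -/
def schurB (h : Matrix (Fin m) (Fin m) ℝ) (η : (Cy m V) [⋀^Fin 2]→L[ℝ] ℝ) : V →L[ℝ] V →L[ℝ] ℝ :=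
  bil V (η.compContinuousLinearMap (ContinuousLinearMap.inr ℝ (Fin m → ℝ) V)) +
    ∑ i, ∑ j, h i j • (am η i).smulRight (am η j)

/-- The Schur complement, for a skew matrix `h` in place of the inverse of `fm η`. -/
def schur (h : Matrix (Fin m) (Fin m) ℝ) (η : (Cy m V) [⋀^Fin 2]→L[ℝ] ℝ) :
    V [⋀^Fin 2]→L[ℝ] ℝ :=
  (1 / 2 : ℝ) • alt2 V (schurB h η)

theorem schurB_apply (h : Matrix (Fin m) (Fin m) ℝ) (η : (Cy m V) [⋀^Fin 2]→L[ℝ] ℝ) (u w : V) :
    schurB h η u w = η ![(0, u), (0, w)] + ∑ i, ∑ j, h i j * (am η i u * am η j w) := by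
  unfold schurB
  simp only [add_apply, sum_apply, bil_apply, smul_apply,
    ContinuousLinearMap.smulRight_apply, smul_eq_mul]
  congr 1
  rw [ContinuousAlternatingMap.compContinuousLinearMap_apply]
  congr 1
  funext i
  fin_cases i <;> rfl

theorem schur_apply {h : Matrix (Fin m) (Fin m) ℝ} (hh : ∀ i j, h j i = - h i j)
    (η : (Cy m V) [⋀^Fin 2]→L[ℝ] ℝ) (u w : V) :
    schur h η ![u, w] = η ![(0, u), (0, w)] + ∑ i, ∑ j, h i j * (am η i u * am η j w) := by
  have e0 : schur h η ![u, w] = (1 / 2 : ℝ) * (schurB h η u w - schurB h η w u) := by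
    rw [← alt2_apply]; rfl
  rw [e0]
  simp only [schurB_apply]
  have e1 : (η ![((0 : Fin m → ℝ), w), (0, u)]) = - η ![(0, u), (0, w)] := anti _ _ _
  have e2 : ∑ i, ∑ j, h i j * (am η i w * am η j u) =
      - ∑ i, ∑ j, h i j * (am η i u * am η j w) := by
    rw [Finset.sum_comm, ← Finset.sum_neg_distrib]
    refine Finset.sum_congr rfl fun j _ => ?_
    rw [← Finset.sum_neg_distrib]
    refine Finset.sum_congr rfl fun i _ => ?_
    rw [hh j i]; ring
  rw [e1, e2]; ring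

/-- expansion of the first argument -/
theorem expand (η : (Cy m V) [⋀^Fin 2]→L[ℝ] ℝ) (s : Fin m → ℝ) (u : V) (y : Cy m V) :
    η ![(s, u), y] = (∑ i, s i * η ![bv V i, y]) + η ![(0, u), y] := by
  rw [← bil_apply, ← bil_apply]
  have e : ((s, u) : Cy m V) = (∑ i, s i • bv V i) + (0, u) := by
    ext1
    · simp only [Prod.fst_add, Prod.fst_sum, add_zero, Prod.smul_fst, bv]
      funext l
      simp [Finset.sum_apply, Pi.single_apply]
    · simp [Prod.snd_sum, bv]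
  rw [e, map_add, map_sum]
  simp [bil_apply]

theorem fm_skew (η : (Cy m V) [⋀^Fin 2]→L[ℝ] ℝ) (i j : Fin m) : fm η j i = - fm η i j :=
  anti _ _ _

theorem inv_skew {f : Matrix (Fin m) (Fin m) ℝ} (hf : ∀ i j, f j i = - f i j) (i j : Fin m) :
    f⁻¹ j i = - f⁻¹ i j := by
  have h1 : f.transpose = -f := by
    ext a b; rw [Matrix.transpose_apply, hf a b]; rfl
  have h2 : (f⁻¹).transpose = - f⁻¹ := by
    rw [Matrix.transpose_nonsing_inv, h1]
    by_cases hd : IsUnit f.det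
    · apply Matrix.inv_eq_left_inv
      rw [neg_mul_neg, Matrix.nonsing_inv_mul _ hd]
    · rw [Matrix.nonsing_inv_apply_not_isUnit _ hd]
      rw [neg_zero, Matrix.nonsing_inv_apply_not_isUnit]
      rw [Matrix.det_neg]
      intro h; exact hd (isUnit_of_mul_isUnit_right h)
  have := congrFun (congrFun h2 i) j
  simpa [Matrix.transpose_apply] using this

/-- The Schur complement of a nondegenerate form is nondegenerate. -/
theorem schur_nondeg (η : (Cy m V) [⋀^Fin 2]→L[ℝ] ℝ) (hdet : IsUnit (fm η).det)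
    (hη : ∀ v : Cy m V, (∀ w, η ![v, w] = 0) → v = 0) (u : V)
    (hu : ∀ w, schur (fm η)⁻¹ η ![u, w] = 0) : u = 0 := by
  set h := (fm η)⁻¹ with hh
  have hsk : ∀ i j, h j i = - h i j := inv_skew (fm_skew η)
  -- the lift of `u`
  let s : Fin m → ℝ := fun j => ∑ i, h i j * am η i u
  have h1 : ∀ y, (∀ w, η ![((s, u) : Cy m V), (0, w)] = 0) ∧
      (∀ l, η ![((s, u) : Cy m V), bv V l] = 0) → η ![((s, u) : Cy m V), y] = 0 := by
    rintro ⟨t, w⟩ ⟨ha, hb⟩
    rw [anti, expand]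
    have : ∀ i, η ![bv V i, ((s, u) : Cy m V)] = 0 := fun i => by rw [anti, hb, neg_zero]
    simp only [this, mul_zero, Finset.sum_const_zero, zero_add]
    rw [anti, ha]; simp
  have h2 : ∀ w, η ![((s, u) : Cy m V), (0, w)] = 0 := by
    intro w
    have := hu w
    rw [schur_apply hsk] at this
    rw [expand, ← this, add_comm]
    congr 1
    rw [Finset.sum_comm]
    refine Finset.sum_congr rfl fun j _ => ?_
    simp only [s, ← am_apply, Finset.sum_mul]
    refine Finset.sum_congr rfl fun i _ => ?_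
    ring
  have h3 : ∀ l, η ![((s, u) : Cy m V), bv V l] = 0 := by
    intro l
    rw [expand]
    have e1 : η ![((0 : Fin m → ℝ), u), bv V l] = - am η l u := by rw [am_apply, anti]
    have e2 : ∀ j, η ![bv V j, bv V l] = fm η j l := fun j => rfl
    simp only [e2, e1, s]
    have e3 : ∑ j, (∑ i, h i j * am η i u) * fm η j l = ∑ i, (h * fm η) i l * am η i u := by
      simp only [Matrix.mul_apply, Finset.sum_mul]
      rw [Finset.sum_comm]
      refine Finset.sum_congr rfl fun i _ => Finset.sum_congr rfl fun j _ => ?_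
      ring
    rw [e3, hh, Matrix.nonsing_inv_mul _ hdet]
    simp [Matrix.one_apply]
  have h4 := hη (s, u) (fun y => h1 y ⟨h2, h3⟩)
  exact (Prod.mk.injEq _ _ _ _ ▸ h4 : s = 0 ∧ u = 0).2

end Pool.Agent.Helper224_tor
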