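import Pool.Agent.Helper224_tor.Avg
import Pool.Agent.Helper224_tor.Lin

/-!
Closed forms on `ℝ^m × V`: the averaged form and its Schur complement.
-/

set_option autoImplicit false

open Set MeasureTheory Filter Topology
open scoped ContDiff

noncomputable section

namespace Pool.Agent.Helper224_tor

theorem ext_two {E : Type} [NormedAddCommGroup E] [NormedSpace ℝ E] (G : E → E [⋀^Fin 2]→L[ℝ] ℝ)
    (x a b c : E) : extDeriv G x ![a, b, c] =
      (fderiv ℝ G x a) ![b, c] - (fderiv ℝ G x b) ![a, c] + (fderiv ℝ G x c) ![a, b] := by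
  unfold extDeriv
  rw [ContinuousAlternatingMap.alternatizeUncurryFin_apply, Fin.sum_univ_three]
  have e0 : (0 : Fin 3).removeNth ![a, b, c] = ![b, c] := by
    funext i; fin_cases i <;> rfl
  have e1 : (1 : Fin 3).removeNth ![a, b, c] = ![a, c] := by
    funext i; fin_cases i <;> rfl
  have e2 : (2 : Fin 3).removeNth ![a, b, c] = ![a, b] := by
    funext i; fin_cases i <;> rfl
  rw [e0, e1, e2]
  simp
  ring

variable {m : ℕ} {V : Type} [NormedAddCommGroup V] [NormedSpace ℝ V]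

/-- the relation satisfied by the derivative of the average of a closed periodic form -/
def Rel (D : V →L[ℝ] ((Cy m V) [⋀^Fin 2]→L[ℝ] ℝ)) : Prop :=
  ∀ a b c : Cy m V, (D a.2) ![b, c] - (D b.2) ![a, c] + (D c.2) ![a, b] = 0

theorem rel_fm {D : V →L[ℝ] ((Cy m V) [⋀^Fin 2]→L[ℝ] ℝ)} (hD : Rel D) (v : V) (i j : Fin m) :
    (D v) ![bv V i, bv V j] = 0 := by
  have := hD (0, v) (bv V i) (bv V j)
  simpa [bv] using this

theorem rel_am {D : V →L[ℝ] ((Cy m V) [⋀^Fin 2]→L[ℝ] ℝ)} (hD : Rel D) (v w : V) (i : Fin m) :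
    am (D v) i w = am (D w) i v := by
  have h := hD (0, v) (bv V i) (0, w)
  rw [am_apply, am_apply, anti (D w)]
  have e : (D (bv V i : Cy m V).2) = 0 := by simp [bv]
  rw [e] at h
  have e0 : (0 : (Cy m V) [⋀^Fin 2]→L[ℝ] ℝ) ![((0 : Fin m → ℝ), v), (0, w)] = 0 := rfl
  rw [e0] at h
  change (D v) ![bv V i, (0, w)] - 0 + (D w) ![(0, v), bv V i] = 0 at h
  linarith

theorem rel_zz {D : V →L[ℝ] ((Cy m V) [⋀^Fin 2]→L[ℝ] ℝ)} (hD : Rel D) (u v w : V) :
    (D u) ![((0 : Fin m → ℝ), v), (0, w)] - (D v) ![((0 : Fin m → ℝ), u), (0, w)] +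
      (D w) ![((0 : Fin m → ℝ), u), (0, v)] = 0 := hD (0, u) (0, v) (0, w)

theorem am_smooth (i : Fin m) : ContDiff ℝ ∞ (fun η : (Cy m V) [⋀^Fin 2]→L[ℝ] ℝ => am η i) := by
  unfold am
  have h1 : ContDiff ℝ ∞ (fun η : (Cy m V) [⋀^Fin 2]→L[ℝ] ℝ => bil (Cy m V) η (bv V i)) :=
    (bil (Cy m V)).contDiff.clm_apply contDiff_const
  exact h1.clm_comp contDiff_const

theorem schurB_smooth (h : Matrix (Fin m) (Fin m) ℝ) :
    ContDiff ℝ ∞ (fun η : (Cy m V) [⋀^Fin 2]→L[ℝ] ℝ => schurB h η) := by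
  unfold schurB
  refine ContDiff.add ?_ ?_
  · have h1 : ContDiff ℝ ∞ (fun η : (Cy m V) [⋀^Fin 2]→L[ℝ] ℝ =>
        η.compContinuousLinearMap (ContinuousLinearMap.inr ℝ (Fin m → ℝ) V)) :=
      (ContinuousAlternatingMap.compContinuousLinearMapCLM (F := ℝ) (ι := Fin 2)
        (ContinuousLinearMap.inr ℝ (Fin m → ℝ) V)).contDiff
    have h2 : ContDiff ℝ ∞ (fun ζ : V [⋀^Fin 2]→L[ℝ] ℝ => bil V ζ) := by
      fun_prop
    exact h2.comp h1
  · refine ContDiff.sum fun i _ => ContDiff.sum fun j _ => ?_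
    have h3 : ContDiff ℝ ∞ (fun η : (Cy m V) [⋀^Fin 2]→L[ℝ] ℝ =>
        (am η i).smulRight (am η j)) := (am_smooth (V := V) i).smulRight (am_smooth (V := V) j)
    exact h3.const_smul (h i j)

theorem schur_smooth (h : Matrix (Fin m) (Fin m) ℝ) :
    ContDiff ℝ ∞ (fun η : (Cy m V) [⋀^Fin 2]→L[ℝ] ℝ => schur h η) := by
  unfold schur
  have h2 : ContDiff ℝ ∞ (fun A : V →L[ℝ] V →L[ℝ] ℝ => alt2 V A) := by
    fun_prop
  have h3 : ContDiff ℝ ∞ (fun η : (Cy m V) [⋀^Fin 2]→L[ℝ] ℝ => alt2 V (schurB h η)) :=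
    h2.comp (schurB_smooth (V := V) h)
  exact h3.const_smul (1 / 2 : ℝ)

theorem schur_closed {h : Matrix (Fin m) (Fin m) ℝ} (hh : ∀ i j, h j i = - h i j)
    {E : V → (Cy m V) [⋀^Fin 2]→L[ℝ] ℝ} {D : V →L[ℝ] ((Cy m V) [⋀^Fin 2]→L[ℝ] ℝ)} {p : V}
    (hE : HasFDerivAt E D p) (hD : Rel D) : extDeriv (fun y => schur h (E y)) p = 0 := by
  have hdiff : DifferentiableAt ℝ (fun y => schur h (E y)) p :=
    ((schur_smooth (V := V) h).contDiffAt.differentiableAt (by simp)).comp p hE.differentiableAt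
  have hev : ∀ x z : Cy m V, HasFDerivAt (fun y => E y ![x, z])
      ((ContinuousAlternatingMap.apply ℝ (Cy m V) ℝ ![x, z]).comp D) p := fun x z =>
    (ContinuousAlternatingMap.apply ℝ (Cy m V) ℝ ![x, z]).hasFDerivAt.comp p hE
  have key : ∀ v u w : V, (fderiv ℝ (fun y => schur h (E y)) p v) ![u, w] =
      (D v) ![((0 : Fin m → ℝ), u), (0, w)] + ∑ i, ∑ j, h i j *
        (am (D v) i u * am (E p) j w + am (E p) i u * am (D v) j w) := by
    intro v u w
    have h1 : HasFDerivAt (fun y => schur h (E y) ![u, w])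
        ((ContinuousAlternatingMap.apply ℝ V ℝ ![u, w]).comp
          (fderiv ℝ (fun y => schur h (E y)) p)) p :=
      (ContinuousAlternatingMap.apply ℝ V ℝ ![u, w]).hasFDerivAt.comp p hdiff.hasFDerivAt
    have h2 : HasFDerivAt (fun y => schur h (E y) ![u, w])
        ((ContinuousAlternatingMap.apply ℝ (Cy m V) ℝ ![((0 : Fin m → ℝ), u), (0, w)]).comp D +
          ∑ i, ∑ j, h i j • ((E p ![bv V i, (0, u)]) •
            (ContinuousAlternatingMap.apply ℝ (Cy m V) ℝ ![bv V j, (0, w)]).comp D +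
            (E p ![bv V j, (0, w)]) •
            (ContinuousAlternatingMap.apply ℝ (Cy m V) ℝ ![bv V i, (0, u)]).comp D)) p := by
      have e : (fun y => schur h (E y) ![u, w]) = fun y => E y ![((0 : Fin m → ℝ), u), (0, w)] +
          ∑ i, ∑ j, h i j * (E y ![bv V i, (0, u)] * E y ![bv V j, (0, w)]) := by
        funext y
        rw [schur_apply hh]
        simp only [am_apply]
      rw [e]
      refine (hev _ _).add ?_
      refine HasFDerivAt.fun_sum fun i _ => HasFDerivAt.fun_sum fun j _ => ?_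
      exact ((hev _ _).mul (hev _ _)).const_mul _
    have h3 := congrArg (fun L : V →L[ℝ] ℝ => L v) (h1.unique h2)
    simp only [ContinuousLinearMap.comp_apply, ContinuousAlternatingMap.apply_apply,
      add_apply, sum_apply, smul_apply, smul_eq_mul] at h3
    rw [h3]
    congr 1
    refine Finset.sum_congr rfl fun i _ => Finset.sum_congr rfl fun j _ => ?_
    simp only [am_apply]
    ring
  ext v
  have hv : v = ![v 0, v 1, v 2] := by
    funext i; fin_cases i <;> rfl
  rw [hv, ext_two, key, key, key]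
  generalize v 0 = a
  generalize v 1 = b
  generalize v 2 = c
  have hz := rel_zz hD a b c
  have hs : (∑ i, ∑ j, h i j * (am (D a) i b * am (E p) j c + am (E p) i b * am (D a) j c)) -
      (∑ i, ∑ j, h i j * (am (D b) i a * am (E p) j c + am (E p) i a * am (D b) j c)) +
      (∑ i, ∑ j, h i j * (am (D c) i a * am (E p) j b + am (E p) i a * am (D c) j b)) = 0 := by
    have e1 : ∀ i j, h i j * (am (D a) i b * am (E p) j c + am (E p) i b * am (D a) j c) -
        h i j * (am (D b) i a * am (E p) j c + am (E p) i a * am (D b) j c) +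
        h i j * (am (D c) i a * am (E p) j b + am (E p) i a * am (D c) j b) =
        h i j * (am (E p) i b * am (D a) j c) + h i j * (am (D a) i c * am (E p) j b) := by
      intro i j
      rw [rel_am hD b a i, rel_am hD c a i, rel_am hD b c j]
      ring
    rw [← Finset.sum_sub_distrib, ← Finset.sum_add_distrib]
    simp only [← Finset.sum_sub_distrib, ← Finset.sum_add_distrib, e1]
    simp only [Finset.sum_add_distrib]
    have e2 : ∑ i, ∑ j, h i j * (am (D a) i c * am (E p) j b) =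
        - ∑ i, ∑ j, h i j * (am (E p) i b * am (D a) j c) := by
      rw [Finset.sum_comm, ← Finset.sum_neg_distrib]
      refine Finset.sum_congr rfl fun j _ => ?_
      rw [← Finset.sum_neg_distrib]
      refine Finset.sum_congr rfl fun i _ => ?_
      rw [hh j i]; ring
    rw [e2]; ring
  change _ = (0 : ℝ)
  linarith

end Pool.Agent.Helper224_tor
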