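import Pool.Agent.Helper224_tor.Main

/-!
Closed forms on the product of a torus of even dimension with `P`: the results.
-/

set_option autoImplicit false

open Set MeasureTheory Filter Topology
open scoped Manifold ContDiff

noncomputable section

namespace Pool.Agent.Helper224_tor

open Pool.Agent.Y501.SYP

variable {m : ℕ} {V : Type} [NormedAddCommGroup V] [NormedSpace ℝ V] [FiniteDimensional ℝ V]
  {P : Type} [TopologicalSpace P] [ChartedSpace V P]

theorem mean_pos [IsManifold 𝓘(ℝ, V) ∞ P] {σ : FormC V P m} (hs : IsSmooth σ) {x : P}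
    {v w : Cy m V} (h : ∀ t, 0 < val σ t x ![v, w]) : 0 < mean σ x ![v, w] := by
  have hc := val_cont hs x
  have hi : IntegrableOn (fun t => val σ t x) (Icc (0 : Fin m → ℝ) 1) :=
    hc.continuousOn.integrableOn_compact isCompact_Icc
  have h1 := (ContinuousAlternatingMap.apply ℝ (Cy m V) ℝ ![v, w]).integral_comp_comm hi
  have h2 := (ContinuousAlternatingMap.apply ℝ (Cy m V) ℝ ![v, w]).integrable_comp hi
  simp only [ContinuousAlternatingMap.apply_apply] at h1 h2
  unfold mean
  rw [← h1, setIntegral_pos_iff_support_of_nonneg_ae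
    (Filter.Eventually.of_forall fun t => (h t).le) h2]
  have e : (Function.support fun t => val σ t x ![v, w]) = univ := by
    ext t; simp [(h t).ne']
  rw [e, univ_inter, Real.volume_Icc_pi]
  simp

theorem criterion [IsManifold 𝓘(ℝ, V) ∞ P] [CompactSpace P] (k : ℕ) {σ : FormC V P (2 * k)}
    (hs : IsSmooth σ) (hc : IsClosedForm σ) (hper : Periodic σ)
    (hpos : ∀ (x : P) (v : Cy (2 * k) V), v ≠ 0 → ∃ w, ∀ t, 0 < val σ t x ![v, w]) :
    ∃ β : Form V P 2, IsSymplectic β := by
  obtain ⟨g, hg, hg0⟩ := exists_skew k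
  refine main hs hc hper (fun x v hv => ?_) hg hg0
  by_contra hne
  obtain ⟨w, hw⟩ := hpos x v hne
  exact (mean_pos hs hw).ne' (hv w)

end Pool.Agent.Helper224_tor
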