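import Pool.Agent.Helper224_tor.Red

/-!
From a closed form on `T^(n + r) × P` with nondegenerate mean to an invariant symplectic form on
`T^r × P`, for even `n`.
-/

set_option autoImplicit false

open Set MeasureTheory Filter Topology
open scoped Manifold ContDiff

noncomputable section

namespace Pool.Agent.Helper224_tor

open Pool.Agent.Y501.SYP

variable {n r : ℕ} {V : Type} [NormedAddCommGroup V] [NormedSpace ℝ V] [FiniteDimensional ℝ V]
  {P : Type} [TopologicalSpace P] [ChartedSpace V P]

omit [FiniteDimensional ℝ V] in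
theorem fm_ap (η : (Cy (n + r) V) [⋀^Fin 2]→L[ℝ] ℝ) :
    fm (η.compContinuousLinearMap (ap n r V)) =
      fun i j => fm η (Fin.castAdd r i) (Fin.castAdd r j) := by
  funext i j
  change (η.compContinuousLinearMap (ap n r V)) ![bv (Cy r V) i, bv (Cy r V) j] = _
  rw [comp_two, ap_bv, ap_bv]
  rfl

/-- the form on `ℝ^r × P` -/
def tau (h : P → Matrix (Fin n) (Fin n) ℝ) (σ : FormC V P (n + r)) : FormC V P r :=
  fun q => (schur (V := Cy r V) (h q.2)
    ((mean σ q.2).compContinuousLinearMap (ap n r V)) : (Cy r V) [⋀^Fin 2]→L[ℝ] ℝ)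

theorem forward [IsManifold 𝓘(ℝ, V) ∞ P] [CompactSpace P] {σ : FormC V P (n + r)}
    (hs : IsSmooth σ) (hc : IsClosedForm σ) (hper : Periodic σ) (hnd : ∀ x, ND (mean σ x))
    {g : Matrix (Fin n) (Fin n) ℝ} (hg : ∀ i j, g j i = - g i j) (hg0 : g.det ≠ 0) :
    ∃ τ : FormC V P r, IsSymplectic τ ∧ ∀ s, InvForm s τ := by
  set C0 : (Cy (n + r) V) [⋀^Fin 2]→L[ℝ] ℝ :=
    (cf (Cy r V) g).compContinuousLinearMap (pa n r V) with hC0
  have hC : ∀ (φ : V → P) (p : V), C0.compContinuousLinearMap (pd (n + r) φ p) = C0 := by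
    intro φ p
    apply alt_ext
    intro a b
    rw [comp_two, hC0, comp_two, comp_two, cf_apply hg, cf_apply hg]
    rfl
  obtain ⟨δ, hδ, huni⟩ := uniform_nd hs hC hnd
  let et : P → (Cy n (Cy r V)) [⋀^Fin 2]→L[ℝ] ℝ := fun x =>
    (mean σ x).compContinuousLinearMap (ap n r V)
  have hloc : IsLocallyConstant fun x : P => fm (et x) := by
    have h1 := (fm_loc hs hc hper).comp (fun (M : Matrix (Fin (n + r)) (Fin (n + r)) ℝ) =>
      (fun i j => M (Fin.castAdd r i) (Fin.castAdd r j) : Matrix (Fin n) (Fin n) ℝ))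
    have h2 : (fun x : P => fm (et x)) = ((fun (M : Matrix (Fin (n + r)) (Fin (n + r)) ℝ) =>
      (fun i j => M (Fin.castAdd r i) (Fin.castAdd r j) : Matrix (Fin n) (Fin n) ℝ)) ∘
        fun x : P => fm (mean σ x)) := by
      funext x
      exact fm_ap (mean σ x)
    rw [h2]; exact h1
  have hfin : (Set.range fun x : P => fm (et x)).Finite := hloc.range_finite
  have hbad : (⋃ f ∈ (Set.range fun x : P => fm (et x)),
      {ε : ℝ | (f + ε • g).det = 0}).Finite :=
    hfin.biUnion fun f _ => finite_bad f g hg0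
  obtain ⟨ε, hε, hεb⟩ := ((Set.Ioo_infinite hδ).sdiff hbad).nonempty
  have hdet : ∀ x : P, (fm (et x) + ε • g).det ≠ 0 := by
    intro x h
    apply hεb
    simp only [mem_iUnion]
    exact ⟨_, ⟨x, rfl⟩, h⟩
  let hx : P → Matrix (Fin n) (Fin n) ℝ := fun x => (fm (et x) + ε • g)⁻¹
  have hsk : ∀ x i j, hx x j i = - hx x i j := by
    intro x
    refine inv_skew fun i j => ?_
    simp only [Matrix.add_apply, Matrix.smul_apply, smul_eq_mul, fm_skew _ i j, hg i j]
    ring
  have hval : ∀ (t : Fin r → ℝ) (x : P), val (tau hx σ) t x = schur (hx x) (et x) :=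
    fun t x => rfl
  -- the form in coordinates
  have hev : ∀ (x₀ : P) (z : (Fin r → ℝ) × V), z.2 ∈ (chartAt V x₀).target →
      co (chartAt V x₀).symm (tau hx σ) =ᶠ[𝓝 z] fun y : Cy r V =>
        schur (hx ((chartAt V x₀).symm z.2))
          ((avg (co (chartAt V x₀).symm σ) y.2).compContinuousLinearMap (ap n r V)) := by
    intro x₀ z hz
    have hφ := chart_param (V := V) x₀
    have h1 := fm_const hs hc hper hφ hz
    have h2 : Tendsto (fun y : (Fin r → ℝ) × V => y.2) (𝓝 z) (𝓝 z.2) :=
      continuous_snd.continuousAt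
    filter_upwards [h2.eventually h1] with y hy
    have e1 : hx ((chartAt V x₀).symm y.2) = hx ((chartAt V x₀).symm z.2) := by
      have : fm (et ((chartAt V x₀).symm y.2)) = fm (et ((chartAt V x₀).symm z.2)) := by
        simp only [et, fm_ap, hy.2]
        all_goals rfl
      simp only [hx, this]
    have e2 := co_eq hφ (tau hx σ) hy.1 y.1
    have e3 : co (chartAt V x₀).symm (tau hx σ) y =
      (val (tau hx σ) y.1 ((chartAt V x₀).symm y.2)).compContinuousLinearMap
        (pd r (chartAt V x₀).symm y.2) := e2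
    rw [e3, hval, ← schur_compL (hsk _), avg_co hφ hs hy.1, ← e1]
    congr 1
    apply alt_ext
    intro a b
    simp only [et, comp_two]
    rw [ap_pd, ap_pd]
  have hsc : IsSmooth (tau hx σ) ∧ IsClosedForm (tau hx σ) := by
    have key : ∀ (q : Cyl r P), ∀ z ∈ (chartAt ((Fin r → ℝ) × V) q).target,
        ContDiffAt ℝ ∞ (pb (chartAt ((Fin r → ℝ) × V) q).symm (tau hx σ)) z ∧
        extDeriv (pb (chartAt ((Fin r → ℝ) × V) q).symm (tau hx σ)) z = 0 := by
      intro q z hz
      have hz2 : z.2 ∈ (chartAt V q.2).target := by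
        have : z ∈ (univ : Set (Fin r → ℝ)) ×ˢ (chartAt V q.2).target := hz
        exact this.2
      have hpb : pb (chartAt ((Fin r → ℝ) × V) q).symm (tau hx σ) =
        co (chartAt V q.2).symm (tau hx σ) := rfl
      rw [hpb]
      have hφ := chart_param (V := V) q.2
      set φ := (chartAt V q.2).symm with hφd
      have hF := co_smooth hφ hs
      have hE : HasFDerivAt (fun y : Cy r V =>
          (avg (co φ σ) y.2).compContinuousLinearMap (ap n r V))
          ((ContinuousAlternatingMap.compContinuousLinearMapCLM (F := ℝ) (ι := Fin 2)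
            (ap n r V)).comp ((avg (par (co φ σ)) z.2).comp
              (ContinuousLinearMap.snd ℝ (Fin r → ℝ) V))) z := by
        have h1 : HasFDerivAt (fun y : Cy r V => avg (co φ σ) y.2)
            ((avg (par (co φ σ)) z.2).comp (ContinuousLinearMap.snd ℝ (Fin r → ℝ) V)) z :=
          (avg_hasFDerivAt hφ.1 hF hz2).comp z hasFDerivAt_snd
        exact (ContinuousAlternatingMap.compContinuousLinearMapCLM (F := ℝ) (ι := Fin 2)
            (ap n r V)).hasFDerivAt.comp z h1
      have hrel : Rel (avg (par (co φ σ)) z.2) :=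
        avg_rel hφ.1 hF hz2 (fun i t => co_per hφ hper hz2 i t) (fun t => co_closed hφ hc hz2 t)
      have hrel' : Rel ((ContinuousAlternatingMap.compContinuousLinearMapCLM (F := ℝ) (ι := Fin 2)
            (ap n r V)).comp ((avg (par (co φ σ)) z.2).comp
              (ContinuousLinearMap.snd ℝ (Fin r → ℝ) V))) := by
        intro a b c
        have := hrel (ap n r V a) (ap n r V b) (ap n r V c)
        rw [← comp_two, ← comp_two, ← comp_two] at this
        exact this
      constructor
      · have h2 : ContDiffAt ℝ ∞ (avg (co φ σ)) z.2 :=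
          (avg_smooth hφ.1 hF).contDiffAt (hφ.1.mem_nhds hz2)
        have h3 : ContDiffAt ℝ ∞ (fun y : Cy r V => avg (co φ σ) y.2) z :=
          h2.comp z contDiffAt_snd
        have h4 : ContDiffAt ℝ ∞ (fun y : Cy r V =>
            (avg (co φ σ) y.2).compContinuousLinearMap (ap n r V)) z :=
          pull_smooth h3 contDiffAt_const
        exact ((schur_smooth (V := Cy r V) (hx (φ z.2))).contDiffAt.comp z h4).congr_of_eventuallyEq
          (hev q.2 z hz2)
      · rw [(hev q.2 z hz2).extDeriv_eq]
        exact schur_closed (hsk (φ z.2)) hE hrel'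
    exact of_charts _ (fun q z hz => (key q z hz).1.contDiffWithinAt) (fun q z hz => (key q z hz).2)
  refine ⟨tau hx σ, ⟨hsc.1, hsc.2, ?_⟩, ?_⟩
  · intro q v hv
    set x := q.2 with hxd
    have hN := huni x ε (by rw [abs_of_pos hε.1]; exact hε.2)
    have hN' : ND (et x + ε • cf (Cy r V) g) := by
      have h1 := (ND_comp (ap_bij (n := n) (r := r) (V := V)) (mean σ x + ε • C0)).2 hN
      have h2 : (mean σ x + ε • C0).compContinuousLinearMap (ap n r V) =
          et x + ε • cf (Cy r V) g := by
        apply alt_ext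
        intro a b
        rw [comp_two]
        change mean σ x ![ap n r V a, ap n r V b] + ε * C0 ![ap n r V a, ap n r V b] =
          ((mean σ x).compContinuousLinearMap (ap n r V)) ![a, b] + ε * cf (Cy r V) g ![a, b]
        rw [comp_two, pa_ap, pa_ap, comp_two]
      rwa [h2] at h1
    have hfm : fm (et x + ε • cf (Cy r V) g) = fm (et x) + ε • g := fm_cf hg _ _
    refine schur_nondeg (et x + ε • cf (Cy r V) g) ?_ hN' v ?_
    · rw [hfm]; exact (hdet x).isUnit
    · intro w
      rw [hfm, schur_cf hg (hsk x)]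
      exact hv w
  · intro s q v w
    have e1 := dshift_apply (V := V) s q v
    have e2 := dshift_apply (V := V) s q w
    have e3 : ∀ (x₁ x' y y' : Cy r V), x₁ = x' → y = y' →
        (schur (hx q.2) (et q.2)) ![x₁, y] = (schur (hx q.2) (et q.2)) ![x', y'] := by
      rintro x₁ _ y _ rfl rfl; rfl
    exact e3 _ _ _ _ e1 e2

end Pool.Agent.Helper224_tor
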