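import Pool.Agent.Helper224_tor.Mean

/-!
A closed form on the product of a torus of even dimension with `P`, whose mean over the torus is
nondegenerate, gives a symplectic form on `P`.
-/

set_option autoImplicit false

open Set MeasureTheory Filter Topology
open scoped Manifold ContDiff

noncomputable section

namespace Pool.Agent.Helper224_tor

open Pool.Agent.Y501.SYP

section nondeg

variable {E : Type} [NormedAddCommGroup E] [NormedSpace ℝ E]

/-- nondegenerate forms -/
def ND (η : E [⋀^Fin 2]→L[ℝ] ℝ) : Prop := ∀ v, (∀ w, η ![v, w] = 0) → v = 0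

theorem ND_iff (η : E [⋀^Fin 2]→L[ℝ] ℝ) : ND η ↔ Function.Injective (bil E η) := by
  rw [injective_iff_map_eq_zero]
  constructor
  · intro h v hv
    exact h v fun w => by rw [← bil_apply, hv]; rfl
  · intro h v hv
    refine h v ?_
    ext w
    rw [bil_apply]; exact hv w

theorem ND_open [FiniteDimensional ℝ E] : IsOpen {η : E [⋀^Fin 2]→L[ℝ] ℝ | ND η} := by
  have h1 : IsOpen {L : E →L[ℝ] (E →L[ℝ] ℝ) | Function.Injective L} :=
    ContinuousLinearMap.isOpen_injective
  have h2 : Continuous fun η : E [⋀^Fin 2]→L[ℝ] ℝ => bil E η := by fun_prop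
  have h3 := h1.preimage h2
  convert h3 using 1
  ext η
  exact ND_iff η

theorem ND_comp {F : Type} [NormedAddCommGroup F] [NormedSpace ℝ F] {L : E →L[ℝ] F}
    (hL : Function.Bijective L) (η : F [⋀^Fin 2]→L[ℝ] ℝ) :
    ND (η.compContinuousLinearMap L) ↔ ND η := by
  constructor
  · intro h v hv
    obtain ⟨v', rfl⟩ := hL.2 v
    have := h v' fun w => by rw [comp_two]; exact hv _
    rw [this, map_zero]
  · intro h v hv
    have := h (L v) fun w => by
      obtain ⟨w', rfl⟩ := hL.2 w
      have := hv w'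
      rwa [comp_two] at this
    exact hL.1 (by rw [this, map_zero])

end nondeg

variable {m : ℕ} {V : Type} [NormedAddCommGroup V] [NormedSpace ℝ V] [FiniteDimensional ℝ V]
  {P : Type} [TopologicalSpace P] [ChartedSpace V P]

/-- the constant form of the torus with the skew matrix `g` -/
def cf (V : Type) [NormedAddCommGroup V] [NormedSpace ℝ V] (g : Matrix (Fin m) (Fin m) ℝ) :
    (Cy m V) [⋀^Fin 2]→L[ℝ] ℝ :=
  (1 / 2 : ℝ) • alt2 (Cy m V) (∑ i, ∑ j, g i j •
    (((ContinuousLinearMap.proj (R := ℝ) (φ := fun _ : Fin m => ℝ) i).comp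
        (ContinuousLinearMap.fst ℝ (Fin m → ℝ) V)).smulRight
      ((ContinuousLinearMap.proj (R := ℝ) (φ := fun _ : Fin m => ℝ) j).comp
        (ContinuousLinearMap.fst ℝ (Fin m → ℝ) V))))

omit [FiniteDimensional ℝ V] in
theorem cf_apply {g : Matrix (Fin m) (Fin m) ℝ} (hg : ∀ i j, g j i = - g i j) (a b : Cy m V) :
    cf V g ![a, b] = ∑ i, ∑ j, g i j * (a.1 i * b.1 j) := by
  have e0 : ∀ c d : Cy m V, (∑ i, ∑ j, g i j •
    (((ContinuousLinearMap.proj (R := ℝ) (φ := fun _ : Fin m => ℝ) i).comp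
        (ContinuousLinearMap.fst ℝ (Fin m → ℝ) V)).smulRight
      ((ContinuousLinearMap.proj (R := ℝ) (φ := fun _ : Fin m => ℝ) j).comp
        (ContinuousLinearMap.fst ℝ (Fin m → ℝ) V))) : Cy m V →L[ℝ] Cy m V →L[ℝ] ℝ) c d =
        ∑ i, ∑ j, g i j * (c.1 i * d.1 j) := by
    intro c d
    simp only [sum_apply, smul_apply, ContinuousLinearMap.smulRight_apply,
      ContinuousLinearMap.comp_apply, smul_eq_mul]
    rfl
  have e1 : cf V g ![a, b] = (1 / 2 : ℝ) * ((∑ i, ∑ j, g i j * (a.1 i * b.1 j)) -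
      ∑ i, ∑ j, g i j * (b.1 i * a.1 j)) := by
    rw [← e0, ← e0, ← alt2_apply]; rfl
  have e2 : ∑ i, ∑ j, g i j * (b.1 i * a.1 j) = - ∑ i, ∑ j, g i j * (a.1 i * b.1 j) := by
    rw [Finset.sum_comm, ← Finset.sum_neg_distrib]
    refine Finset.sum_congr rfl fun j _ => ?_
    rw [← Finset.sum_neg_distrib]
    refine Finset.sum_congr rfl fun i _ => ?_
    rw [hg j i]; ring
  rw [e1, e2]; ring

omit [FiniteDimensional ℝ V] in
theorem fm_cf {g : Matrix (Fin m) (Fin m) ℝ} (hg : ∀ i j, g j i = - g i j)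
    (η : (Cy m V) [⋀^Fin 2]→L[ℝ] ℝ) (ε : ℝ) : fm (η + ε • cf V g) = fm η + ε • g := by
  ext i j
  have : cf V g ![bv V i, bv V j] = g i j := by
    rw [cf_apply hg]
    simp [bv, Pi.single_apply]
  change η ![bv V i, bv V j] + ε * cf V g ![bv V i, bv V j] = η ![bv V i, bv V j] + ε * g i j
  rw [this]

omit [FiniteDimensional ℝ V] in
theorem am_cf {g : Matrix (Fin m) (Fin m) ℝ} (hg : ∀ i j, g j i = - g i j)
    (η : (Cy m V) [⋀^Fin 2]→L[ℝ] ℝ) (ε : ℝ) (i : Fin m) (u : V) :
    am (η + ε • cf V g) i u = am η i u := by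
  rw [am_apply, am_apply]
  have : cf V g ![bv V i, ((0 : Fin m → ℝ), u)] = 0 := by
    rw [cf_apply hg]
    simp
  change η ![bv V i, (0, u)] + ε * cf V g ![bv V i, (0, u)] = η ![bv V i, (0, u)]
  rw [this]; ring

omit [FiniteDimensional ℝ V] in
theorem schur_cf {g h : Matrix (Fin m) (Fin m) ℝ} (hg : ∀ i j, g j i = - g i j)
    (hh : ∀ i j, h j i = - h i j) (η : (Cy m V) [⋀^Fin 2]→L[ℝ] ℝ) (ε : ℝ) :
    schur h (η + ε • cf V g) = schur h η := by
  apply alt_ext
  intro u w
  rw [schur_apply hh, schur_apply hh]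
  simp only [am_cf hg]
  congr 1
  have : cf V g ![((0 : Fin m → ℝ), u), (0, w)] = 0 := by
    rw [cf_apply hg]
    simp
  change η ![(0, u), (0, w)] + ε * cf V g ![(0, u), (0, w)] = η ![(0, u), (0, w)]
  rw [this]; ring

omit [FiniteDimensional ℝ V] in
theorem fm_comp (η : (Cy m V) [⋀^Fin 2]→L[ℝ] ℝ) (φ : V → P) (p : V) :
    fm (η.compContinuousLinearMap (pd m φ p)) = fm η := by
  have e : ∀ i : Fin m, pd m φ p (bv V i) = bv V i := by
    intro i
    rw [pd_apply]
    exact Prod.ext rfl (map_zero (dm φ p))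
  ext i j
  change (η.compContinuousLinearMap (pd m φ p)) ![bv V i, bv V j] = η ![bv V i, bv V j]
  rw [comp_two, e, e]

omit [FiniteDimensional ℝ V] in
theorem schur_compL {h : Matrix (Fin m) (Fin m) ℝ} (hh : ∀ i j, h j i = - h i j)
    (η : (Cy m V) [⋀^Fin 2]→L[ℝ] ℝ) (L : V →L[ℝ] V) :
    schur h (η.compContinuousLinearMap (pr (ContinuousLinearMap.id ℝ (Fin m → ℝ)) L)) =
      (schur h η).compContinuousLinearMap L := by
  have e : ∀ i : Fin m, pr (ContinuousLinearMap.id ℝ (Fin m → ℝ)) L (bv V i) = bv V i := by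
    intro i
    exact Prod.ext rfl (map_zero L)
  have e' : ∀ u : V, pr (ContinuousLinearMap.id ℝ (Fin m → ℝ)) L ((0 : Fin m → ℝ), u) =
    (0, L u) := fun u => rfl
  apply alt_ext
  intro u w
  rw [comp_two, schur_apply hh, schur_apply hh]
  simp only [am_apply, comp_two, e, e']

omit [FiniteDimensional ℝ V] in
theorem schur_comp {h : Matrix (Fin m) (Fin m) ℝ} (hh : ∀ i j, h j i = - h i j)
    (η : (Cy m V) [⋀^Fin 2]→L[ℝ] ℝ) (φ : V → P) (p : V) :
    schur h (η.compContinuousLinearMap (pd m φ p)) =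
      (schur h η).compContinuousLinearMap (dm φ p) := schur_compL hh η _

omit [FiniteDimensional ℝ V] in
theorem cf_comp {g : Matrix (Fin m) (Fin m) ℝ} (hg : ∀ i j, g j i = - g i j) (φ : V → P) (p : V) :
    (cf V g).compContinuousLinearMap (pd m φ p) = cf V g := by
  apply alt_ext
  intro a b
  rw [comp_two, cf_apply hg, cf_apply hg]
  rfl

/-- The coefficients of the mean in the torus directions are locally constant along `φ`. -/
theorem fm_const [IsManifold 𝓘(ℝ, V) ∞ P] {σ : FormC V P m} (hs : IsSmooth σ)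
    (hc : IsClosedForm σ) (hper : Periodic σ) {U : Set V} {φ : V → P} (hφ : SmoothParam U φ)
    {p : V} (hp : p ∈ U) : ∀ᶠ y in 𝓝 p, y ∈ U ∧ fm (mean σ (φ y)) = fm (mean σ (φ p)) := by
  obtain ⟨r, hr, hrU⟩ := Metric.isOpen_iff.1 hφ.1 p hp
  filter_upwards [Metric.ball_mem_nhds p hr] with y hy
  refine ⟨hrU hy, ?_⟩
  have hF := co_smooth hφ hs
  have hder : ∀ z ∈ U, ∀ i j : Fin m, HasFDerivAt (fun x => avg (co φ σ) x ![bv V i, bv V j])
      (0 : V →L[ℝ] ℝ) z := by
    intro z hz i j
    have h1 := (ContinuousAlternatingMap.apply ℝ (Cy m V) ℝ ![bv V i, bv V j]).hasFDerivAt.comp z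
      (avg_hasFDerivAt hφ.1 hF hz)
    have hrel : Rel (avg (par (co φ σ)) z) :=
      avg_rel hφ.1 hF hz (fun i t => co_per hφ hper hz i t) (fun t => co_closed hφ hc hz t)
    have e : (ContinuousAlternatingMap.apply ℝ (Cy m V) ℝ ![bv V i, bv V j]).comp
        (avg (par (co φ σ)) z) = 0 := by
      ext v
      exact rel_fm hrel v i j
    rw [e] at h1
    exact h1
  ext i j
  have hconst := (convex_ball p r).is_const_of_fderivWithin_eq_zero (𝕜 := ℝ)
    (f := fun x => avg (co φ σ) x ![bv V i, bv V j])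
    (fun z hz => (hder z (hrU hz) i j).differentiableAt.differentiableWithinAt)
    (fun z hz => by
      rw [fderivWithin_of_isOpen Metric.isOpen_ball hz]
      exact (hder z (hrU hz) i j).fderiv)
    hy (Metric.mem_ball_self hr)
  have e1 : ∀ z ∈ U, avg (co φ σ) z ![bv V i, bv V j] = fm (mean σ (φ z)) i j := by
    intro z hz
    rw [avg_co hφ hs hz]
    exact congrFun (congrFun (fm_comp (mean σ (φ z)) φ z) i) j
  have hconst' : avg (co φ σ) y ![bv V i, bv V j] = avg (co φ σ) p ![bv V i, bv V j] := hconst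
  rwa [e1 y (hrU hy), e1 p hp] at hconst'

theorem fm_loc [IsManifold 𝓘(ℝ, V) ∞ P] {σ : FormC V P m} (hs : IsSmooth σ)
    (hc : IsClosedForm σ) (hper : Periodic σ) : IsLocallyConstant fun x : P => fm (mean σ x) := by
  rw [IsLocallyConstant.iff_eventually_eq]
  intro x
  have h1 := fm_const hs hc hper (chart_param (V := V) x) (mem_chart_target V x)
  have h2 := (chartAt V x).continuousAt (mem_chart_source V x)
  have h3 := h2.eventually h1
  filter_upwards [h3, (chartAt V x).open_source.mem_nhds (mem_chart_source V x)] with y hy hys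
  have := hy.2
  rwa [(chartAt V x).left_inv hys, (chartAt V x).left_inv (mem_chart_source V x)] at this

/-- Nondegeneracy of the mean is stable, uniformly in `x`. -/
theorem uniform_nd [IsManifold 𝓘(ℝ, V) ∞ P] [CompactSpace P] {σ : FormC V P m} (hs : IsSmooth σ)
    {C : (Cy m V) [⋀^Fin 2]→L[ℝ] ℝ}
    (hC : ∀ (φ : V → P) (p : V), C.compContinuousLinearMap (pd m φ p) = C)
    (hnd : ∀ x, ND (mean σ x)) :
    ∃ δ : ℝ, 0 < δ ∧ ∀ x : P, ∀ ε : ℝ, |ε| < δ → ND (mean σ x + ε • C) := by
  have key : ∃ δ : ℝ, 0 < δ ∧ ∀ x ∈ (univ : Set P), ∀ ε : ℝ, |ε| < δ →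
      ND (mean σ x + ε • C) := by
    refine isCompact_univ.induction_on (p := fun S : Set P => ∃ δ : ℝ, 0 < δ ∧ ∀ x ∈ S, ∀ ε : ℝ,
      |ε| < δ → ND (mean σ x + ε • C)) ⟨1, one_pos, fun x hx => hx.elim⟩ ?_ ?_ ?_
    · rintro S T hST ⟨δ, h0, h⟩
      exact ⟨δ, h0, fun x hx => h x (hST hx)⟩
    · rintro S T ⟨δ, h0, h⟩ ⟨δ', h0', h'⟩
      refine ⟨min δ δ', lt_min h0 h0', ?_⟩
      rintro x (hx | hx) ε hε
      · exact h x hx ε (hε.trans_le (min_le_left _ _))
      · exact h' x hx ε (hε.trans_le (min_le_right _ _))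
    · intro x _
      have hφ := chart_param (V := V) x
      have hp := mem_chart_target V x
      set φ := (chartAt V x).symm with hφd
      set p := chartAt V x x with hpd
      -- the form in coordinates
      have hcont : ContinuousAt (fun q : V × ℝ => avg (co φ σ) q.1 + q.2 • C) (p, 0) := by
        have h1 : ContinuousAt (avg (co φ σ)) p :=
          (avg_hasFDerivAt hφ.1 (co_smooth hφ hs) hp).continuousAt
        have h2 : ContinuousAt (fun q : V × ℝ => avg (co φ σ) q.1) (p, 0) :=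
          ContinuousAt.comp (g := avg (co φ σ)) (f := (Prod.fst : V × ℝ → V)) h1
            continuousAt_fst
        exact h2.add ((continuous_snd.smul continuous_const).continuousAt)
      have hND : ∀ (y : V), y ∈ (chartAt V x).target → ∀ ε : ℝ,
          (ND (avg (co φ σ) y + ε • C) ↔ ND (mean σ (φ y) + ε • C)) := by
        intro y hy ε
        have e1 : avg (co φ σ) y + ε • C =
            (mean σ (φ y) + ε • C).compContinuousLinearMap (pd m φ y) := by
          rw [avg_co hφ hs hy]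
          apply alt_ext
          intro a b
          have := congrArg (fun η : (Cy m V) [⋀^Fin 2]→L[ℝ] ℝ => η ![a, b]) (hC φ y)
          simp only [comp_two] at this
          rw [comp_two]
          change ((mean σ (φ y)).compContinuousLinearMap (pd m φ y)) ![a, b] +
            ε * C ![a, b] = mean σ (φ y) ![pd m φ y a, pd m φ y b] +
            ε * C ![pd m φ y a, pd m φ y b]
          rw [comp_two, this]
        have hbij : Function.Bijective (pd m φ y) := by
          have hb := dm_bij (V := V) x hy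
          constructor
          · intro a b hab
            have h1 := congrArg Prod.fst hab
            have h2 := congrArg Prod.snd hab
            exact Prod.ext h1 (hb.1 h2)
          · intro a
            obtain ⟨u, hu⟩ := hb.2 a.2
            exact ⟨(a.1, u), Prod.ext rfl hu⟩
        rw [e1]
        exact ND_comp hbij _
      have h0 : ND (avg (co φ σ) p + (0 : ℝ) • C) := by
        rw [hND p hp, zero_smul, add_zero]
        exact hnd _
      have hev := hcont.eventually ((ND_open (E := Cy m V)).mem_nhds h0)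
      rw [nhds_prod_eq] at hev
      obtain ⟨Y, hY, Z, hZ, hYZ⟩ := (Filter.eventually_prod_iff).1 hev
      obtain ⟨δ, hδ, hδZ⟩ := Metric.eventually_nhds_iff.1 hZ
      refine ⟨{y | y ∈ (chartAt V x).source ∧ Y (chartAt V x y)}, ?_, δ, hδ, ?_⟩
      · rw [nhdsWithin_univ]
        exact Filter.inter_mem ((chartAt V x).open_source.mem_nhds (mem_chart_source V x))
          (((chartAt V x).continuousAt (mem_chart_source V x)).eventually hY)
      · rintro y ⟨hys, hyY⟩ ε hε
        have h1 := hYZ hyY (hδZ (y := ε) (by simpa [Real.dist_eq] using hε))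
        have h2 := (hND _ ((chartAt V x).map_source hys) ε).1 h1
        rwa [hφd, (chartAt V x).left_inv hys] at h2
  obtain ⟨δ, h0, h⟩ := key
  exact ⟨δ, h0, fun x => h x (mem_univ x)⟩

/-- The main construction. -/
theorem main [IsManifold 𝓘(ℝ, V) ∞ P] [CompactSpace P] {σ : FormC V P m} (hs : IsSmooth σ)
    (hc : IsClosedForm σ) (hper : Periodic σ) (hnd : ∀ x, ND (mean σ x))
    {g : Matrix (Fin m) (Fin m) ℝ} (hg : ∀ i j, g j i = - g i j) (hg0 : g.det ≠ 0) :
    ∃ β : Form V P 2, IsSymplectic β := by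
  obtain ⟨δ, hδ, huni⟩ := uniform_nd hs (C := cf V g) (cf_comp hg) hnd
  have hfin : (Set.range fun x : P => fm (mean σ x)).Finite := (fm_loc hs hc hper).range_finite
  have hbad : (⋃ f ∈ (Set.range fun x : P => fm (mean σ x)),
      {ε : ℝ | (f + ε • g).det = 0}).Finite :=
    hfin.biUnion fun f _ => finite_bad f g hg0
  obtain ⟨ε, hε, hεb⟩ := ((Set.Ioo_infinite hδ).sdiff hbad).nonempty
  have hdet : ∀ x : P, (fm (mean σ x) + ε • g).det ≠ 0 := by
    intro x h
    apply hεb
    simp only [mem_iUnion]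
    exact ⟨_, ⟨x, rfl⟩, h⟩
  let hx : P → Matrix (Fin m) (Fin m) ℝ := fun x => (fm (mean σ x) + ε • g)⁻¹
  have hsk : ∀ x i j, hx x j i = - hx x i j := by
    intro x
    refine inv_skew fun i j => ?_
    simp only [Matrix.add_apply, Matrix.smul_apply, smul_eq_mul, fm_skew _ i j, hg i j]
    ring
  let β : Form V P 2 := fun x => (schur (V := V) (hx x) (mean σ x) : V [⋀^Fin 2]→L[ℝ] ℝ)
  have hev : ∀ (U : Set V) (φ : V → P), SmoothParam U φ → ∀ p ∈ U,
      pb φ β =ᶠ[𝓝 p] fun y => schur (hx (φ p)) (avg (co φ σ) y) := by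
    intro U φ hφ p hp
    filter_upwards [fm_const hs hc hper hφ hp] with y hy
    have e1 : hx (φ y) = hx (φ p) := by
      simp only [hx, hy.2]
    rw [avg_co hφ hs hy.1, schur_comp (hsk (φ p)), ← e1]
    rfl
  refine ⟨β, ?_, ?_, ?_⟩
  · intro U φ hφ p hp
    have h1 : ContDiffAt ℝ ∞ (fun y => schur (hx (φ p)) (avg (co φ σ) y)) p := by
      have h2 : ContDiffAt ℝ ∞ (avg (co φ σ)) p :=
        (avg_smooth hφ.1 (co_smooth hφ hs)).contDiffAt (hφ.1.mem_nhds hp)
      exact (schur_smooth (V := V) (hx (φ p))).contDiffAt.comp p h2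
    exact (h1.congr_of_eventuallyEq (hev U φ hφ p hp)).contDiffWithinAt
  · intro U φ hφ p hp
    rw [(hev U φ hφ p hp).extDeriv_eq]
    have hF := co_smooth hφ hs
    exact schur_closed (hsk (φ p)) (avg_hasFDerivAt hφ.1 hF hp)
      (avg_rel hφ.1 hF hp (fun i t => co_per hφ hper hp i t) (fun t => co_closed hφ hc hp t))
  · intro x v hv
    have hN := huni x ε (by rw [abs_of_pos hε.1]; exact hε.2)
    have hfm : fm (mean σ x + ε • cf V g) = fm (mean σ x) + ε • g := fm_cf hg _ _
    refine schur_nondeg (mean σ x + ε • cf V g) ?_ hN v ?_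
    · rw [hfm]; exact (hdet x).isUnit
    · intro w
      rw [hfm, schur_cf hg (hsk x)]
      exact hv w

end Pool.Agent.Helper224_tor
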