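import Pool.Agent.Helper224_tor.Defs

/-!
Product maps into `ℝ^m × P`.
-/

set_option autoImplicit false

open Set
open scoped Manifold ContDiff

noncomputable section

namespace Pool.Agent.Helper224_tor

open Pool.Agent.Y501.SYP

variable {m : ℕ} {V : Type} [NormedAddCommGroup V] [NormedSpace ℝ V]
  {P : Type} [TopologicalSpace P] [ChartedSpace V P]

/-- the product of the identity and `φ` -/
def pm (φ : V → P) (q : (Fin m → ℝ) × V) : Cyl m P := (q.1, φ q.2)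

theorem pm_smooth {U : Set V} {φ : V → P} (h : SmoothParam U φ) :
    SmoothParam (V := (Fin m → ℝ) × V) (X := Cyl m P) (univ ×ˢ U) (pm φ) := by
  refine ⟨isOpen_univ.prod h.1, ?_⟩
  have h1 : ContMDiffOn (𝓘(ℝ, Fin m → ℝ).prod 𝓘(ℝ, V)) (𝓘(ℝ, Fin m → ℝ).prod 𝓘(ℝ, V)) ∞
      (Prod.map (id : (Fin m → ℝ) → (Fin m → ℝ)) φ) (univ ×ˢ U) :=
    contMDiffOn_id.prodMap h.2
  rw [← modelWithCornersSelf_prod, chartedSpaceSelf_prod] at h1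
  exact h1

/-- products of derivatives -/
def pr (A : (Fin m → ℝ) →L[ℝ] (Fin m → ℝ)) (L : V →L[ℝ] V) :
    ((Fin m → ℝ) × V) →L[ℝ] ((Fin m → ℝ) × V) := A.prodMap L

theorem pm_has {φ : V → P} {p : V} {L : V →L[ℝ] V}
    (h : HasMFDerivAt 𝓘(ℝ, V) 𝓘(ℝ, V) φ p L) (t : Fin m → ℝ) :
    HasMFDerivAt 𝓘(ℝ, (Fin m → ℝ) × V) 𝓘(ℝ, (Fin m → ℝ) × V) (pm φ : _ → Cyl m P) (t, p)
      (pr (ContinuousLinearMap.id ℝ (Fin m → ℝ)) L) := by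
  have h0 : HasMFDerivAt 𝓘(ℝ, Fin m → ℝ) 𝓘(ℝ, Fin m → ℝ) (id : (Fin m → ℝ) → (Fin m → ℝ)) t
      (ContinuousLinearMap.id ℝ (Fin m → ℝ)) := hasMFDerivAt_id t
  have e0 : mfderiv 𝓘(ℝ, Fin m → ℝ) 𝓘(ℝ, Fin m → ℝ) (id : (Fin m → ℝ) → (Fin m → ℝ)) t =
    ContinuousLinearMap.id ℝ (Fin m → ℝ) := h0.mfderiv
  have e1 : mfderiv 𝓘(ℝ, V) 𝓘(ℝ, V) φ p = L := h.mfderiv
  have h1 : HasMFDerivAt (𝓘(ℝ, Fin m → ℝ).prod 𝓘(ℝ, V)) (𝓘(ℝ, Fin m → ℝ).prod 𝓘(ℝ, V))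
      (Prod.map (id : (Fin m → ℝ) → (Fin m → ℝ)) φ) ((t, p) : (Fin m → ℝ) × V)
      (pr (mfderiv 𝓘(ℝ, Fin m → ℝ) 𝓘(ℝ, Fin m → ℝ) (id : (Fin m → ℝ) → (Fin m → ℝ)) t)
        (mfderiv 𝓘(ℝ, V) 𝓘(ℝ, V) φ p)) :=
    HasMFDerivAt.prodMap (p := (t, p)) h0 h
  rw [e0, e1] at h1
  rw [← modelWithCornersSelf_prod] at h1
  have h2 := h1
  rw [chartedSpaceSelf_prod] at h2
  exact h2

theorem pm_mfderiv {φ : V → P} {p : V} (h : MDifferentiableAt 𝓘(ℝ, V) 𝓘(ℝ, V) φ p)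
    (t : Fin m → ℝ) (v : (Fin m → ℝ) × V) :
    mfderiv 𝓘(ℝ, (Fin m → ℝ) × V) 𝓘(ℝ, (Fin m → ℝ) × V) (pm φ : _ → Cyl m P) (t, p) v =
      ((v.1, mfderiv 𝓘(ℝ, V) 𝓘(ℝ, V) φ p v.2) : (Fin m → ℝ) × V) := by
  have h2 := (pm_has (m := m) h.hasMFDerivAt t).mfderiv
  exact congrArg (fun L : ((Fin m → ℝ) × V) →L[ℝ] ((Fin m → ℝ) × V) => L v) h2

theorem shift_has (s : Fin m → ℝ) (q : Cyl m P) :
    HasMFDerivAt 𝓘(ℝ, (Fin m → ℝ) × V) 𝓘(ℝ, (Fin m → ℝ) × V) (shift s : Cyl m P → Cyl m P) q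
      (pr (ContinuousLinearMap.id ℝ (Fin m → ℝ)) (ContinuousLinearMap.id ℝ V)) := by
  have h0 : HasMFDerivAt 𝓘(ℝ, Fin m → ℝ) 𝓘(ℝ, Fin m → ℝ) (fun t : Fin m → ℝ => t + s) q.1
      (ContinuousLinearMap.id ℝ (Fin m → ℝ)) := by
    have : HasFDerivAt (fun t : Fin m → ℝ => t + s) (ContinuousLinearMap.id ℝ (Fin m → ℝ)) q.1 :=
      (hasFDerivAt_id _).add_const s
    exact this.hasMFDerivAt
  have h3 : HasMFDerivAt 𝓘(ℝ, V) 𝓘(ℝ, V) (id : P → P) q.2 (ContinuousLinearMap.id ℝ V) :=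
    hasMFDerivAt_id q.2
  have e0 : mfderiv 𝓘(ℝ, Fin m → ℝ) 𝓘(ℝ, Fin m → ℝ) (fun t : Fin m → ℝ => t + s) q.1 =
    ContinuousLinearMap.id ℝ (Fin m → ℝ) := h0.mfderiv
  have e1 : mfderiv 𝓘(ℝ, V) 𝓘(ℝ, V) (id : P → P) q.2 = ContinuousLinearMap.id ℝ V := h3.mfderiv
  have h1 : HasMFDerivAt (𝓘(ℝ, Fin m → ℝ).prod 𝓘(ℝ, V)) (𝓘(ℝ, Fin m → ℝ).prod 𝓘(ℝ, V))
      (Prod.map (fun t : Fin m → ℝ => t + s) (id : P → P)) ((q.1, q.2) : (Fin m → ℝ) × P)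
      (pr (mfderiv 𝓘(ℝ, Fin m → ℝ) 𝓘(ℝ, Fin m → ℝ) (fun t : Fin m → ℝ => t + s) q.1)
        (mfderiv 𝓘(ℝ, V) 𝓘(ℝ, V) (id : P → P) q.2)) :=
    HasMFDerivAt.prodMap (p := (q.1, q.2)) h0 h3
  rw [e0, e1] at h1
  rw [← modelWithCornersSelf_prod] at h1
  exact h1

theorem dshift_apply (s : Fin m → ℝ) (q : Cyl m P) (v : (Fin m → ℝ) × V) :
    dshift V s q v = v := by
  have h2 := (shift_has (V := V) s q).mfderiv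
  exact congrArg (fun L : ((Fin m → ℝ) × V) →L[ℝ] ((Fin m → ℝ) × V) => L v) h2

end Pool.Agent.Helper224_tor
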