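import Mathlib

/-!
Skew matrices: perturbation to an invertible one.
-/

set_option autoImplicit false

open Set Polynomial

noncomputable section

namespace Pool.Agent.Helper224_tor

theorem exists_skew (k : ℕ) : ∃ g : Matrix (Fin (2 * k)) (Fin (2 * k)) ℝ,
    (∀ i j, g j i = - g i j) ∧ g.det ≠ 0 := by
  let e : Fin k ⊕ Fin k ≃ Fin (2 * k) := finSumFinEquiv.trans (finCongr (by ring))
  refine ⟨Matrix.reindex e e (Matrix.J (Fin k) ℝ), ?_, ?_⟩
  · intro i j
    have h := congrFun (congrFun (Matrix.J_transpose (Fin k) ℝ) (e.symm i)) (e.symm j)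
    simpa [Matrix.reindex_apply, Matrix.transpose_apply] using h
  · rw [Matrix.det_reindex_self]
    exact (Matrix.isUnit_det_J (Fin k) ℝ).ne_zero

theorem finite_bad {n : ℕ} (f g : Matrix (Fin n) (Fin n) ℝ) (hg : g.det ≠ 0) :
    {ε : ℝ | (f + ε • g).det = 0}.Finite := by
  set p : ℝ[X] := Matrix.det ((X : ℝ[X]) • g.map C + f.map C) with hp
  have hp0 : p ≠ 0 := by
    intro h
    apply hg
    rw [← Polynomial.coeff_det_X_add_C_card g f, ← hp, h, coeff_zero]
  refine (p.roots.toFinset.finite_toSet).subset fun ε hε => ?_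
  simp only [Finset.mem_coe, Multiset.mem_toFinset]
  rw [mem_roots hp0, IsRoot.def]
  have : eval ε p = (f + ε • g).det := by
    rw [hp, ← coe_evalRingHom, RingHom.map_det]
    congr 1
    ext i j
    simp [Matrix.map_apply]
    ring
  rw [this]; exact hε

end Pool.Agent.Helper224_tor
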