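import Pool.Agent.Helper224_tor.Rel
import Pool.Agent.Helper224_tor.Man
import Pool.Agent.Helper224_tor.Mat

/-!
The mean over the torus of a closed form on the product of the torus and `P`.
-/

set_option autoImplicit false

open Set MeasureTheory Filter Topology
open scoped Manifold ContDiff

noncomputable section

namespace Pool.Agent.Helper224_tor

open Pool.Agent.Y501.SYP

variable {m : ℕ} {V : Type} [NormedAddCommGroup V] [NormedSpace ℝ V] [FiniteDimensional ℝ V]
  {P : Type} [TopologicalSpace P] [ChartedSpace V P]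

/-- the value of a form at `(t, x)` -/
def val (σ : FormC V P m) (t : Fin m → ℝ) (x : P) : (Cy m V) [⋀^Fin 2]→L[ℝ] ℝ :=
  σ ((t, x) : Cyl m P)

/-- the mean of the form at `x` -/
def mean (σ : FormC V P m) (x : P) : (Cy m V) [⋀^Fin 2]→L[ℝ] ℝ :=
  ∫ t in Icc (0 : Fin m → ℝ) 1, val σ t x

/-- the derivative of `φ` as a linear map of `V` -/
def dm (φ : V → P) (p : V) : V →L[ℝ] V := mfderiv 𝓘(ℝ, V) 𝓘(ℝ, V) φ p

/-- `id × dφ` -/
def pd (m : ℕ) (φ : V → P) (p : V) : (Cy m V) →L[ℝ] (Cy m V) :=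
  pr (ContinuousLinearMap.id ℝ (Fin m → ℝ)) (dm φ p)

omit [FiniteDimensional ℝ V] in
theorem pd_apply (φ : V → P) (p : V) (a : Cy m V) : pd m φ p a = (a.1, dm φ p a.2) := rfl

/-- the form in coordinates -/
def co (φ : V → P) (σ : FormC V P m) : Cy m V → (Cy m V) [⋀^Fin 2]→L[ℝ] ℝ :=
  pb (pm φ : Cy m V → Cyl m P) σ

theorem comp_two {E F : Type} [NormedAddCommGroup E] [NormedSpace ℝ E] [NormedAddCommGroup F]
    [NormedSpace ℝ F] (η : F [⋀^Fin 2]→L[ℝ] ℝ) (L : E →L[ℝ] F) (a b : E) :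
    η.compContinuousLinearMap L ![a, b] = η ![L a, L b] := by
  rw [ContinuousAlternatingMap.compContinuousLinearMap_apply]
  congr 1
  funext i
  fin_cases i <;> rfl

omit [FiniteDimensional ℝ V] in
theorem co_eq {U : Set V} {φ : V → P} (hφ : SmoothParam U φ) (σ : FormC V P m) {p : V}
    (hp : p ∈ U) (t : Fin m → ℝ) :
    co φ σ (t, p) = (val σ t (φ p)).compContinuousLinearMap (pd m φ p) := by
  have hd : MDifferentiableAt 𝓘(ℝ, V) 𝓘(ℝ, V) φ p :=
    (hφ.2.contMDiffAt (hφ.1.mem_nhds hp)).mdifferentiableAt (by simp)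
  apply alt_ext
  intro a b
  rw [comp_two]
  have h0 : co φ σ (t, p) ![a, b] = val σ t (φ p)
      ![(mfderiv 𝓘(ℝ, (Fin m → ℝ) × V) 𝓘(ℝ, (Fin m → ℝ) × V) (pm φ : _ → Cyl m P) (t, p) a),
       (mfderiv 𝓘(ℝ, (Fin m → ℝ) × V) 𝓘(ℝ, (Fin m → ℝ) × V) (pm φ : _ → Cyl m P) (t, p) b)] :=
    comp_two (E := Cy m V) (F := Cy m V) (val σ t (φ p))
      (mfderiv 𝓘(ℝ, (Fin m → ℝ) × V) 𝓘(ℝ, (Fin m → ℝ) × V) (pm φ : _ → Cyl m P) (t, p)) a b
  rw [h0]
  have e1 := pm_mfderiv (m := m) hd t a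
  have e2 := pm_mfderiv (m := m) hd t b
  have e3 : ∀ (x x' y y' : Cy m V), x = x' → y = y' → val σ t (φ p) ![x, y] =
      val σ t (φ p) ![x', y'] := by
    rintro x _ y _ rfl rfl; rfl
  exact e3 _ _ _ _ e1 e2

omit [FiniteDimensional ℝ V] in
theorem co_smooth {U : Set V} {φ : V → P} (hφ : SmoothParam U φ) {σ : FormC V P m}
    (hσ : IsSmooth σ) : ContDiffOn ℝ ∞ (co φ σ) (univ ×ˢ U) :=
  hσ _ _ (pm_smooth hφ)

omit [FiniteDimensional ℝ V] in
theorem co_closed {U : Set V} {φ : V → P} (hφ : SmoothParam U φ) {σ : FormC V P m}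
    (hσ : IsClosedForm σ) {p : V} (hp : p ∈ U) (t : Fin m → ℝ) : extDeriv (co φ σ) (t, p) = 0 :=
  hσ _ _ (pm_smooth hφ) (t, p) ⟨mem_univ _, hp⟩

omit [FiniteDimensional ℝ V] in
theorem val_shift {σ : FormC V P m} {s : Fin m → ℝ} (h : InvForm s σ) (t : Fin m → ℝ) (x : P) :
    val σ (t + s) x = val σ t x := by
  apply alt_ext
  intro a b
  have h1 := h ((t, x) : Cyl m P) a b
  have e1 := dshift_apply (V := V) s ((t, x) : Cyl m P) a
  have e2 := dshift_apply (V := V) s ((t, x) : Cyl m P) b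
  have e3 : ∀ (x₁ x' y y' : Cy m V), x₁ = x' → y = y' → val σ (t + s) x ![x₁, y] =
      val σ (t + s) x ![x', y'] := by
    rintro x₁ _ y _ rfl rfl; rfl
  exact (e3 _ _ _ _ e1 e2).symm.trans h1

omit [FiniteDimensional ℝ V] in
theorem co_per {U : Set V} {φ : V → P} (hφ : SmoothParam U φ) {σ : FormC V P m}
    (hσ : Periodic σ) {p : V} (hp : p ∈ U) (i : Fin m) (t : Fin m → ℝ) :
    co φ σ (t + Pi.single i 1, p) = co φ σ (t, p) := by
  rw [co_eq hφ σ hp, co_eq hφ σ hp, val_shift (hσ i)]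

omit [FiniteDimensional ℝ V] in
/-- the charts -/
theorem chart_param [IsManifold 𝓘(ℝ, V) ∞ P] (x : P) :
    SmoothParam (chartAt V x).target (chartAt V x).symm :=
  ⟨(chartAt V x).open_target, contMDiffOn_chart_symm⟩

omit [FiniteDimensional ℝ V] in
theorem dm_bij [IsManifold 𝓘(ℝ, V) ∞ P] (x : P) {p : V} (hp : p ∈ (chartAt V x).target) :
    Function.Bijective (dm (chartAt V x).symm p) := by
  have : IsManifold 𝓘(ℝ, V) 1 P := IsManifold.of_le (n := ∞) (by simp)
  exact (mdifferentiable_chart (I := 𝓘(ℝ, V)) x).symm.mfderiv_bijective (x := p) hp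

theorem val_cont [IsManifold 𝓘(ℝ, V) ∞ P] {σ : FormC V P m} (hσ : IsSmooth σ) (x : P) :
    Continuous fun t => val σ t x := by
  have hφ := chart_param (V := V) x
  have hp : chartAt V x x ∈ (chartAt V x).target := mem_chart_target V x
  obtain ⟨A, hA⟩ : ∃ A : V →L[ℝ] V, ∀ v, dm (chartAt V x).symm (chartAt V x x) (A v) = v := by
    let e := LinearEquiv.ofBijective
      ((dm (chartAt V x).symm (chartAt V x x)) : V →ₗ[ℝ] V) (dm_bij (V := V) x hp)
    refine ⟨LinearMap.toContinuousLinearMap (e.symm : V →ₗ[ℝ] V), fun v => ?_⟩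
    exact e.apply_symm_apply v
  have hc : Continuous fun t : Fin m → ℝ => co (chartAt V x).symm σ (t, chartAt V x x) :=
    slice_cont (co_smooth hφ hσ).continuousOn hp
  have e : ∀ t : Fin m → ℝ, val σ t x =
      ContinuousAlternatingMap.compContinuousLinearMapCLM (F := ℝ) (ι := Fin 2)
        (pr (ContinuousLinearMap.id ℝ (Fin m → ℝ)) A)
        (co (chartAt V x).symm σ (t, chartAt V x x)) := by
    intro t
    apply alt_ext
    intro a b
    rw [ContinuousAlternatingMap.compContinuousLinearMapCLM_apply, comp_two, co_eq hφ σ hp,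
      comp_two, (chartAt V x).left_inv (mem_chart_source V x)]
    have e1 : ∀ c : Cy m V, pd m (chartAt V x).symm (chartAt V x x)
        (pr (ContinuousLinearMap.id ℝ (Fin m → ℝ)) A c) = c := fun c => Prod.ext rfl (hA c.2)
    rw [e1, e1]
  simp_rw [e]
  exact (ContinuousLinearMap.continuous _).comp hc

theorem avg_co [IsManifold 𝓘(ℝ, V) ∞ P] {U : Set V} {φ : V → P} (hφ : SmoothParam U φ)
    {σ : FormC V P m} (hσ : IsSmooth σ) {p : V} (hp : p ∈ U) :
    avg (co φ σ) p = (mean σ (φ p)).compContinuousLinearMap (pd m φ p) := by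
  have hi : IntegrableOn (fun t => val σ t (φ p)) (Icc (0 : Fin m → ℝ) 1) :=
    (val_cont hσ (φ p)).continuousOn.integrableOn_compact isCompact_Icc
  have := (ContinuousAlternatingMap.compContinuousLinearMapCLM (F := ℝ) (ι := Fin 2)
    (pd m φ p)).integral_comp_comm hi
  simp only [ContinuousAlternatingMap.compContinuousLinearMapCLM_apply] at this
  unfold avg mean
  rw [← this]
  congr 1
  funext t
  exact co_eq hφ σ hp t

end Pool.Agent.Helper224_tor
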