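import Pool.Agent.Helper224_tor.ChartK

/-!
Means of forms of any degree on `T^m × P`, and of exterior derivatives of one-forms.
-/

set_option autoImplicit false

open Set MeasureTheory Filter Topology
open scoped Manifold ContDiff

noncomputable section

namespace Pool.Agent.Helper224_tor

open Pool.Agent.Y501.SYP

variable {m : ℕ} {V : Type} [NormedAddCommGroup V] [NormedSpace ℝ V] [FiniteDimensional ℝ V]
  {P : Type} [TopologicalSpace P] [ChartedSpace V P]

variable (V P) in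
/-- a `k`-form on `ℝ^m × P` -/
abbrev FormK (m k : ℕ) : Type := Form ((Fin m → ℝ) × V) (Cyl m P) k

/-- the value at `(t, x)` -/
def valk {k : ℕ} (γ : FormK V P m k) (t : Fin m → ℝ) (x : P) : (Cy m V) [⋀^Fin k]→L[ℝ] ℝ :=
  γ ((t, x) : Cyl m P)

/-- invariance under the translation by `s` -/
def InvK {k : ℕ} (s : Fin m → ℝ) (γ : FormK V P m k) : Prop :=
  ∀ (q : Cyl m P) (v : Fin k → TangentSpace 𝓘(ℝ, (Fin m → ℝ) × V) q),
    γ (shift s q) (fun i => dshift V s q (v i)) = γ q v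

/-- the form in coordinates -/
def cok {k : ℕ} (φ : V → P) (γ : FormK V P m k) : Cy m V → (Cy m V) [⋀^Fin k]→L[ℝ] ℝ :=
  pb (pm φ : Cy m V → Cyl m P) γ

omit [FiniteDimensional ℝ V] in
theorem cok_eq {k : ℕ} {U : Set V} {φ : V → P} (hφ : SmoothParam U φ) (γ : FormK V P m k) {p : V}
    (hp : p ∈ U) (t : Fin m → ℝ) :
    cok φ γ (t, p) = (valk γ t (φ p)).compContinuousLinearMap (pd m φ p) := by
  have hd : MDifferentiableAt 𝓘(ℝ, V) 𝓘(ℝ, V) φ p :=
    (hφ.2.contMDiffAt (hφ.1.mem_nhds hp)).mdifferentiableAt (by simp)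
  ext v
  change valk γ t (φ p) (fun i => (mfderiv 𝓘(ℝ, (Fin m → ℝ) × V) 𝓘(ℝ, (Fin m → ℝ) × V)
    (pm φ : _ → Cyl m P) (t, p) : (Cy m V) →L[ℝ] (Cy m V)) (v i)) =
    valk γ t (φ p) (fun i => pd m φ p (v i))
  congr 1
  funext i
  exact pm_mfderiv (m := m) hd t (v i)

omit [FiniteDimensional ℝ V] in
theorem cok_smooth {k : ℕ} {U : Set V} {φ : V → P} (hφ : SmoothParam U φ) {γ : FormK V P m k}
    (hγ : IsSmooth γ) : ContDiffOn ℝ ∞ (cok φ γ) (univ ×ˢ U) :=
  hγ _ _ (pm_smooth hφ)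

omit [FiniteDimensional ℝ V] in
theorem valk_shift {k : ℕ} {γ : FormK V P m k} {s : Fin m → ℝ} (h : InvK s γ) (t : Fin m → ℝ)
    (x : P) : valk γ (t + s) x = valk γ t x := by
  ext v
  have h1 := h ((t, x) : Cyl m P) v
  have e3 : ∀ (a a' : Fin k → Cy m V), a = a' → valk γ (t + s) x a = valk γ (t + s) x a' := by
    rintro a _ rfl; rfl
  refine (e3 _ _ ?_).symm.trans h1
  funext i
  exact dshift_apply (V := V) s ((t, x) : Cyl m P) (v i)

theorem valk_cont [IsManifold 𝓘(ℝ, V) ∞ P] {k : ℕ} {γ : FormK V P m k} (hγ : IsSmooth γ)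
    (x : P) : Continuous fun t => valk γ t x := by
  have hφ := chart_param (V := V) x
  have hp : chartAt V x x ∈ (chartAt V x).target := mem_chart_target V x
  obtain ⟨A, hA⟩ : ∃ A : V →L[ℝ] V, ∀ v, dm (chartAt V x).symm (chartAt V x x) (A v) = v := by
    let e := LinearEquiv.ofBijective
      ((dm (chartAt V x).symm (chartAt V x x)) : V →ₗ[ℝ] V) (dm_bij (V := V) x hp)
    refine ⟨LinearMap.toContinuousLinearMap (e.symm : V →ₗ[ℝ] V), fun v => ?_⟩
    exact e.apply_symm_apply v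
  have hc : Continuous fun t : Fin m → ℝ => cok (chartAt V x).symm γ (t, chartAt V x x) :=
    slice_cont (cok_smooth hφ hγ).continuousOn hp
  have e : ∀ t : Fin m → ℝ, valk γ t x =
      ContinuousAlternatingMap.compContinuousLinearMapCLM (F := ℝ) (ι := Fin k)
        (pr (ContinuousLinearMap.id ℝ (Fin m → ℝ)) A)
        (cok (chartAt V x).symm γ (t, chartAt V x x)) := by
    intro t
    ext v
    rw [ContinuousAlternatingMap.compContinuousLinearMapCLM_apply, cok_eq hφ γ hp,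
      (chartAt V x).left_inv (mem_chart_source V x)]
    have e1 : ∀ c : Cy m V, pd m (chartAt V x).symm (chartAt V x x)
        (pr (ContinuousLinearMap.id ℝ (Fin m → ℝ)) A c) = c := fun c => Prod.ext rfl (hA c.2)
    change valk γ t x v = valk γ t x (fun i => pd m (chartAt V x).symm (chartAt V x x)
      (pr (ContinuousLinearMap.id ℝ (Fin m → ℝ)) A (v i)))
    congr 1
    funext i
    exact (e1 (v i)).symm
  simp_rw [e]
  exact (ContinuousLinearMap.continuous _).comp hc

/-- the mean -/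
def meank {k : ℕ} (γ : FormK V P m k) (x : P) : (Cy m V) [⋀^Fin k]→L[ℝ] ℝ :=
  ∫ t in Icc (0 : Fin m → ℝ) 1, valk γ t x

theorem avg_cok [IsManifold 𝓘(ℝ, V) ∞ P] {k : ℕ} {U : Set V} {φ : V → P} (hφ : SmoothParam U φ)
    {γ : FormK V P m k} (hγ : IsSmooth γ) {p : V} (hp : p ∈ U) :
    avg (cok φ γ) p = (meank γ (φ p)).compContinuousLinearMap (pd m φ p) := by
  have hi : IntegrableOn (fun t => valk γ t (φ p)) (Icc (0 : Fin m → ℝ) 1) :=
    (valk_cont hγ (φ p)).continuousOn.integrableOn_compact isCompact_Icc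
  have := (ContinuousAlternatingMap.compContinuousLinearMapCLM (F := ℝ) (ι := Fin k)
    (pd m φ p)).integral_comp_comm hi
  simp only [ContinuousAlternatingMap.compContinuousLinearMapCLM_apply] at this
  unfold avg meank
  rw [← this]
  congr 1
  funext t
  exact cok_eq hφ γ hp t

theorem avg_dirG {G : Type} [NormedAddCommGroup G] [NormedSpace ℝ G] [CompleteSpace G]
    {F : Cy m V → G} {U : Set V} (hU : IsOpen U)
    (hF : ContDiffOn ℝ ∞ F (univ ×ˢ U)) {p : V} (hp : p ∈ U)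
    (hper : ∀ (i : Fin m) (t : Fin m → ℝ), F (t + Pi.single i 1, p) = F (t, p)) (a : Cy m V) :
    IntegrableOn (fun t => fderiv ℝ F (t, p) a) (Icc (0 : Fin m → ℝ) 1) ∧
    ∫ t in Icc (0 : Fin m → ℝ) 1, fderiv ℝ F (t, p) a = avg (par F) p a.2 := by
  have hfd : ContinuousOn (fderiv ℝ F) (univ ×ˢ U) :=
    (((contDiffOn_infty_iff_fderiv_of_isOpen (isOpen_univ.prod hU)).1 hF).2).continuousOn
  have hc : Continuous fun t : Fin m → ℝ => fderiv ℝ F (t, p) := by
    rw [← continuousOn_univ]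
    exact hfd.comp (by fun_prop) (fun t _ => ⟨mem_univ _, hp⟩)
  have hint : ∀ b : Cy m V, IntegrableOn (fun t => fderiv ℝ F (t, p) b)
      (Icc (0 : Fin m → ℝ) 1) := fun b =>
    (hc.clm_apply continuous_const).continuousOn.integrableOn_compact isCompact_Icc
  refine ⟨hint a, ?_⟩
  obtain ⟨s, v⟩ := a
  have e : ((s, v) : Cy m V) = (∑ i, s i • ((Pi.single i 1, 0) : Cy m V)) + (0, v) := by
    ext1
    · simp only [Prod.fst_add, Prod.fst_sum, add_zero, Prod.smul_fst]
      funext l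
      simp [Finset.sum_apply, Pi.single_apply]
    · simp [Prod.snd_sum]
  have e2 : ∀ t : Fin m → ℝ, fderiv ℝ F (t, p) (s, v) =
      (∑ i, s i • fderiv ℝ F (t, p) (Pi.single i 1, 0)) + fderiv ℝ F (t, p) (0, v) := by
    intro t
    rw [e, map_add, map_sum]
    simp only [map_smul]
  simp only [e2]
  have hs : ∀ i : Fin m, IntegrableOn (fun t => s i • fderiv ℝ F (t, p) (Pi.single i 1, 0))
      (Icc (0 : Fin m → ℝ) 1) := fun i => (hint _).smul (s i)
  rw [integral_add (f := fun t => ∑ i, s i • fderiv ℝ F (t, p) (Pi.single i 1, 0))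
      (integrable_finsetSum _ fun i _ => hs i) (hint _),
    integral_finsetSum _ fun i _ => hs i]
  have e3 : ∀ i : Fin m, ∫ t in Icc (0 : Fin m → ℝ) 1,
      s i • fderiv ℝ F (t, p) (Pi.single i 1, 0) = 0 := by
    intro i
    rw [integral_smul, avg_partial hU hF hp i (hper i), smul_zero]
  simp only [e3, Finset.sum_const_zero, zero_add]
  have hpar : IntegrableOn (fun t => par F (t, p)) (Icc (0 : Fin m → ℝ) 1) :=
    slice_int (par_smooth hU hF).continuousOn hp
  unfold avg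
  rw [ContinuousLinearMap.integral_apply hpar]
  rfl

theorem ext_one {E : Type} [NormedAddCommGroup E] [NormedSpace ℝ E] (G : E → E [⋀^Fin 1]→L[ℝ] ℝ)
    (x a b : E) : extDeriv G x ![a, b] = (fderiv ℝ G x a) ![b] - (fderiv ℝ G x b) ![a] := by
  unfold extDeriv
  rw [ContinuousAlternatingMap.alternatizeUncurryFin_apply, Fin.sum_univ_two]
  have e0 : (0 : Fin 2).removeNth ![a, b] = ![b] := by
    funext i; fin_cases i; rfl
  have e1 : (1 : Fin 2).removeNth ![a, b] = ![a] := by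
    funext i; fin_cases i; rfl
  rw [e0, e1]
  simp
  ring

/-- The mean of the exterior derivative of a periodic one-form. -/
theorem avg_d [IsManifold 𝓘(ℝ, V) ∞ P] {γ : FormK V P m 1} {η : FormK V P m 2}
    (hγ : IsSmooth γ) (hη : IsSmooth η) (hD : IsD γ η) (hper : ∀ i : Fin m, InvK (Pi.single i 1) γ)
    {U : Set V} {φ : V → P} (hφ : SmoothParam U φ) {p : V} (hp : p ∈ U) (a b : Cy m V) :
    avg (cok φ η) p ![a, b] =
      (avg (par (cok φ γ)) p a.2) ![b] - (avg (par (cok φ γ)) p b.2) ![a] := by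
  have hF := cok_smooth hφ hγ
  have hper' : ∀ (i : Fin m) (t : Fin m → ℝ),
      cok φ γ (t + Pi.single i 1, p) = cok φ γ (t, p) := by
    intro i t
    rw [cok_eq hφ γ hp, cok_eq hφ γ hp, valk_shift (hper i)]
  obtain ⟨ia, ea⟩ := avg_dirG hφ.1 hF hp hper' a
  obtain ⟨ib, eb⟩ := avg_dirG hφ.1 hF hp hper' b
  have hη' : IntegrableOn (fun t => cok φ η (t, p)) (Icc (0 : Fin m → ℝ) 1) :=
    slice_int (cok_smooth hφ hη).continuousOn hp
  have h0 := (ContinuousAlternatingMap.apply ℝ (Cy m V) ℝ ![a, b]).integral_comp_comm hη'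
  have h1 := (ContinuousAlternatingMap.apply ℝ (Cy m V) ℝ ![b]).integral_comp_comm ia
  have h2 := (ContinuousAlternatingMap.apply ℝ (Cy m V) ℝ ![a]).integral_comp_comm ib
  have j1 := (ContinuousAlternatingMap.apply ℝ (Cy m V) ℝ ![b]).integrable_comp ia
  have j2 := (ContinuousAlternatingMap.apply ℝ (Cy m V) ℝ ![a]).integrable_comp ib
  simp only [ContinuousAlternatingMap.apply_apply] at h0 h1 h2 j1 j2
  rw [← ea, ← eb, ← h1, ← h2, ← integral_sub j1 j2]
  unfold avg
  rw [← h0]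
  congr 1
  funext t
  rw [← ext_one]
  have := hD _ _ (pm_smooth hφ) (t, p) ⟨mem_univ _, hp⟩
  exact congrArg (fun L : (Cy m V) [⋀^Fin 2]→L[ℝ] ℝ => L ![a, b]) this.symm

end Pool.Agent.Helper224_tor
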