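import Pool.Agent.Y501.SY.Pub

/-!
The product of `ℝ^m` with a manifold `P`, translations, and invariant forms: the definitions used
in the statement of the result.
-/

set_option autoImplicit false

open Set
open scoped Manifold ContDiff

noncomputable section

namespace Pool.Agent.Helper224_torP

open Pool.Agent.Y501.SYP

/-- The vector space `ℝ^m × V`. -/
def Md (m : ℕ) (V : Type) : Type := (Fin m → ℝ) × V

instance instNormMd (m : ℕ) (V : Type) [NormedAddCommGroup V] [NormedSpace ℝ V] :
    NormedAddCommGroup (Md m V) :=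
  (inferInstance : NormedAddCommGroup ((Fin m → ℝ) × V))

instance instSpaceMd (m : ℕ) (V : Type) [NormedAddCommGroup V] [NormedSpace ℝ V] :
    NormedSpace ℝ (Md m V) :=
  (inferInstance : NormedSpace ℝ ((Fin m → ℝ) × V))

/-- The product `ℝ^m × P`. -/
def Cyl (m : ℕ) (P : Type) : Type := (Fin m → ℝ) × P

instance instTopCyl (m : ℕ) (P : Type) [TopologicalSpace P] : TopologicalSpace (Cyl m P) :=
  (inferInstance : TopologicalSpace ((Fin m → ℝ) × P))

/-- The product of the identity chart of `ℝ^m` with the charts of `P`; `Cyl m P` is a manifold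
modelled on `ℝ^m × V` when `P` is a manifold modelled on `V`. -/
instance instChartedCyl (m : ℕ) (V : Type) [NormedAddCommGroup V] [NormedSpace ℝ V] (P : Type)
    [TopologicalSpace P] [ChartedSpace V P] : ChartedSpace (Md m V) (Cyl m P) :=
  (prodChartedSpace (Fin m → ℝ) (Fin m → ℝ) V P :
    ChartedSpace (ModelProd (Fin m → ℝ) V) ((Fin m → ℝ) × P))

/-- the translation of `ℝ^m × P` by `s` -/
def shift {m : ℕ} {P : Type} (s : Fin m → ℝ) (q : Cyl m P) : Cyl m P := (q.1 + s, q.2)

section general

variable {W X : Type} [NormedAddCommGroup W] [NormedSpace ℝ W] [TopologicalSpace X]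
  [ChartedSpace W X]

/-- the number `σ (v, w)` -/
def ev (σ : Form W X 2) (x : X) (v w : TangentSpace 𝓘(ℝ, W) x) : ℝ := σ x ![v, w]

/-- the vector `A v` -/
def app (A : End W X) (x : X) (v : TangentSpace 𝓘(ℝ, W) x) : TangentSpace 𝓘(ℝ, W) x := A x v

/-- the image of the tangent vector `v` under the differential of `f` -/
def push (f : X → X) (x : X) (v : TangentSpace 𝓘(ℝ, W) x) : TangentSpace 𝓘(ℝ, W) (f x) :=
  mfderiv 𝓘(ℝ, W) 𝓘(ℝ, W) f x v

/-- The form `σ` is invariant under `f`. -/
def InvForm (f : X → X) (σ : Form W X 2) : Prop :=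
  ∀ (x : X) (v w : TangentSpace 𝓘(ℝ, W) x), ev σ (f x) (push f x v) (push f x w) = ev σ x v w

/-- The field `A` of endomorphisms of the tangent spaces is invariant under `f`. -/
def InvEnd (f : X → X) (A : End W X) : Prop :=
  ∀ (x : X) (v : TangentSpace 𝓘(ℝ, W) x), app A (f x) (push f x v) = push f x (app A x v)

/-- symplectic forms: smooth, closed and nondegenerate -/
structure IsSymplectic (σ : Form W X 2) : Prop where
  smooth : IsSmooth σ
  closed : IsClosedForm σ
  nondeg : ∀ (x : X) (v : TangentSpace 𝓘(ℝ, W) x), (∀ w, ev σ x v w = 0) → v = 0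

end general

section

variable (V : Type) [NormedAddCommGroup V] [NormedSpace ℝ V]
  (P : Type) [TopologicalSpace P] [ChartedSpace V P]

/-- There are a smooth closed two-form `σ` on the product of the torus `ℝ^m / ℤ^m` and `P` (a form
on `ℝ^m × P` invariant under the translations by `ℤ^m`) and a field `A` of endomorphisms of the
tangent spaces, invariant under all translations, such that `σ (v, A v) > 0` for all nonzero
tangent vectors `v`. -/
def Tamed (m : ℕ) : Prop :=
  ∃ (σ : Form (Md m V) (Cyl m P) 2) (A : End (Md m V) (Cyl m P)), IsSmooth σ ∧ IsClosedForm σ ∧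
    (∀ i : Fin m, InvForm (shift (Pi.single i 1)) σ) ∧ (∀ s : Fin m → ℝ, InvEnd (shift s) A) ∧
    ∀ q : Cyl m P, TamesAt σ A q

/-- There is a symplectic form on `ℝ^m × P` which is invariant under all translations, that is, a
symplectic form on the product of the torus and `P` which is invariant under the torus. -/
def InvSymp (m : ℕ) : Prop :=
  ∃ σ : Form (Md m V) (Cyl m P) 2, IsSymplectic σ ∧ ∀ s : Fin m → ℝ, InvForm (shift s) σ

/-- `P` has a symplectic form. -/
def Symp : Prop := ∃ β : Form V P 2, IsSymplectic β

end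

end Pool.Agent.Helper224_torP
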