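import Pool.Agent.Helper224_tor.Pub

/-!
Cohomologous forms on a manifold `P` and on the product of a torus and `P`, and the reduced form:
the definitions used in the statement of the class version.
-/

set_option autoImplicit false

open Set
open scoped Manifold ContDiff

noncomputable section

namespace Pool.Agent.Helper224_torP

open Pool.Agent.Y501.SYP

section general

variable {W X : Type} [NormedAddCommGroup W] [NormedSpace ℝ W] [TopologicalSpace X]
  [ChartedSpace W X]

/-- the number `α (v)` -/
def ev1 (α : Form W X 1) (x : X) (v : TangentSpace 𝓘(ℝ, W) x) : ℝ := α x ![v]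

/-- The one-form `α` is invariant under `f`. -/
def InvOne (f : X → X) (α : Form W X 1) : Prop :=
  ∀ (x : X) (v : TangentSpace 𝓘(ℝ, W) x), ev1 α (f x) (push f x v) = ev1 α x v

/-- `σ' - σ` is the exterior derivative of a smooth one-form. -/
def Coh (σ σ' : Form W X 2) : Prop :=
  ∃ (γ : Form W X 1) (η : Form W X 2), IsSmooth γ ∧ IsD γ η ∧ σ' = addF σ η

end general

section

variable {V : Type} [NormedAddCommGroup V] [NormedSpace ℝ V]
  {P : Type} [TopologicalSpace P] [ChartedSpace V P] {m : ℕ}

/-- `σ' - σ` is the exterior derivative of a smooth one-form on the product of the torus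
`ℝ^m / ℤ^m` and `P` (a one-form on `ℝ^m × P` invariant under the translations by `ℤ^m`). -/
def CohT (σ σ' : Form (Md m V) (Cyl m P) 2) : Prop :=
  ∃ (γ : Form (Md m V) (Cyl m P) 1) (η : Form (Md m V) (Cyl m P) 2),
    IsSmooth γ ∧ (∀ i : Fin m, InvOne (shift (Pi.single i 1)) γ) ∧ IsD γ η ∧ σ' = addF σ η

/-- The class of `σ` contains a form (a smooth closed two-form on the product of the torus and
`P`) which is positive on `(v, A v)`, for all nonzero tangent vectors `v`, for some field `A` of
endomorphisms of the tangent spaces which is invariant under all translations. -/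
def TamedIn (σ : Form (Md m V) (Cyl m P) 2) : Prop :=
  ∃ (σ' : Form (Md m V) (Cyl m P) 2) (A : End (Md m V) (Cyl m P)), IsSmooth σ' ∧
    IsClosedForm σ' ∧ (∀ i : Fin m, InvForm (shift (Pi.single i 1)) σ') ∧ CohT σ σ' ∧
    (∀ s : Fin m → ℝ, InvEnd (shift s) A) ∧ ∀ q : Cyl m P, TamesAt σ' A q

/-- the point `(0, x)` -/
def pt (m : ℕ) (x : P) : Cyl m P := ((0 : Fin m → ℝ), x)

/-- For every `x` in `P` and every nonzero tangent vector `v` at `(0, x)` there is a tangent vector
`w` such that `σ` is positive on the translates of `(v, w)`. -/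
def Pos (σ : Form (Md m V) (Cyl m P) 2) : Prop :=
  ∀ (x : P) (v : TangentSpace 𝓘(ℝ, Md m V) (pt m x)), v ≠ 0 →
    ∃ w : TangentSpace 𝓘(ℝ, Md m V) (pt m x), ∀ t : Fin m → ℝ,
      0 < ev σ (shift t (pt m x)) (push (shift t) (pt m x) v) (push (shift t) (pt m x) w)

/-- The class of `σ` contains a form (a smooth closed two-form on the product of the torus and
`P`) with the property `Pos`. -/
def PosIn (σ : Form (Md m V) (Cyl m P) 2) : Prop :=
  ∃ σ' : Form (Md m V) (Cyl m P) 2, IsSmooth σ' ∧
    IsClosedForm σ' ∧ (∀ i : Fin m, InvForm (shift (Pi.single i 1)) σ') ∧ CohT σ σ' ∧ Pos σ'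

/-- The class of `σ` contains a symplectic form which is invariant under all translations. -/
def InvSympIn (σ : Form (Md m V) (Cyl m P) 2) : Prop :=
  ∃ σ' : Form (Md m V) (Cyl m P) 2, IsSymplectic σ' ∧
    (∀ s : Fin m → ℝ, InvForm (shift s) σ') ∧ CohT σ σ'

/-- The class of the form `ρ` on `P` contains a symplectic form. -/
def SympIn (ρ : Form V P 2) : Prop := ∃ β : Form V P 2, IsSymplectic β ∧ Coh ρ β

/-- the tangent vector `(c, u)` at the point `(0, x)` -/
def vec (x : P) (c : Fin m → ℝ) (u : TangentSpace 𝓘(ℝ, V) x) :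
    TangentSpace 𝓘(ℝ, Md m V) (pt m x) := ((c, u) : (Fin m → ℝ) × V)

/-- The form `σ` is nondegenerate on the tori (at the points `(0, x)`). -/
def NondegT (σ : Form (Md m V) (Cyl m P) 2) : Prop :=
  ∀ (x : P) (c : Fin m → ℝ),
    (∀ b : Fin m → ℝ, ev σ (pt m x) (vec (V := V) x c 0) (vec (V := V) x b 0) = 0) → c = 0

/-- `ρ` is the reduced form of `σ`: the number `ρ (u, w)` is `σ (u', w')` for the lifts `u'` of `u`
which are orthogonal to the torus and all lifts `w'` of `w`. -/
def IsRed (σ : Form (Md m V) (Cyl m P) 2) (ρ : Form V P 2) : Prop :=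
  ∀ (x : P) (u w : TangentSpace 𝓘(ℝ, V) x) (c e : Fin m → ℝ),
    (∀ b : Fin m → ℝ, ev σ (pt m x) (vec (V := V) x c u) (vec (V := V) x b 0) = 0) →
      ev ρ x u w = ev σ (pt m x) (vec (V := V) x c u) (vec (V := V) x e w)

end

end Pool.Agent.Helper224_torP
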