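import Pool.Agent.Helper224_tor.Final
import Pool.Agent.Helper224_tor.Chart

/-!
Reduction of `ℝ^(n + r) × P` to `ℝ^r × P`.
-/

set_option autoImplicit false

open Set MeasureTheory Filter Topology
open scoped Manifold ContDiff

noncomputable section

namespace Pool.Agent.Helper224_tor

open Pool.Agent.Y501.SYP

section lin

variable (n r : ℕ) (V : Type) [NormedAddCommGroup V] [NormedSpace ℝ V]

/-- `(s, (s', v)) ↦ ((s, s'), v)` -/
def ap : Cy n (Cy r V) →L[ℝ] Cy (n + r) V :=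
  (ContinuousLinearMap.pi fun i : Fin (n + r) =>
    (Fin.addCases (motive := fun _ => Cy n (Cy r V) →L[ℝ] ℝ)
      (fun a => (ContinuousLinearMap.proj (R := ℝ) (φ := fun _ : Fin n => ℝ) a).comp
        (ContinuousLinearMap.fst ℝ (Fin n → ℝ) (Cy r V)))
      (fun b => (ContinuousLinearMap.proj (R := ℝ) (φ := fun _ : Fin r => ℝ) b).comp
        ((ContinuousLinearMap.fst ℝ (Fin r → ℝ) V).comp
          (ContinuousLinearMap.snd ℝ (Fin n → ℝ) (Cy r V)))) i)).prod
    ((ContinuousLinearMap.snd ℝ (Fin r → ℝ) V).comp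
      (ContinuousLinearMap.snd ℝ (Fin n → ℝ) (Cy r V)))

/-- the projection `((s, s'), v) ↦ (s', v)` -/
def lp : Cy (n + r) V →L[ℝ] Cy r V :=
  (ContinuousLinearMap.pi fun b : Fin r =>
      (ContinuousLinearMap.proj (R := ℝ) (φ := fun _ : Fin (n + r) => ℝ) (Fin.natAdd n b)).comp
        (ContinuousLinearMap.fst ℝ (Fin (n + r) → ℝ) V)).prod
      (ContinuousLinearMap.snd ℝ (Fin (n + r) → ℝ) V)

/-- `((s, s'), v) ↦ (s, (s', v))` -/
def pa : Cy (n + r) V →L[ℝ] Cy n (Cy r V) :=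
  (ContinuousLinearMap.pi fun a : Fin n =>
    (ContinuousLinearMap.proj (R := ℝ) (φ := fun _ : Fin (n + r) => ℝ) (Fin.castAdd r a)).comp
      (ContinuousLinearMap.fst ℝ (Fin (n + r) → ℝ) V)).prod (lp n r V)

variable {n r V}

theorem ap_fst_cast (c : Cy n (Cy r V)) (a : Fin n) : (ap n r V c).1 (Fin.castAdd r a) = c.1 a := by
  simp [ap]

theorem ap_fst_nat (c : Cy n (Cy r V)) (b : Fin r) :
    (ap n r V c).1 (Fin.natAdd n b) = c.2.1 b := by
  simp [ap]

theorem ap_snd (c : Cy n (Cy r V)) : (ap n r V c).2 = c.2.2 := rfl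

theorem pa_ap (c : Cy n (Cy r V)) : pa n r V (ap n r V c) = c := by
  refine Prod.ext ?_ (Prod.ext ?_ rfl)
  · funext a
    exact ap_fst_cast c a
  · funext b
    exact ap_fst_nat c b

theorem ap_pa (c : Cy (n + r) V) : ap n r V (pa n r V c) = c := by
  refine Prod.ext ?_ rfl
  funext i
  refine Fin.addCases (fun a => ?_) (fun b => ?_) i
  · rw [ap_fst_cast]; rfl
  · rw [ap_fst_nat]; rfl

theorem ap_bij : Function.Bijective (ap n r V) :=
  ⟨fun a b h => by rw [← pa_ap a, h, pa_ap], fun c => ⟨_, ap_pa c⟩⟩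

theorem pa_bij : Function.Bijective (pa n r V) :=
  ⟨fun a b h => by rw [← ap_pa a, h, ap_pa], fun c => ⟨_, pa_ap c⟩⟩

theorem ap_bv (i : Fin n) : ap n r V (bv (Cy r V) i) = bv V (Fin.castAdd r i) := by
  refine Prod.ext ?_ rfl
  funext l
  refine Fin.addCases (fun a => ?_) (fun b => ?_) l
  · rw [ap_fst_cast]
    simp [bv, Pi.single_apply]
  · rw [ap_fst_nat]
    simp only [bv, Pi.single_apply]
    rw [if_neg]
    · rfl
    · intro h
      have := congrArg Fin.val h
      simp at this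
      omega

end lin

variable {n r : ℕ} {V : Type} [NormedAddCommGroup V] [NormedSpace ℝ V] [FiniteDimensional ℝ V]
  {P : Type} [TopologicalSpace P] [ChartedSpace V P]

omit [FiniteDimensional ℝ V] in
theorem ap_pd (φ : V → P) (p : V) (c : Cy n (Cy r V)) :
    pd (n + r) φ p (ap n r V c) =
      ap n r V (pr (ContinuousLinearMap.id ℝ (Fin n → ℝ)) (pd r φ p) c) := by
  refine Prod.ext ?_ rfl
  funext l
  refine Fin.addCases (fun a => ?_) (fun b => ?_) l
  · rw [ap_fst_cast]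
    exact ap_fst_cast c a
  · rw [ap_fst_nat]
    exact ap_fst_nat c b

instance manCyl [IsManifold 𝓘(ℝ, V) ∞ P] : IsManifold 𝓘(ℝ, (Fin r → ℝ) × V) ∞ (Cyl r P) := by
  have h : IsManifold (𝓘(ℝ, Fin r → ℝ).prod 𝓘(ℝ, V)) ∞ ((Fin r → ℝ) × P) := inferInstance
  rw [← modelWithCornersSelf_prod] at h
  exact h

/-- Forms given in the charts by `C + ℓ^* G` with a closed form `G` are smooth and closed. -/
theorem of_pull [IsManifold 𝓘(ℝ, V) ∞ P] {m : ℕ} (σ : FormC V P m)
    (C : (Cy m V) [⋀^Fin 2]→L[ℝ] ℝ)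
    {Z : Type} [NormedAddCommGroup Z] [NormedSpace ℝ Z] (ℓ : Cy m V →L[ℝ] Z)
    (h : ∀ x : P, ∃ (O : Set Z) (G : Z → Z [⋀^Fin 2]→L[ℝ] ℝ), IsOpen O ∧
      ContDiffOn ℝ ∞ G O ∧ (∀ z ∈ O, extDeriv G z = 0) ∧
      ∀ (t : Fin m → ℝ) (p : V), p ∈ (chartAt V x).target → ℓ (t, p) ∈ O ∧
        co (chartAt V x).symm σ (t, p) = C + (G (ℓ (t, p))).compContinuousLinearMap ℓ) :
    IsSmooth σ ∧ IsClosedForm σ := by
  have key : ∀ (q : Cyl m P), ∀ z ∈ (chartAt ((Fin m → ℝ) × V) q).target,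
      ContDiffAt ℝ ∞ (pb (chartAt ((Fin m → ℝ) × V) q).symm σ) z ∧
      extDeriv (pb (chartAt ((Fin m → ℝ) × V) q).symm σ) z = 0 := by
    intro q z hz
    have hz2 : z.2 ∈ (chartAt V q.2).target := by
      have : z ∈ (univ : Set (Fin m → ℝ)) ×ˢ (chartAt V q.2).target := hz
      exact this.2
    have hpb : pb (chartAt ((Fin m → ℝ) × V) q).symm σ = co (chartAt V q.2).symm σ := rfl
    rw [hpb]
    obtain ⟨O, G, hO, hG, hGc, hco⟩ := h q.2
    have hev : co (chartAt V q.2).symm σ =ᶠ[𝓝 z] fun y =>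
        C + (G (ℓ y)).compContinuousLinearMap ℓ := by
      have : (univ : Set (Fin m → ℝ)) ×ˢ (chartAt V q.2).target ∈ 𝓝 z :=
        (isOpen_univ.prod (chartAt V q.2).open_target).mem_nhds ⟨mem_univ _, hz2⟩
      filter_upwards [this] with y hy
      exact (hco y.1 y.2 hy.2).2
    have hzO : ℓ z ∈ O := (hco z.1 z.2 hz2).1
    have hGd : ContDiffAt ℝ ∞ G (ℓ z) := hG.contDiffAt (hO.mem_nhds hzO)
    have hℓ : ContDiffAt ℝ ∞ ℓ z := ℓ.contDiff.contDiffAt
    have h1 : ContDiffAt ℝ ∞ (fun y => (G (ℓ y)).compContinuousLinearMap ℓ) z :=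
      pull_smooth (hGd.comp z hℓ) contDiffAt_const
    constructor
    · exact (contDiffAt_const.add h1).congr_of_eventuallyEq hev
    · rw [hev.extDeriv_eq]
      have h2 : extDeriv (fun y => C + (G (ℓ y)).compContinuousLinearMap ℓ) z =
          extDeriv (fun y => (G (ℓ y)).compContinuousLinearMap ℓ) z := by
        unfold extDeriv
        rw [fderiv_const_add]
      have h5 : minSmoothness ℝ 2 ≤ (∞ : WithTop ℕ∞) := by
        simp only [minSmoothness_of_isRCLikeNormedField]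
        exact WithTop.coe_le_coe.2 (le_top (a := (2 : ℕ∞)))
      have h3 := extDeriv_pullback (x := z) (hGd.differentiableAt (by simp)) hℓ h5
      simp only [ContinuousLinearMap.fderiv] at h3
      rw [h2, h3, hGc _ hzO]
      ext v
      rfl
  exact of_charts σ (fun q z hz => (key q z hz).1.contDiffWithinAt) (fun q z hz => (key q z hz).2)

end Pool.Agent.Helper224_tor
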