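import Pool.Agent.Helper224_tor.Ext

/-!
The average of a closed periodic two-form on `ℝ^m × U`.
-/

set_option autoImplicit false

open Set MeasureTheory Filter Topology
open scoped ContDiff

noncomputable section

namespace Pool.Agent.Helper224_tor

variable {m : ℕ} {V : Type} [NormedAddCommGroup V] [NormedSpace ℝ V] [FiniteDimensional ℝ V]


theorem avg_dir {F : Cy m V → (Cy m V) [⋀^Fin 2]→L[ℝ] ℝ} {U : Set V} (hU : IsOpen U)
    (hF : ContDiffOn ℝ ∞ F (univ ×ˢ U)) {p : V} (hp : p ∈ U)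
    (hper : ∀ (i : Fin m) (t : Fin m → ℝ), F (t + Pi.single i 1, p) = F (t, p)) (a : Cy m V) :
    IntegrableOn (fun t => fderiv ℝ F (t, p) a) (Icc (0 : Fin m → ℝ) 1) ∧
    ∫ t in Icc (0 : Fin m → ℝ) 1, fderiv ℝ F (t, p) a = avg (par F) p a.2 := by
  have hfd : ContinuousOn (fderiv ℝ F) (univ ×ˢ U) :=
    (((contDiffOn_infty_iff_fderiv_of_isOpen (isOpen_univ.prod hU)).1 hF).2).continuousOn
  have hc : Continuous fun t : Fin m → ℝ => fderiv ℝ F (t, p) := by
    rw [← continuousOn_univ]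
    exact hfd.comp (by fun_prop) (fun t _ => ⟨mem_univ _, hp⟩)
  have hint : ∀ b : Cy m V, IntegrableOn (fun t => fderiv ℝ F (t, p) b)
      (Icc (0 : Fin m → ℝ) 1) := fun b =>
    (hc.clm_apply continuous_const).continuousOn.integrableOn_compact isCompact_Icc
  refine ⟨hint a, ?_⟩
  obtain ⟨s, v⟩ := a
  have e : ((s, v) : Cy m V) = (∑ i, s i • ((Pi.single i 1, 0) : Cy m V)) + (0, v) := by
    ext1
    · simp only [Prod.fst_add, Prod.fst_sum, add_zero, Prod.smul_fst]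
      funext l
      simp [Finset.sum_apply, Pi.single_apply]
    · simp [Prod.snd_sum]
  have e2 : ∀ t : Fin m → ℝ, fderiv ℝ F (t, p) (s, v) =
      (∑ i, s i • fderiv ℝ F (t, p) (Pi.single i 1, 0)) + fderiv ℝ F (t, p) (0, v) := by
    intro t
    rw [e, map_add, map_sum]
    simp only [map_smul]
  simp only [e2]
  have hs : ∀ i : Fin m, IntegrableOn (fun t => s i • fderiv ℝ F (t, p) (Pi.single i 1, 0))
      (Icc (0 : Fin m → ℝ) 1) := fun i => (hint _).smul (s i)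
  rw [integral_add (f := fun t => ∑ i, s i • fderiv ℝ F (t, p) (Pi.single i 1, 0))
      (integrable_finsetSum _ fun i _ => hs i) (hint _),
    integral_finsetSum _ fun i _ => hs i]
  have e3 : ∀ i : Fin m, ∫ t in Icc (0 : Fin m → ℝ) 1,
      s i • fderiv ℝ F (t, p) (Pi.single i 1, 0) = 0 := by
    intro i
    rw [integral_smul, avg_partial hU hF hp i (hper i), smul_zero]
  simp only [e3, Finset.sum_const_zero, zero_add]
  have hpar : IntegrableOn (fun t => par F (t, p)) (Icc (0 : Fin m → ℝ) 1) :=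
    slice_int (par_smooth hU hF).continuousOn hp
  unfold avg
  rw [ContinuousLinearMap.integral_apply hpar]
  rfl


theorem avg_rel {F : Cy m V → (Cy m V) [⋀^Fin 2]→L[ℝ] ℝ} {U : Set V} (hU : IsOpen U)
    (hF : ContDiffOn ℝ ∞ F (univ ×ˢ U)) {p : V} (hp : p ∈ U)
    (hper : ∀ (i : Fin m) (t : Fin m → ℝ), F (t + Pi.single i 1, p) = F (t, p))
    (hcl : ∀ t, extDeriv F (t, p) = 0) : Rel (avg (par F) p) := by
  intro a b c
  obtain ⟨ia, ea⟩ := avg_dir hU hF hp hper a
  obtain ⟨ib, eb⟩ := avg_dir hU hF hp hper b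
  obtain ⟨ic, ec⟩ := avg_dir hU hF hp hper c
  rw [← ea, ← eb, ← ec]
  have hev : ∀ (x y z : Cy m V), IntegrableOn (fun t => fderiv ℝ F (t, p) x)
      (Icc (0 : Fin m → ℝ) 1) →
      (IntegrableOn (fun t => (fderiv ℝ F (t, p) x) ![y, z]) (Icc (0 : Fin m → ℝ) 1)) ∧
      (∫ t in Icc (0 : Fin m → ℝ) 1, fderiv ℝ F (t, p) x) ![y, z] =
        ∫ t in Icc (0 : Fin m → ℝ) 1, (fderiv ℝ F (t, p) x) ![y, z] := by
    intro x y z hx
    have := (ContinuousAlternatingMap.apply ℝ (Cy m V) ℝ ![y, z]).integral_comp_comm hx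
    have h2 := (ContinuousAlternatingMap.apply ℝ (Cy m V) ℝ ![y, z]).integrable_comp hx
    simp only [ContinuousAlternatingMap.apply_apply] at this h2
    exact ⟨h2, this.symm⟩
  obtain ⟨j1, h1⟩ := hev a b c ia
  obtain ⟨j2, h2⟩ := hev b a c ib
  obtain ⟨j3, h3⟩ := hev c a b ic
  rw [h1, h2, h3, ← integral_sub j1 j2,
    ← integral_add (f := fun t => (fderiv ℝ F (t, p) a) ![b, c] -
      (fderiv ℝ F (t, p) b) ![a, c]) (j1.sub j2) j3]
  have : ∀ t : Fin m → ℝ, (fderiv ℝ F (t, p) a) ![b, c] - (fderiv ℝ F (t, p) b) ![a, c] +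
      (fderiv ℝ F (t, p) c) ![a, b] = 0 := by
    intro t
    rw [← ext_two, hcl t]; rfl
  simp [this]

end Pool.Agent.Helper224_tor
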